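import Pool.Agent.H78.LR.Defs

/-!
# MP_3d4eef_ag: definitions for the weak Lang conjecture in all dimensions
-/

namespace Pool.Agent.H78.WL

open Pool.Agent.H78.LR

/-- the growth property for transcendence degree `i` -/
def GrowI (K : Type*) [Field K] [Algebra ℝ K] (i : ℕ) : Prop :=
  ∀ (C : Finset K) (D a b : ℕ), 1 ≤ D → a * D ^ i < b →
    ∃ Ω : Submodule ℝ K, FiniteDimensional ℝ Ω ∧ (1 : K) ∈ Ω ∧
      a * Module.finrank ℝ (Submodule.span ℝ (C : Set K) * Ω ^ D : Submodule ℝ K) <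
        b * Module.finrank ℝ Ω

/-- `κ_n`: `(s²+t²)^e = ∑_n binom(2e,n) κ_n s^n t^(2e-n)` -/
noncomputable def kap (e n : ℕ) : ℝ :=
  if Even n then (e.choose (n / 2) : ℝ) / ((2 * e).choose n) else 0

/-- number of indices with value in `S` -/
def cnt {d P : ℕ} (S : Finset (Fin P)) (a : Fin d → Fin P) : ℕ :=
  (Finset.univ.filter fun i => a i ∈ S).card

/-- the array obtained after `P D` steps -/
noncomputable def WW (e P D : ℕ) (a : Fin (2 * e) → Fin P) : ℝ :=
  ∏ p : Fin P, kap e (cnt {p} a) ^ D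

/-- the form with array `W` -/
def Psi {R : Type*} [CommSemiring R] {d P : ℕ} (W : (Fin d → Fin P) → R) (y : Fin P → R) : R :=
  ∑ a, W a * ∏ i, y (a i)

/-- Every diagonal form of degree `2e` in `n` variables has a nontrivial zero or contains a
nonzero multiple of the real form with array `W` (as a tensor identity). -/
def Cont (K : Type*) [Field K] [Algebra ℝ K] (e P n : ℕ) (W : (Fin (2 * e) → Fin P) → ℝ) :
    Prop :=
  ∀ (ι : Type) [Fintype ι], Fintype.card ι = n → ∀ s : ι → K,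
    (∃ x : ι → K, x ≠ 0 ∧ ∑ b, s b * x b ^ (2 * e) = 0) ∨
    ∃ c : K, c ≠ 0 ∧ ∃ L : ι → Fin P → K, ∀ a : Fin (2 * e) → Fin P,
      ∑ b, s b * ∏ i, L b (a i) = c * algebraMap ℝ K (W a)

/-- `φ : V → K` is a form of degree `l` (diagonal of a multilinear map) -/
def IsFrm (K : Type*) [Field K] {V : Type*} [AddCommGroup V] [Module K V] (l : ℕ)
    (φ : V → K) : Prop :=
  ∃ T : MultilinearMap K (fun _ : Fin l => V) K, ∀ v, φ v = T (fun _ => v)

/-- every diagonal form of degree `d' ≤ d` in `φ d'` variables has a nontrivial zero -/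
def DiagIso (K : Type*) [Field K] (d : ℕ) (φ : ℕ → ℕ) : Prop :=
  ∀ d', 1 ≤ d' → d' ≤ d → ∀ s : Fin (φ d') → K,
    ∃ x : Fin (φ d') → K, x ≠ 0 ∧ ∑ b, s b * x b ^ d' = 0

universe u

/-- Brauer's conclusion for degrees `≤ d`: for all `r`, `t` there is `N`, independent of the field,
such that systems of `r` forms of degrees in `[1, d]` on spaces of dimension `≥ N` vanish on a
subspace of dimension `≥ t` -/
def ZZ (φ : ℕ → ℕ) (d : ℕ) : Prop :=
  ∀ r t : ℕ, ∃ N : ℕ, ∀ (K : Type u) [Field K], DiagIso K d φ →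
    ∀ (V : Type u) [AddCommGroup V] [Module K V] [FiniteDimensional K V],
      N ≤ Module.finrank K V → ∀ (ρ : Type) [Fintype ρ], Fintype.card ρ ≤ r →
      ∀ (ψ : ρ → V → K) (e : ρ → ℕ), (∀ j, 1 ≤ e j ∧ e j ≤ d ∧ IsFrm K (e j) (ψ j)) →
      ∃ U : Submodule K V, t ≤ Module.finrank K U ∧ ∀ v ∈ U, ∀ j, ψ j v = 0

end Pool.Agent.H78.WL
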