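import Pool.Agent.H78.LR.BUK
import Pool.Agent.H78.LR.PlB
import Pool.Agent.H78.LR.PlC
import Pool.Agent.H78.WL.Defs

/-!
# The mixed Tsen-Lang theorem for transcendence degree `i`, planes for one form

Same proofs as `Pool.Agent.H78.LR.buK` and `Pool.Agent.H78.LR.planes`.
-/

namespace Pool.Agent.H78.WL

open MvPolynomial Pool.Agent.H78.LR

theorem buKI {K : Type*} [Field K] [Algebra ℝ K] {i : ℕ} (hGL : GrowI K i) {m n D : ℕ}
    (hD : 1 ≤ D)
    {ρ : Type} [Fintype ρ] (w : ρ → Fin m → ℤ) (hw : ∀ j, w j ≠ 0) (C : Finset K)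
    (A : ρ → (Fin m → Fin n → LL K) → LL K)
    (hE : ∀ j (l : Fin m → ℂ), (∀ b, ‖l b‖ = 1) → ∀ z,
      A j (fun b c => cc K (l b) * z b c) = cc K (∏ b, l b ^ w j b) * A j z)
    (hP : ∀ j (Ω : Submodule ℝ K) (e : ℕ) (ω : Fin e → K), (1 : K) ∈ Ω → (∀ l, ω l ∈ Ω) →
      CF (Submodule.span ℝ (C : Set K) * Ω ^ D) (fun z : Fin m → (Fin n × Fin e) → ℂ =>
        A j (fun b c => ∑ l, cc K (z b (c, l)) * kk K (ω l))))
    (h : Fintype.card ρ * D ^ i < n) :
    ∃ z : Fin m → Fin n → LL K, (∀ b, z b ≠ 0) ∧ ∀ j, A j z = 0 := by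
  classical
  obtain ⟨Ω, hfd, h1, hlt⟩ := hGL C D (Fintype.card ρ) n hD h
  have hfgΩ : Ω.FG := Module.Finite.iff_fg.1 hfd
  have hfgS : (Submodule.span ℝ (C : Set K) * Ω ^ D : Submodule ℝ K).FG :=
    (Submodule.fg_span C.finite_toSet).mul (hfgΩ.pow D)
  have hfdS : FiniteDimensional ℝ (Submodule.span ℝ (C : Set K) * Ω ^ D : Submodule ℝ K) :=
    Module.Finite.iff_fg.2 hfgS
  set e := Module.finrank ℝ Ω with he
  set e' := Module.finrank ℝ (Submodule.span ℝ (C : Set K) * Ω ^ D : Submodule ℝ K) with he'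
  let ω : Module.Basis (Fin e) ℝ Ω := Module.finBasis ℝ Ω
  let η : Module.Basis (Fin e') ℝ (Submodule.span ℝ (C : Set K) * Ω ^ D : Submodule ℝ K) :=
    Module.finBasis ℝ _
  have hω : LinearIndependent ℝ (fun l => (ω l : K)) :=
    ω.linearIndependent.map' Ω.subtype (Submodule.ker_subtype _)
  have hη : LinearIndependent ℝ (fun l => (η l : K)) :=
    η.linearIndependent.map' (Submodule.subtype _) (Submodule.ker_subtype _)
  choose G hGc hG using fun j => (hP j Ω e (fun l => (ω l : K)) h1 (fun l => (ω l).2)).expand η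
  have hEq : ∀ (j : ρ) (k : Fin e') (l : Fin m → ℂ), (∀ b, ‖l b‖ = 1) → ∀ z,
      G j k (fun b a => l b * z b a) = (∏ b, l b ^ w j b) * G j k z := by
    intro j k l hl z
    have h2 : ∑ k, cc K (G j k (fun b a => l b * z b a)) * kk K (η k : K) =
        ∑ k, cc K ((∏ b, l b ^ w j b) * G j k z) * kk K (η k : K) := by
      rw [← hG j (fun b a => l b * z b a)]
      have h3 : (fun (b : Fin m) (c : Fin n) =>
          ∑ l' : Fin e, cc K (l b * z b (c, l')) * kk K (ω l' : K)) =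
          fun b c => cc K (l b) * ∑ l' : Fin e, cc K (z b (c, l')) * kk K (ω l' : K) := by
        funext b c
        rw [Finset.mul_sum]
        refine Finset.sum_congr rfl fun l' _ => ?_
        rw [map_mul, mul_assoc]
      rw [h3, hE j l hl, hG j z, Finset.mul_sum]
      refine Finset.sum_congr rfl fun k _ => ?_
      rw [map_mul, mul_assoc]
    exact congrFun (cc_indep hη h2) k
  obtain ⟨z, hz, hz0⟩ := bu' (m := m) (κ := Fin n × Fin e) (ρ := ρ × Fin e')
    (fun p => w p.1) (fun p => hw p.1) (fun p => G p.1 p.2) (fun p => hGc p.1 p.2)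
    (fun p l hl z => hEq p.1 p.2 l hl z) (by
      rw [Fintype.card_prod, Fintype.card_prod, Fintype.card_fin, Fintype.card_fin,
        Fintype.card_fin]
      exact hlt)
  refine ⟨fun b c => ∑ l, cc K (z b (c, l)) * kk K (ω l : K), fun b hb => ?_, fun j => ?_⟩
  · apply hz b
    funext p
    obtain ⟨c, l⟩ := p
    have h2 : ∑ l, cc K (z b (c, l)) * kk K (ω l : K) =
        ∑ l, cc K ((fun _ : Fin e => (0 : ℂ)) l) * kk K (ω l : K) := by
      have h3 : ∑ l, cc K (z b (c, l)) * kk K (ω l : K) = 0 := congrFun hb c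
      rw [h3]
      symm
      apply Finset.sum_eq_zero
      intro l _
      rw [map_zero, zero_mul]
    exact congrFun (cc_indep (c := fun l => z b (c, l)) hω h2) l
  · rw [hG j z]
    apply Finset.sum_eq_zero
    intro k _
    have h2 : G j k z = 0 := hz0 (j, k)
    rw [h2, map_zero, zero_mul]

/-- planes for one form -/
theorem planeI {K : Type*} [Field K] [Algebra ℝ K] {i : ℕ} (hGL : GrowI K i) {m n d : ℕ}
    (hd : 1 ≤ d) (f : MvPolynomial (Fin m × Fin n) K) (hf : f.IsHomogeneous d)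
    (E : Finset (Fin m ⊕ Fin m →₀ ℕ))
    (hE1 : ∀ u ∈ E, ∃ b, u (Sum.inl b) ≠ u (Sum.inr b))
    (hE2 : ∀ u : Fin m ⊕ Fin m →₀ ℕ, u.degree = d →
      (∃ b, u (Sum.inl b) ≠ u (Sum.inr b)) → u ∈ E ∨ u.mapDomain Sum.swap ∈ E)
    (hn : E.card * d ^ i < n) :
    ∃ z : Fin m → Fin n → LL K, (∀ b, z b ≠ 0) ∧
      ∃ P : MvPolynomial (Fin m) K, PlaneRel d f z P := by
  classical
  set C : Finset K := f.support.image (fun v => coeff v f) with hCdef
  have hC : ∀ v, coeff v f ∈ Submodule.span ℝ (C : Set K) := by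
    intro v
    by_cases hv : v ∈ f.support
    · apply Submodule.subset_span
      rw [hCdef, Finset.coe_image]
      exact ⟨v, hv, rfl⟩
    · rw [MvPolynomial.notMem_support_iff.1 hv]
      exact zero_mem _
  obtain ⟨z, hz, hA⟩ := buKI hGL hd (m := m) (n := n) (ρ := {u // u ∈ E})
    (fun ju b => ((ju.1 (Sum.inl b) : ℕ) : ℤ) - ((ju.1 (Sum.inr b) : ℕ) : ℤ))
    (by
      rintro ⟨u, hu⟩ h
      obtain ⟨b, hb⟩ := hE1 u hu
      have h1 := congrFun h b
      simp only [Pi.zero_apply] at h1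
      exact hb (by exact_mod_cast sub_eq_zero.1 h1))
    C (fun ju z => coeff ju.1 (FF f z))
    (by
      rintro ⟨u, hu⟩ l hl z
      exact coeff_FF_rot f z l hl u)
    (by
      rintro ⟨u, hu⟩ Ω e ω h1 hω
      exact CF_coeff_FF hf le_rfl C hC Ω ω h1 hω u)
    (by simpa using hn)
  refine ⟨z, hz, ?_⟩
  apply plane hf z
  intro u hb
  by_cases hu : u.degree = d
  · rcases hE2 u hu hb with h1 | h1
    · exact hA ⟨u, h1⟩
    · have h2 := hA ⟨_, h1⟩
      simp only at h2
      rw [coeff_FF_cj] at h2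
      have h3 := congrArg (cj K) h2
      rw [cj_cj, map_zero] at h3
      exact h3
  · exact (FF_homog hf z).coeff_eq_zero hu

end Pool.Agent.H78.WL
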