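import Pool.Agent.H78.WL.Defs

/-!
# wl_mod BrA: forms from multilinear maps

`IsFrm K l φ`: `φ v = T (v, ..., v)` for a multilinear map `T` on `V^l`.

`mixed`: for a multilinear `T` on `V^d'`, a set `S` of positions and fixed vectors `v` at the other
positions, `u ↦ T (u on S, v elsewhere)` is a form of degree `#S`.
-/

namespace Pool.Agent.H78.WL

variable {K : Type*} [Field K] {V : Type*} [AddCommGroup V] [Module K V]
  {V' : Type*} [AddCommGroup V'] [Module K V']

theorem IsFrm.zero (l : ℕ) : IsFrm K l (fun _ : V => (0 : K)) :=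
  ⟨0, fun _ => rfl⟩

theorem IsFrm.add {l : ℕ} {φ ψ : V → K} (h : IsFrm K l φ) (h' : IsFrm K l ψ) :
    IsFrm K l (fun v => φ v + ψ v) := by
  obtain ⟨T, hT⟩ := h
  obtain ⟨T', hT'⟩ := h'
  exact ⟨T + T', fun v => by simp [hT, hT']⟩

theorem IsFrm.smul {l : ℕ} (c : K) {φ : V → K} (h : IsFrm K l φ) :
    IsFrm K l (fun v => c * φ v) := by
  obtain ⟨T, hT⟩ := h
  exact ⟨c • T, fun v => by simp [hT]⟩

theorem IsFrm.comp {l : ℕ} {φ : V → K} (h : IsFrm K l φ) (L : V' →ₗ[K] V) :
    IsFrm K l (fun v => φ (L v)) := by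
  obtain ⟨T, hT⟩ := h
  exact ⟨T.compLinearMap (fun _ => L), fun v => by simp [hT]⟩

theorem mixed {d' : ℕ} (T : MultilinearMap K (fun _ : Fin d' => V) K) (S : Finset (Fin d'))
    (v : Fin d' → V) : IsFrm K S.card (fun u => T (fun i => if i ∈ S then u else v i)) := by
  refine ⟨(T.domDomRestrict (fun i => i ∈ S) (fun i => v i.1)).domDomCongr
    (S.orderIsoOfFin rfl).toEquiv.symm, fun u => ?_⟩
  simp only [MultilinearMap.domDomCongr_apply, MultilinearMap.domDomRestrict_apply]
  congr 1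

end Pool.Agent.H78.WL
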