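import Pool.Agent.H78.WL.BrA

/-!
# wl_mod BrB: vectors with vanishing mixed terms

Statement: for every `M` there is `N`, independent of the field, such that for every multilinear `T` on
`V^(d+1)`, `dim V ≥ N`, there are linearly independent `v_1, ..., v_M` in `V` with `T (v ∘ a) = 0` for
all nonconstant `a : Fin (d+1) → Fin M`.

Proof by induction on `M`.
-/

namespace Pool.Agent.H78.WL

universe u

theorem brB (φ : ℕ → ℕ) (d : ℕ) (hZ : ZZ.{u} φ d) (M : ℕ) :
    ∃ N : ℕ, ∀ (K : Type u) [Field K], DiagIso K d φ →
      ∀ (V : Type u) [AddCommGroup V] [Module K V] [FiniteDimensional K V],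
        N ≤ Module.finrank K V → ∀ T : MultilinearMap K (fun _ : Fin (d + 1) => V) K,
        ∃ v : Fin M → V, LinearIndependent K v ∧
          ∀ a : Fin (d + 1) → Fin M, (∃ i j, a i ≠ a j) → T (fun i => v (a i)) = 0 := by
  classical
  induction M with
  | zero =>
    refine ⟨0, fun K _ _ V _ _ _ _ T => ⟨Fin.elim0, linearIndependent_empty_type, ?_⟩⟩
    intro a _
    exact (a 0).elim0
  | succ M ih =>
    obtain ⟨NM, hNM⟩ := ih
    obtain ⟨N', hN'⟩ := hZ (Fintype.card (Fin (d + 1) → Fin (M + 1))) 1
    refine ⟨max NM (N' + M), ?_⟩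
    intro K _ hK V _ _ _ hdim T
    obtain ⟨v, hvli, hv0⟩ := hNM K hK V ((le_max_left _ _).trans hdim) T
    set W : Submodule K V := Submodule.span K (Set.range v) with hW
    obtain ⟨V', hV'⟩ := Submodule.exists_isCompl W
    have hWdim : Module.finrank K W = M := by
      rw [hW, finrank_span_eq_card hvli, Fintype.card_fin]
    have hV'dim : N' ≤ Module.finrank K V' := by
      have h1 := Submodule.finrank_add_eq_of_isCompl hV'
      have h2 := (le_max_right NM (N' + M)).trans hdim
      omega
    -- index set
    let ρ := {a : Fin (d + 1) → Fin (M + 1) // (∃ i, a i = Fin.last M) ∧ ∃ i, a i ≠ Fin.last M}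
    let vv : Fin (M + 1) → V := Fin.snoc v 0
    let S : ρ → Finset (Fin (d + 1)) := fun a => Finset.univ.filter fun i => a.1 i = Fin.last M
    have hS1 : ∀ a : ρ, 1 ≤ (S a).card := by
      rintro ⟨a, ⟨i, hi⟩, _⟩
      exact Finset.card_pos.2 ⟨i, by simp [S, hi]⟩
    have hS2 : ∀ a : ρ, (S a).card ≤ d := by
      rintro ⟨a, _, ⟨i, hi⟩⟩
      have : (S ⟨a, ‹_›, ⟨i, hi⟩⟩).card < (Finset.univ : Finset (Fin (d + 1))).card := by
        apply Finset.card_lt_card
        rw [Finset.ssubset_univ_iff]
        intro h
        have : i ∈ (Finset.univ : Finset (Fin (d + 1))) := Finset.mem_univ i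
        rw [← h] at this
        simp only [S, Finset.mem_filter, Finset.mem_univ, true_and] at this
        exact hi this
      simpa [Nat.lt_succ_iff] using this
    obtain ⟨U, hU1, hU0⟩ := hN' K hK V' hV'dim ρ
      (Fintype.card_subtype_le _)
      (fun a u => T (fun i => if i ∈ S a then (u : V) else vv (a.1 i)))
      (fun a => (S a).card) (fun a => ⟨hS1 a, hS2 a,
        (mixed T (S a) (fun i => vv (a.1 i))).comp V'.subtype⟩)
    obtain ⟨u, huU, hu0⟩ : ∃ u ∈ U, u ≠ 0 := by
      apply Submodule.exists_mem_ne_zero_of_ne_bot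
      intro h
      rw [h] at hU1
      simp at hU1
    have huV : (u : V) ∉ W := by
      intro h
      have := (Submodule.disjoint_def.1 hV'.disjoint) (u : V) h u.2
      exact hu0 (Subtype.ext this)
    refine ⟨Fin.snoc v (u : V), ?_, ?_⟩
    · rw [linearIndependent_finSnoc]
      exact ⟨hvli, huV⟩
    · rintro a ⟨i0, j0, hij⟩
      by_cases hlast : ∃ i, a i = Fin.last M
      · have hne : ∃ i, a i ≠ Fin.last M := by
          by_contra hcon
          push Not at hcon
          exact hij ((hcon i0).trans (hcon j0).symm)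
        have h0 := hU0 u huU ⟨a, hlast, hne⟩
        rw [← h0]
        congr 1
        funext i
        by_cases hi : a i = Fin.last M
        · simp [S, hi]
        · obtain ⟨k, hk⟩ := Fin.exists_castSucc_eq.2 hi
          simp only [S, Finset.mem_filter, Finset.mem_univ, true_and, hi, if_false]
          rw [← hk]
          simp [vv]
      · push Not at hlast
        have hb : ∀ i, ∃ k : Fin M, Fin.castSucc k = a i := fun i => Fin.exists_castSucc_eq.2 (hlast i)
        choose b hb using hb
        have := hv0 b ⟨i0, j0, fun h => hij (by rw [← hb i0, ← hb j0, h])⟩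
        rw [← this]
        congr 1
        funext i
        rw [← hb i]
        simp

end Pool.Agent.H78.WL
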