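import Pool.Agent.H78.WL.BrB

/-!
# wl_mod BrC: large spaces of zeros of one form of degree `d + 1`

Proof. Let `q = φ (d+1)`, `M = t q`, `N` from `brB` for `M`. Let `ψ v = T (v,...,v)`. By `brB` there
are linearly independent `v_(j,b)`, `j < t`, `b < q` (reindex `Fin (t*q) ≃ Fin t × Fin q`,
`finProdFinEquiv`), with all nonconstant `T (v ∘ a) = 0`. For every `j` the diagonal form
`∑_b T(v_(j,b), ..., v_(j,b)) x_b^(d+1)` has a nontrivial zero `x^j` (`DiagIso K (d+1) φ`). Put
`w_j = ∑_b x^j_b v_(j,b)`. They are linearly independent. `T (w ∘ a)`, `a : Fin (d+1) → Fin t`,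
expands (`MultilinearMap.map_sum`, `MultilinearMap.map_smul_univ`) into
`∑_c (∏ x^(a i)_(c i)) T (v_(a i, c i))`; for nonconstant `a` all terms vanish; for constant `a = j` the
nonconstant `c` vanish and the rest is `∑_b (x^j_b)^(d+1) T(v_(j,b),...) = 0`. So `T (w ∘ a) = 0` for all
`a`, and `ψ` vanishes on `U = span (range w)` (write `u = ∑ la_j w_j` and expand), `finrank U = t`.
-/

namespace Pool.Agent.H78.WL

universe u

theorem brC (φ : ℕ → ℕ) (d : ℕ) (hZ : ZZ.{u} φ d) (t : ℕ) :
    ∃ N : ℕ, ∀ (K : Type u) [Field K], DiagIso K (d + 1) φ →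
      ∀ (V : Type u) [AddCommGroup V] [Module K V] [FiniteDimensional K V],
        N ≤ Module.finrank K V → ∀ ψ : V → K, IsFrm K (d + 1) ψ →
        ∃ U : Submodule K V, t ≤ Module.finrank K U ∧ ∀ u ∈ U, ψ u = 0 := by
  classical
  obtain ⟨N, hN⟩ := brB φ d hZ (t * φ (d + 1))
  refine ⟨N, ?_⟩
  intro K _ hD V _ _ _ hV ψ hψ
  obtain ⟨T, hT⟩ := hψ
  obtain ⟨v, hv, hva⟩ := hN K (fun k h1 h2 => hD k h1 (h2.trans (Nat.le_succ d))) V hV T
  generalize hq : φ (d + 1) = q at *
  obtain ⟨v', hv'⟩ : ∃ v' : Fin t → Fin q → V, v' = fun j b => v (finProdFinEquiv (j, b)) :=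
    ⟨_, rfl⟩
  have hx : ∀ j : Fin t, ∃ x : Fin q → K, x ≠ 0 ∧
      ∑ b, T (fun _ => v' j b) * x b ^ (d + 1) = 0 := by
    intro j
    have h := hD (d + 1) (by omega) le_rfl
    rw [hq] at h
    exact h _
  choose x hx0 hx1 using hx
  obtain ⟨w, hw⟩ : ∃ w : Fin t → V, w = fun j => ∑ b, x j b • v' j b := ⟨_, rfl⟩
  have hTw : ∀ a : Fin (d + 1) → Fin t, T (fun i => w (a i)) = 0 := by
    intro a
    have h1 : T (fun i => w (a i)) = ∑ c : Fin (d + 1) → Fin q,
        T (fun i => x (a i) (c i) • v' (a i) (c i)) := by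
      rw [hw]
      exact MultilinearMap.map_sum T (fun i b => x (a i) b • v' (a i) b)
    rw [h1]
    have h2 : ∀ c : Fin (d + 1) → Fin q, T (fun i => x (a i) (c i) • v' (a i) (c i))
        = (∏ i, x (a i) (c i)) * T (fun i => v' (a i) (c i)) := by
      intro c
      rw [MultilinearMap.map_smul_univ, smul_eq_mul]
    rw [Finset.sum_congr rfl fun c _ => h2 c]
    have hz : ∀ c : Fin (d + 1) → Fin q, (∃ i j, (a i, c i) ≠ (a j, c j)) →
        T (fun i => v' (a i) (c i)) = 0 := by
      rintro c ⟨i, j, hij⟩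
      rw [hv']
      exact hva (fun i => finProdFinEquiv (a i, c i))
        ⟨i, j, fun h => hij (finProdFinEquiv.injective h)⟩
    by_cases ha : ∃ i j, a i ≠ a j
    · obtain ⟨i, j, hij⟩ := ha
      apply Finset.sum_eq_zero
      intro c _
      rw [hz c ⟨i, j, fun h => hij (congrArg Prod.fst h)⟩, mul_zero]
    · push Not at ha
      have h3 : ∑ c : Fin (d + 1) → Fin q, (∏ i, x (a i) (c i)) * T (fun i => v' (a i) (c i))
          = ∑ c ∈ Finset.univ.image (fun b : Fin q => (fun _ => b : Fin (d + 1) → Fin q)),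
            (∏ i, x (a i) (c i)) * T (fun i => v' (a i) (c i)) := by
        symm
        apply Finset.sum_subset (Finset.subset_univ _)
        intro c _ hc
        rw [hz c, mul_zero]
        by_contra hcon
        push Not at hcon
        apply hc
        rw [Finset.mem_image]
        exact ⟨c 0, Finset.mem_univ _, funext fun i => (congrArg Prod.snd (hcon 0 i))⟩
      rw [h3, Finset.sum_image (fun b _ b' _ h => congrFun h 0)]
      rw [← hx1 (a 0)]
      apply Finset.sum_congr rfl
      intro b _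
      have h4 : (fun i : Fin (d + 1) => v' (a i) b) = fun _ => v' (a 0) b :=
        funext fun i => by rw [ha i 0]
      have h5 : ∏ i : Fin (d + 1), x (a i) b = x (a 0) b ^ (d + 1) := by
        rw [Finset.prod_congr rfl fun i _ => by rw [ha i 0]]
        rw [Finset.prod_const, Finset.card_univ, Fintype.card_fin]
      rw [h4, h5, mul_comm]
  have hli : LinearIndependent K w := by
    rw [Fintype.linearIndependent_iff]
    intro g hg j
    have h1 : ∑ p : Fin (t * q), (g (finProdFinEquiv.symm p).1 *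
        x (finProdFinEquiv.symm p).1 (finProdFinEquiv.symm p).2) • v p = 0 := by
      rw [← Equiv.sum_comp finProdFinEquiv, Fintype.sum_prod_type, ← hg, hw]
      apply Finset.sum_congr rfl
      intro j _
      rw [Finset.smul_sum]
      apply Finset.sum_congr rfl
      intro b _
      rw [Equiv.symm_apply_apply, hv', smul_smul]
    have h2 := (Fintype.linearIndependent_iff.1 hv) _ h1
    obtain ⟨b, hb⟩ := Function.ne_iff.1 (hx0 j)
    have h3 := h2 (finProdFinEquiv (j, b))
    rw [Equiv.symm_apply_apply] at h3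
    exact (mul_eq_zero.1 h3).resolve_right hb
  refine ⟨Submodule.span K (Set.range w), ?_, ?_⟩
  · rw [finrank_span_eq_card hli, Fintype.card_fin]
  · intro u hu
    obtain ⟨c, rfl⟩ := (Submodule.mem_span_range_iff_exists_fun K).1 hu
    rw [hT]
    have h1 : T (fun _ : Fin (d + 1) => ∑ j, c j • w j) = ∑ a : Fin (d + 1) → Fin t,
        T (fun i => c (a i) • w (a i)) :=
      MultilinearMap.map_sum T (fun _ j => c j • w j)
    rw [h1]
    apply Finset.sum_eq_zero
    intro a _
    rw [MultilinearMap.map_smul_univ T (fun i => c (a i)) (fun i => w (a i)), hTw a, smul_zero]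

end Pool.Agent.H78.WL
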