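import Pool.Agent.H78.WL.BrC

/-!
# wl_mod BrD: the induction over the degree

`brD_aux`: induction on the number `k` of forms of degree exactly `d + 1`; the other forms have degree
`≤ d`. `k = 0`: `ZZ φ d` (`DiagIso K (d+1) φ` implies `DiagIso K d φ`). Step: pick one form `ψ j0` of degree
`d + 1`. By `brC` with `t' = ` the bound for `k` there is `U` with `finrank U ≥ t'` on which it
vanishes; the restrictions of the other forms (index set `{j // j ≠ j0}`) to `U` are forms
(`IsFrm.comp` with `U.subtype`), `k` of them of degree `d+1`; the induction hypothesis for the space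
`U` gives `U' ≤ U`; take `U'.map U.subtype`.

`ZZ_zero`: there is no degree `1 ≤ e ≤ 0`, so the index set is empty; `N = t`, `U = ⊤`.

`ZZ_all`: induction on `d`.
-/

namespace Pool.Agent.H78.WL

universe u

theorem DiagIso.mono {K : Type*} [Field K] {d d' : ℕ} {φ : ℕ → ℕ} (h : DiagIso K d φ)
    (hd : d' ≤ d) : DiagIso K d' φ :=
  fun k h1 h2 => h k h1 (h2.trans hd)

theorem brD_aux (φ : ℕ → ℕ) (d : ℕ) (hZ : ZZ.{u} φ d) (r k : ℕ) :
    ∀ t : ℕ, ∃ N : ℕ, ∀ (K : Type u) [Field K], DiagIso K (d + 1) φ →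
    ∀ (V : Type u) [AddCommGroup V] [Module K V] [FiniteDimensional K V],
      N ≤ Module.finrank K V → ∀ (ρ : Type) [Fintype ρ], Fintype.card ρ ≤ r →
      ∀ (ψ : ρ → V → K) (e : ρ → ℕ),
      (∀ j, 1 ≤ e j ∧ e j ≤ d + 1 ∧ IsFrm K (e j) (ψ j)) →
      (Finset.univ.filter fun j => e j = d + 1).card ≤ k →
      ∃ U : Submodule K V, t ≤ Module.finrank K U ∧ ∀ v ∈ U, ∀ j, ψ j v = 0 := by
  induction k with
  | zero =>
    intro t
    obtain ⟨N, hN⟩ := hZ r t
    refine ⟨N, ?_⟩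
    intro K _ hK V _ _ _ hV ρ _ hρ ψ e hψ hcard
    refine hN K (hK.mono (Nat.le_succ d)) V hV ρ hρ ψ e fun j => ?_
    obtain ⟨h1, h2, h3⟩ := hψ j
    refine ⟨h1, ?_, h3⟩
    have h4 : e j ≠ d + 1 := by
      intro h
      have h6 : j ∈ Finset.univ.filter fun j => e j = d + 1 :=
        Finset.mem_filter.2 ⟨Finset.mem_univ j, h⟩
      have h5 := Finset.card_pos.2 ⟨j, h6⟩
      omega
    omega
  | succ k ih =>
    intro t
    obtain ⟨N', hN'⟩ := ih t
    obtain ⟨N, hN⟩ := brC φ d hZ N'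
    refine ⟨max N N', ?_⟩
    intro K _ hK V _ _ _ hV ρ _ hρ ψ e hψ hcard
    by_cases hex : ∃ j0, e j0 = d + 1
    · classical
      obtain ⟨j0, hj0⟩ := hex
      have hf := (hψ j0).2.2
      rw [hj0] at hf
      obtain ⟨U0, hU1, hU2⟩ := hN K hK V ((le_max_left _ _).trans hV) (ψ j0) hf
      have hc1 : Fintype.card {j // j ≠ j0} ≤ r := (Fintype.card_subtype_le _).trans hρ
      have hc2 : (Finset.univ.filter fun j : {j // j ≠ j0} => e j.1 = d + 1).card ≤ k := by
        have h1 : ((Finset.univ.filter fun j : {j // j ≠ j0} => e j.1 = d + 1).map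
            (Function.Embedding.subtype _)) ⊆
            (Finset.univ.filter fun j => e j = d + 1).erase j0 := by
          intro j hj
          obtain ⟨j', hj', rfl⟩ := Finset.mem_map.1 hj
          exact Finset.mem_erase.2 ⟨j'.2, Finset.mem_filter.2
            ⟨Finset.mem_univ _, (Finset.mem_filter.1 hj').2⟩⟩
        have h2 := Finset.card_le_card h1
        have h3 : j0 ∈ Finset.univ.filter fun j => e j = d + 1 :=
          Finset.mem_filter.2 ⟨Finset.mem_univ _, hj0⟩
        rw [Finset.card_map, Finset.card_erase_of_mem h3] at h2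
        omega
      obtain ⟨U', h1, h2⟩ := hN' K hK U0 hU1 {j // j ≠ j0} hc1 (fun j v => ψ j.1 v.1)
        (fun j => e j.1) (fun j => ⟨(hψ j.1).1, (hψ j.1).2.1, (hψ j.1).2.2.comp U0.subtype⟩) hc2
      refine ⟨U'.map U0.subtype, ?_, ?_⟩
      · rw [Submodule.finrank_map_subtype_eq]
        exact h1
      · rintro _ ⟨w, hw, rfl⟩ j
        by_cases hj : j = j0
        · rw [hj]
          exact hU2 _ w.2
        · exact h2 w hw ⟨j, hj⟩
    · refine hN' K hK V ((le_max_right _ _).trans hV) ρ hρ ψ e hψ ?_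
      have h1 : (Finset.univ.filter fun j => e j = d + 1) = ∅ := by
        rw [Finset.filter_eq_empty_iff]
        intro j _ h
        exact hex ⟨j, h⟩
      rw [h1, Finset.card_empty]
      exact Nat.zero_le k

theorem ZZ_succ (φ : ℕ → ℕ) (d : ℕ) (hZ : ZZ.{u} φ d) : ZZ.{u} φ (d + 1) := by
  intro r t
  obtain ⟨N, hN⟩ := brD_aux φ d hZ r r t
  refine ⟨N, ?_⟩
  intro K _ hK V _ _ _ hV ρ _ hρ ψ e hψ
  exact hN K hK V hV ρ hρ ψ e hψ ((Finset.card_le_univ _).trans hρ)

theorem ZZ_zero (φ : ℕ → ℕ) : ZZ.{u} φ 0 := by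
  intro r t
  refine ⟨t, ?_⟩
  intro K _ hK V _ _ _ hV ρ _ hρ ψ e hψ
  refine ⟨⊤, by rw [finrank_top]; exact hV, ?_⟩
  intro v _ j
  obtain ⟨h1, h2, _⟩ := hψ j
  omega

theorem ZZ_all (φ : ℕ → ℕ) (d : ℕ) : ZZ.{u} φ d := by
  induction d with
  | zero => exact ZZ_zero φ
  | succ d ih => exact ZZ_succ φ d ih

end Pool.Agent.H78.WL
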