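import Pool.Agent.H78.WL.Defs

/-!
# wl_mod KF: facts about `kap`, `cnt`, `WW`

`kap_lt_one`: for odd `k` it is `0`; for `k = 2c`, `0 < c < e`: `binom(2e,2c) ≥ binom(e,c)²`
(`Nat.add_choose_eq`, Vandermonde, the term `(c,c)`) and `binom(e,c) ≥ 2`
(e.g. `Nat.choose` is `≥ e ≥ 2` or: `1 < e.choose c` for `0 < c < e`).

`WW_const`: for constant `a` with value `p0`, `cnt {p} a = 2e` for `p = p0` and `0` otherwise.

`WW_tendsto`: for every `a` the sequence `D ↦ WW e P D a` converges: if `a` is constant it is `1`; if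
not, let `p = a 0`; `0 < cnt {p} a < 2e`, so `kap e (cnt {p} a) < 1`, `kap e _ ^ D → 0`, the other
factors are in `[0,1]`. (`tendsto_pi_nhds`.)
-/

namespace Pool.Agent.H78.WL

open Filter Topology

theorem kap_zero (e : ℕ) : kap e 0 = 1 := by
  unfold kap
  simp

theorem kap_full (e : ℕ) : kap e (2 * e) = 1 := by
  unfold kap
  rw [if_pos (even_two_mul e), Nat.mul_div_cancel_left e two_pos, Nat.choose_self, Nat.choose_self]
  simp

theorem kap_nonneg (e k : ℕ) : 0 ≤ kap e k := by
  unfold kap
  split_ifs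
  · positivity
  · exact le_rfl

theorem kap_lt_one {e k : ℕ} (h0 : 0 < k) (h1 : k < 2 * e) : kap e k < 1 := by
  unfold kap
  split_ifs with hk
  · obtain ⟨c, rfl⟩ := hk
    have hc : (c + c) / 2 = c := by omega
    rw [hc]
    have h2 : e.choose c * e.choose c ≤ (2 * e).choose (c + c) := by
      rw [two_mul, Nat.add_choose_eq]
      exact Finset.single_le_sum (f := fun ij : ℕ × ℕ => e.choose ij.1 * e.choose ij.2)
        (fun _ _ => Nat.zero_le _) (a := (c, c)) (by simp)
    have h3 : 1 < e.choose c := by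
      obtain ⟨c', rfl⟩ : ∃ c', c = c' + 1 := ⟨c - 1, by omega⟩
      obtain ⟨e', rfl⟩ : ∃ e', e = e' + 1 := ⟨e - 1, by omega⟩
      rw [Nat.choose_succ_succ]
      have h4 : 0 < e'.choose c' := Nat.choose_pos (by omega)
      have h5 : 0 < e'.choose (c' + 1) := Nat.choose_pos (by omega)
      exact Nat.add_lt_add_of_le_of_lt h4 h5 |>.trans_le' (by omega)
    have h6 : e.choose c < (2 * e).choose (c + c) := by nlinarith
    have h7 : (0 : ℝ) < ((2 * e).choose (c + c) : ℕ) := by
      exact_mod_cast lt_of_le_of_lt (Nat.zero_le _) h6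
    rw [div_lt_one h7]
    exact_mod_cast h6
  · exact one_pos

theorem kap_le_one {e k : ℕ} (h1 : k ≤ 2 * e) : kap e k ≤ 1 := by
  rcases Nat.eq_zero_or_pos k with h0 | h0
  · rw [h0, kap_zero]
  · rcases Nat.lt_or_ge k (2 * e) with h2 | h2
    · exact (kap_lt_one h0 h2).le
    · rw [le_antisymm h1 h2, kap_full]

theorem cnt_le {d P : ℕ} (S : Finset (Fin P)) (a : Fin d → Fin P) : cnt S a ≤ d := by
  unfold cnt
  refine (Finset.card_filter_le _ _).trans ?_
  rw [Finset.card_univ, Fintype.card_fin]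

/-- `kap e (cnt S a) = 1` for constant `a` -/
theorem kap_cnt_const {e P : ℕ} (S : Finset (Fin P)) (p0 : Fin P) :
    kap e (cnt S (fun _ : Fin (2 * e) => p0)) = 1 := by
  unfold cnt
  by_cases h : p0 ∈ S
  · simp [h, kap_full]
  · simp [h, kap_zero]

theorem WW_const {e P D : ℕ} (p0 : Fin P) : WW e P D (fun _ => p0) = 1 := by
  unfold WW
  refine Finset.prod_eq_one fun p _ => ?_
  rw [kap_cnt_const, one_pow]

/-- the array of the form `∑ y_p^d` -/
noncomputable def W0 (d P : ℕ) (a : Fin d → Fin P) : ℝ :=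
  open Classical in if ∃ p, ∀ i, a i = p then 1 else 0

theorem WW_tendsto {e P : ℕ} (he : 1 ≤ e) :
    Tendsto (fun D => WW e P D) atTop (𝓝 (W0 (2 * e) P)) := by
  rw [tendsto_pi_nhds]
  intro a
  by_cases ha : ∃ p, ∀ i, a i = p
  · have h1 : W0 (2 * e) P a = 1 := by
      unfold W0
      rw [if_pos ha]
    obtain ⟨p, hp⟩ := ha
    have h2 : a = fun _ => p := funext hp
    rw [h1]
    have h3 : (fun D => WW e P D a) = fun _ => 1 := by
      funext D
      rw [h2, WW_const]
    rw [h3]
    exact tendsto_const_nhds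
  · have h1 : W0 (2 * e) P a = 0 := by
      unfold W0
      rw [if_neg ha]
    rw [h1]
    set i0 : Fin (2 * e) := ⟨0, by omega⟩ with hi0
    set k : ℕ := cnt {a i0} a with hk
    have hk0 : 0 < k := by
      rw [hk]
      unfold cnt
      exact Finset.card_pos.2 ⟨i0, by simp⟩
    have hk1 : k < 2 * e := by
      rw [hk]
      unfold cnt
      have h2 : ∃ i, a i ≠ a i0 := by
        by_contra h
        push Not at h
        exact ha ⟨a i0, h⟩
      obtain ⟨i, hi⟩ := h2
      have h3 : (Finset.univ.filter fun j => a j ∈ ({a i0} : Finset (Fin P))) ⊂ Finset.univ := by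
        rw [Finset.ssubset_iff_of_subset (Finset.subset_univ _)]
        exact ⟨i, Finset.mem_univ _, by simpa using hi⟩
      have h4 := Finset.card_lt_card h3
      rwa [Finset.card_univ, Fintype.card_fin] at h4
    refine tendsto_of_tendsto_of_tendsto_of_le_of_le tendsto_const_nhds
      (tendsto_pow_atTop_nhds_zero_of_lt_one (kap_nonneg e k) (kap_lt_one hk0 hk1))
      (fun D => ?_) (fun D => ?_)
    · exact Finset.prod_nonneg fun p _ => pow_nonneg (kap_nonneg _ _) _
    · change WW e P D a ≤ kap e k ^ D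
      unfold WW
      rw [← Finset.mul_prod_erase Finset.univ _ (Finset.mem_univ (a i0))]
      refine mul_le_of_le_one_right (pow_nonneg (kap_nonneg _ _) _) ?_
      refine Finset.prod_le_one (fun p _ => pow_nonneg (kap_nonneg _ _) _) fun p _ => ?_
      exact pow_le_one₀ (kap_nonneg _ _) (kap_le_one (cnt_le _ _))

end Pool.Agent.H78.WL
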