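import Pool.Agent.H78.WL.CS
import Pool.Agent.H78.WL.KF

/-!
# wl_mod CI: iteration of the tensor step

`cont_list`: induction on the list `l`, `cont_base` and `cont_step`; the value at the constant array
is a product of `kap_cnt_const`.

`cont_iter`: take `l = (List.finRange P).flatMap fun p => List.replicate D {p}`: its length is
`P D` and the product is `∏_p kap e (cnt {p} a) ^ D = WW e P D a`.
-/

namespace Pool.Agent.H78.WL

theorem cont_list {K : Type*} [Field K] [Algebra ℝ K] {i : ℕ} (hG : GrowI K i) {e P n : ℕ}
    (he : 1 ≤ e) (hn : e * (2 * e) ^ i < n) (p0 : Fin P) (l : List (Finset (Fin P))) :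
    Cont K e P (n ^ l.length) (fun a => (l.map fun S => kap e (cnt S a)).prod) := by
  induction l with
  | nil =>
    have h := cont_base (K := K) e P
    simpa using h
  | cons S l ih =>
    have hW : (l.map fun S => kap e (cnt S (fun _ : Fin (2 * e) => p0))).prod = 1 := by
      apply List.prod_eq_one
      intro x hx
      rw [List.mem_map] at hx
      obtain ⟨T, _, rfl⟩ := hx
      exact kap_cnt_const T p0
    have h := cont_step hG he hn
      (fun a => (l.map fun S => kap e (cnt S a)).prod) p0 hW ih S
    have h1 : n ^ (S :: l).length = n * n ^ l.length := by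
      rw [List.length_cons, pow_succ, mul_comm]
    have h2 : (fun a : Fin (2 * e) → Fin P => ((S :: l).map fun S => kap e (cnt S a)).prod) =
        fun a => (l.map fun S => kap e (cnt S a)).prod * kap e (cnt S a) := by
      funext a
      rw [List.map_cons, List.prod_cons, mul_comm]
    rw [h1, h2]
    exact h

theorem cont_iter {K : Type*} [Field K] [Algebra ℝ K] {i : ℕ} (hG : GrowI K i) {e P n : ℕ}
    (he : 1 ≤ e) (hn : e * (2 * e) ^ i < n) (hP : 1 ≤ P) (D : ℕ) :
    Cont K e P (n ^ (P * D)) (WW e P D) := by
  have h := cont_list hG he hn ⟨0, hP⟩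
    ((List.finRange P).flatMap fun p => List.replicate D ({p} : Finset (Fin P)))
  have h1 : ((List.finRange P).flatMap fun p =>
      List.replicate D ({p} : Finset (Fin P))).length = P * D := by
    simp [List.length_flatMap]
  have h2 : (fun a : Fin (2 * e) → Fin P => (((List.finRange P).flatMap fun p =>
      List.replicate D ({p} : Finset (Fin P))).map fun S => kap e (cnt S a)).prod) =
      WW e P D := by
    funext a
    unfold WW
    rw [List.map_flatMap, List.flatMap_def, List.prod_flatten, List.map_map]
    simp only [Function.comp_def, List.map_replicate, List.prod_replicate]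
    rw [← List.prod_ofFn]
    congr 1
    rw [List.ofFn_eq_map]
  rw [h1, h2] at h
  exact h

end Pool.Agent.H78.WL
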