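import Pool.Agent.H78.WL.DP

/-!
# wl_mod CS: the tensor step

`cont_base`: one variable `b0`, coefficient `s b0`. If it is zero, `x = 1` is a zero; otherwise
`c = s b0`, `L = 1`.

`cont_step`. Let `ι` have `n n'` elements, `E : ι ≃ Fin n × Fin n'`, write `s (b,j)`. Apply
`Cont K e P n' W` to `j ↦ s (b,j)` for every `b : Fin n`. If for some `b` it gives a zero, extend it
by zero. Otherwise `c_b ≠ 0`, `L_b j p` with
`∑_j s(b,j) ∏_i L_b j (a i) = c_b W a` for all `a`. Apply `diag_plane` to `(c_b)_b`.

Zero `v ≠ 0` of `∑ c_b v_b^(2e)`: the vector `v_b L_b j p0` is a zero of the form as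
`∑_j s(b,j) (L_b j p0)^(2e) = c_b W(p0,...,p0) = c_b`; it is nonzero: take `b` with `v_b ≠ 0`; not all
`L_b j p0` vanish as `c_b ≠ 0`, `e ≥ 1`.

Otherwise `x, y, c`: put `L (b,j) p = (if p ∈ S then x_b else y_b) L_b j p`. Then
`∏_i L (b,j) (a i) = x_b^k y_b^(2e-k) ∏_i L_b j (a i)`, `k = cnt S a ≤ 2e` (`Finset.prod_ite`,
`Finset.prod_const`, the complement has `2e - k` elements), so
`∑ s(b,j) ∏_i L (b,j) (a i) = W a ∑_b c_b x_b^k y_b^(2e-k) = c (W a kap e k)`.
-/

namespace Pool.Agent.H78.WL

theorem cont_base {K : Type*} [Field K] [Algebra ℝ K] (e P : ℕ) :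
    Cont K e P 1 (fun _ => 1) := by
  intro ι _ hι s
  obtain ⟨b0, hb0⟩ := Fintype.card_eq_one_iff.1 hι
  have huniq : ∀ g : ι → K, ∑ b, g b = g b0 := fun g => by
    rw [Fintype.sum_eq_single b0 (fun b hb => absurd (hb0 b) hb)]
  by_cases h : s b0 = 0
  · left
    refine ⟨fun _ => 1, fun h1 => one_ne_zero (congrFun h1 b0), ?_⟩
    rw [huniq, h, zero_mul]
  · right
    refine ⟨s b0, h, fun _ _ => 1, fun a => ?_⟩
    rw [huniq]
    simp

theorem cont_step {K : Type*} [Field K] [Algebra ℝ K] {i : ℕ} (hG : GrowI K i) {e P n n' : ℕ}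
    (he : 1 ≤ e) (hn : e * (2 * e) ^ i < n) (W : (Fin (2 * e) → Fin P) → ℝ) (p0 : Fin P)
    (hW : W (fun _ => p0) = 1) (hc : Cont K e P n' W) (S : Finset (Fin P)) :
    Cont K e P (n * n') (fun a => W a * kap e (cnt S a)) := by
  classical
  intro ι _ hι s
  have hcard : Fintype.card ι = Fintype.card (Fin n × Fin n') := by simp [hι]
  let E : (Fin n × Fin n') ≃ ι := (Fintype.equivOfCardEq hcard).symm
  have he2 : 2 * e ≠ 0 := by omega
  by_cases hz : ∃ b : Fin n, ∃ x : Fin n' → K, x ≠ 0 ∧ ∑ j, s (E (b, j)) * x j ^ (2 * e) = 0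
  · obtain ⟨b, x, hx, h0⟩ := hz
    left
    refine ⟨fun k => if (E.symm k).1 = b then x (E.symm k).2 else 0, ?_, ?_⟩
    · intro h
      apply hx
      funext j
      have := congrFun h (E (b, j))
      simpa using this
    · rw [← E.sum_comp, Fintype.sum_prod_type, Fintype.sum_eq_single b]
      · simpa using h0
      · intro b' hb'
        apply Finset.sum_eq_zero
        intro j _
        simp only [E.symm_apply_apply]
        rw [if_neg hb', zero_pow he2, mul_zero]
  · have hblock : ∀ b : Fin n, ∃ c : K, c ≠ 0 ∧ ∃ L : Fin n' → Fin P → K,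
        ∀ a : Fin (2 * e) → Fin P,
          ∑ j, s (E (b, j)) * ∏ i, L j (a i) = c * algebraMap ℝ K (W a) := by
      intro b
      rcases hc (Fin n') (by simp) (fun j => s (E (b, j))) with h | h
      · exact absurd ⟨b, h⟩ hz
      · exact h
    choose c hc0 L hL using hblock
    have hL0 : ∀ b, ∑ j, s (E (b, j)) * L b j p0 ^ (2 * e) = c b := by
      intro b
      have h2 := hL b (fun _ => p0)
      rw [hW, map_one, mul_one] at h2
      rw [← h2]
      refine Finset.sum_congr rfl fun j _ => ?_
      rw [Finset.prod_const, Finset.card_univ, Fintype.card_fin]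
    rcases diag_plane hG he hn c with ⟨v, hv, h0⟩ | ⟨x, y, c', hc', hxy⟩
    · left
      refine ⟨fun k => v (E.symm k).1 * L (E.symm k).1 (E.symm k).2 p0, ?_, ?_⟩
      · intro h
        obtain ⟨b, hb⟩ := Function.ne_iff.1 hv
        have h1 : ∀ j, L b j p0 = 0 := fun j => by
          have h3 := congrFun h (E (b, j))
          simp only [Equiv.symm_apply_apply, Pi.zero_apply] at h3
          exact (mul_eq_zero.1 h3).resolve_left hb
        apply hc0 b
        rw [← hL0]
        apply Finset.sum_eq_zero
        intro j _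
        rw [h1 j, zero_pow he2, mul_zero]
      · rw [← E.sum_comp, Fintype.sum_prod_type, ← h0]
        refine Finset.sum_congr rfl fun b _ => ?_
        rw [← hL0, Finset.sum_mul]
        refine Finset.sum_congr rfl fun j _ => ?_
        simp only [E.symm_apply_apply, mul_pow]
        ring
    · right
      refine ⟨c', hc', fun k p => (if p ∈ S then x (E.symm k).1 else y (E.symm k).1) *
        L (E.symm k).1 (E.symm k).2 p, fun a => ?_⟩
      rw [← E.sum_comp, Fintype.sum_prod_type]
      have hle : cnt S a ≤ 2 * e := by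
        have h1 := Finset.card_filter_le (Finset.univ : Finset (Fin (2 * e))) (fun i => a i ∈ S)
        rw [Finset.card_univ, Fintype.card_fin] at h1
        exact h1
      have hcompl : (Finset.univ.filter fun i => ¬ a i ∈ S).card = 2 * e - cnt S a := by
        have h1 := Finset.card_filter_add_card_filter_not
          (s := (Finset.univ : Finset (Fin (2 * e)))) (fun i => a i ∈ S)
        rw [Finset.card_univ, Fintype.card_fin] at h1
        unfold cnt
        omega
      have hprod : ∀ b j, ∏ i, ((if a i ∈ S then x b else y b) * L b j (a i)) =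
          x b ^ cnt S a * y b ^ (2 * e - cnt S a) * ∏ i, L b j (a i) := by
        intro b j
        rw [Finset.prod_mul_distrib, Finset.prod_ite, Finset.prod_const, Finset.prod_const,
          hcompl]
        rfl
      have hsum : ∀ b, ∑ j, s (E (b, j)) * ∏ i, ((if a i ∈ S then x (E.symm (E (b, j))).1 else
          y (E.symm (E (b, j))).1) * L (E.symm (E (b, j))).1 (E.symm (E (b, j))).2 (a i)) =
          algebraMap ℝ K (W a) * (c b * (x b ^ cnt S a * y b ^ (2 * e - cnt S a))) := by
        intro b
        simp only [Equiv.symm_apply_apply, hprod]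
        calc ∑ j, s (E (b, j)) * (x b ^ cnt S a * y b ^ (2 * e - cnt S a) * ∏ i, L b j (a i))
            = (x b ^ cnt S a * y b ^ (2 * e - cnt S a)) *
              ∑ j, s (E (b, j)) * ∏ i, L b j (a i) := by
              rw [Finset.mul_sum]
              refine Finset.sum_congr rfl fun j _ => ?_
              ring
          _ = _ := by
              rw [hL]
              ring
      rw [Finset.sum_congr rfl fun b _ => hsum b, ← Finset.mul_sum, hxy _ hle, map_mul]
      ring

end Pool.Agent.H78.WL
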