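import Pool.Agent.H78.WL.BrA

/-!
# wl_mod Conv: homogeneous polynomials are forms

Proof. `f = ∑_{u ∈ f.support} monomial u (coeff u f)` and every `u` in the support has degree `e`. For
a monomial of degree `e` there is an enumeration `a : Fin e → ι` with
`∏_j x j ^ u j = ∏_i x (a i)` for all `x` (e.g. `u.toMultiset` has `e` elements, take its list), and
`x ↦ ∏_i x (a i)` is the diagonal of
`(MultilinearMap.mkPiAlgebra K (Fin e) K).compLinearMap (fun i => LinearMap.proj (a i))`. Use
`IsFrm.smul`, `IsFrm.add`, `IsFrm.zero` (induction over the finite set `f.support`).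
-/

namespace Pool.Agent.H78.WL

open MvPolynomial

private theorem frm_mono {K : Type*} [Field K] {ι : Type*} [Fintype ι] (l : List ι) :
    IsFrm K l.length (fun x : ι → K => (l.map x).prod) := by
  refine ⟨(MultilinearMap.mkPiAlgebra K (Fin l.length) K).compLinearMap
    (fun i => LinearMap.proj (l.get i)), fun v => ?_⟩
  rw [MultilinearMap.compLinearMap_apply, MultilinearMap.mkPiAlgebra_apply]
  simp only [LinearMap.proj_apply]
  rw [← List.prod_ofFn]
  congr 1
  conv_lhs => rw [← List.ofFn_get l]
  rw [List.map_ofFn]
  rfl

private theorem frm_mono' {K : Type*} [Field K] {ι : Type*} [Fintype ι] {e : ℕ} (u : ι →₀ ℕ)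
    (hu : u.degree = e) : IsFrm K e (fun x : ι → K => ∏ j, x j ^ u j) := by
  classical
  have h1 : (Finsupp.toMultiset u).toList.length = e := by
    rw [Multiset.length_toList, Finsupp.card_toMultiset, ← hu, Finsupp.degree_eq_sum]
    rw [Finsupp.sum_fintype _ _ (fun _ => rfl)]
    rfl
  have h2 := frm_mono (K := K) (Finsupp.toMultiset u).toList
  rw [h1] at h2
  convert h2 using 2 with x
  rw [← Multiset.prod_coe, ← Multiset.map_coe, Multiset.coe_toList, Finsupp.toMultiset_map]
  rw [Finsupp.prod_toMultiset, Finsupp.prod_mapDomain_index (by simp) (by intro b m n; rw [pow_add])]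
  rw [Finsupp.prod_fintype _ _ (by simp)]

theorem isFrm_of_isHomogeneous {K : Type*} [Field K] {ι : Type*} [Fintype ι] {e : ℕ}
    {f : MvPolynomial ι K} (hf : f.IsHomogeneous e) :
    IsFrm K e (fun x : ι → K => eval x f) := by
  classical
  have key : ∀ s : Finset (ι →₀ ℕ), s ⊆ f.support →
      IsFrm K e (fun x : ι → K => ∑ u ∈ s, coeff u f * ∏ j, x j ^ u j) := by
    intro s
    induction s using Finset.induction_on with
    | empty => intro _; simpa using IsFrm.zero (K := K) (V := ι → K) e
    | insert a s ha ih =>
      intro hs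
      have h1 : coeff a f ≠ 0 := by
        have := hs (Finset.mem_insert_self a s)
        rwa [mem_support_iff] at this
      have h2 : a.degree = e := by
        have h3 := hf h1
        rw [Finsupp.degree_eq_weight_one]
        exact h3
      have h3 := IsFrm.add (IsFrm.smul (coeff a f) (frm_mono' (K := K) a h2))
        (ih (fun x hx => hs (Finset.mem_insert_of_mem hx)))
      convert h3 using 2 with x
      rw [Finset.sum_insert ha]
  have h := key f.support le_rfl
  convert h using 2 with x
  rw [eval_eq']

end Pool.Agent.H78.WL
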