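import Pool.Agent.H78.WL.CI

/-!
# wl_mod DE: diagonal forms of even degree

`real_transfer`: both sides are values of polynomials over `ℝ` in `N` variables; equality for all real
`x` gives equality of the polynomials (`MvPolynomial.funext`), so for all `x ∈ K^N` (`aeval`).

`diag_even`: `cont_iter` for `ι = Fin (n^(P*D))` gives a zero or `c ≠ 0`, `L`. Put
`v(x)_b = ∑_p L b p * ∑_j A p j x_j` (linear in `x ∈ K^N`, `A p j` real). Expanding
(`Finset.prod_univ_sum`)
`∑_b s_b v(x)_b^(2e) = ∑_a (∑_b s_b ∏_i L b (a i)) ∏_i (∑_j A (a i) j x_j)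
= c ∑_a W(a) ∏_i (∑_j A (a i) j x_j) = c (∑ x_j²)^e`. So `v(ξ)` is a zero. It is not `0`: otherwise
`v(ξ + x) = v(x)` and `(∑ (ξ_j+x_j)²)^e = (∑ x_j²)^e` for all `x`; take `j` with `ξ_j ≠ 0` and
`x = -2 ξ_j e_j`: `∑ (ξ+x)² = ∑ ξ² + 2 ξ_j (-2 ξ_j) + 4 ξ_j² = 0` and `∑ x² = 4 ξ_j²`, so `0 = (4 ξ_j²)^e`
(as `e ≥ 1`, `0^e = 0`), a contradiction.
-/

namespace Pool.Agent.H78.WL

open MvPolynomial

theorem real_transfer {K : Type*} [Field K] [Algebra ℝ K] {e P D N : ℕ} (A : Fin P → Fin N → ℝ)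
    (hreal : ∀ x : Fin N → ℝ, Psi (WW e P D) (fun p => ∑ j, A p j * x j) = (∑ j, x j ^ 2) ^ e)
    (x : Fin N → K) :
    ∑ a : Fin (2 * e) → Fin P, algebraMap ℝ K (WW e P D a) *
      ∏ i, ∑ j, algebraMap ℝ K (A (a i) j) * x j = (∑ j, x j ^ 2) ^ e := by
  have h1 : (∑ a : Fin (2 * e) → Fin P, C (WW e P D a) *
      ∏ i, ∑ j, C (A (a i) j) * X j : MvPolynomial (Fin N) ℝ) = (∑ j, X j ^ 2) ^ e := by
    apply MvPolynomial.funext
    intro z
    have h2 := hreal z
    unfold Psi at h2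
    simpa using h2
  have h3 := congrArg (aeval x) h1
  simpa using h3

private theorem expand_pow {K : Type*} [Field K] {ι : Type*} [Fintype ι] {d P : ℕ} (s : ι → K)
    (L : ι → Fin P → K) (y : Fin P → K) :
    ∑ b, s b * (∑ p, L b p * y p) ^ d
      = ∑ a : Fin d → Fin P, (∑ b, s b * ∏ i, L b (a i)) * ∏ i, y (a i) := by
  simp only [Fintype.sum_pow, Finset.prod_mul_distrib, Finset.mul_sum, Finset.sum_mul]
  rw [Finset.sum_comm]
  apply Finset.sum_congr rfl
  intro a _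
  apply Finset.sum_congr rfl
  intro b _
  ring

theorem diag_even {K : Type*} [Field K] [Algebra ℝ K] {i : ℕ} (hG : GrowI K i) {e P D N n : ℕ}
    (he : 1 ≤ e) (hn : e * (2 * e) ^ i < n) (hP : 1 ≤ P) (A : Fin P → Fin N → ℝ)
    (hreal : ∀ x : Fin N → ℝ, Psi (WW e P D) (fun p => ∑ j, A p j * x j) = (∑ j, x j ^ 2) ^ e)
    (ξ : Fin N → K) (hξ : ξ ≠ 0) (hξ0 : ∑ j, ξ j ^ 2 = 0) (s : Fin (n ^ (P * D)) → K) :
    ∃ x : Fin (n ^ (P * D)) → K, x ≠ 0 ∧ ∑ b, s b * x b ^ (2 * e) = 0 := by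
  classical
  rcases cont_iter hG he hn hP D (Fin (n ^ (P * D))) (Fintype.card_fin _) s with h | h
  · exact h
  obtain ⟨c, hc, L, hL⟩ := h
  have hchar : CharZero K := (RingHom.charZero_iff (algebraMap ℝ K).injective).mp inferInstance
  set y : (Fin N → K) → Fin P → K := fun x p => ∑ j, algebraMap ℝ K (A p j) * x j with hy
  have key : ∀ x : Fin N → K, ∑ b, s b * (∑ p, L b p * y x p) ^ (2 * e)
      = c * (∑ j, x j ^ 2) ^ e := by
    intro x
    rw [expand_pow, ← real_transfer A hreal x, Finset.mul_sum]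
    apply Finset.sum_congr rfl
    intro a _
    rw [hL a, mul_assoc]
  refine ⟨fun b => ∑ p, L b p * y ξ p, ?_, ?_⟩
  · intro h0
    obtain ⟨j, hj⟩ : ∃ j, ξ j ≠ 0 := by
      by_contra hcon
      push Not at hcon
      exact hξ (funext hcon)
    have hadd : ∀ x : Fin N → K, ∀ p, y (ξ + x) p = y ξ p + y x p := by
      intro x p
      simp only [hy, Pi.add_apply, mul_add, Finset.sum_add_distrib]
    have h1 : ∀ x : Fin N → K, (∑ j, (ξ + x) j ^ 2) ^ e = (∑ j, x j ^ 2) ^ e := by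
      intro x
      apply mul_left_cancel₀ hc
      rw [← key, ← key]
      apply Finset.sum_congr rfl
      intro b _
      have h2 := congrFun h0 b
      simp only [Pi.zero_apply] at h2
      simp only [hadd, mul_add, Finset.sum_add_distrib, h2, zero_add]
    have h3 := h1 (Pi.single j (-2 * ξ j))
    have h4 : ∑ i, (Pi.single j (-2 * ξ j) : Fin N → K) i ^ 2 = 4 * ξ j ^ 2 := by
      rw [Finset.sum_eq_single j]
      · rw [Pi.single_eq_same]; ring
      · intro i _ hi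
        rw [Pi.single_eq_of_ne hi]; ring
      · intro h; exact absurd (Finset.mem_univ _) h
    have h5 : ∑ i, ξ i * (Pi.single j (-2 * ξ j) : Fin N → K) i = -2 * ξ j ^ 2 := by
      rw [Finset.sum_eq_single j]
      · rw [Pi.single_eq_same]; ring
      · intro i _ hi
        rw [Pi.single_eq_of_ne hi]; ring
      · intro h; exact absurd (Finset.mem_univ _) h
    have h6 : ∑ i, (ξ + Pi.single j (-2 * ξ j) : Fin N → K) i ^ 2 = 0 := by
      have h7 : ∀ i, (ξ + Pi.single j (-2 * ξ j) : Fin N → K) i ^ 2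
          = ξ i ^ 2 + 2 * (ξ i * (Pi.single j (-2 * ξ j) : Fin N → K) i)
            + (Pi.single j (-2 * ξ j) : Fin N → K) i ^ 2 := by
        intro i
        rw [Pi.add_apply]; ring
      simp only [h7, Finset.sum_add_distrib, ← Finset.mul_sum]
      rw [h4, h5, hξ0]
      ring
    rw [h6, h4, zero_pow (by omega)] at h3
    have h8 : (4 * ξ j ^ 2) ^ e ≠ 0 := pow_ne_zero _ (mul_ne_zero (by norm_num) (pow_ne_zero _ hj))
    exact h8 h3.symm
  · rw [key, hξ0, zero_pow (by omega), mul_zero]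

end Pool.Agent.H78.WL
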