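import Pool.Agent.H78.WL.Defs

/-!
# wl_mod KI: coefficients of `(s²+t²)^e`

`kap_coeff`. By the binomial theorem `∑_b s_b (σ x_b + τ y_b)^(2e) = ∑_k binom(2e,k)
(∑_b s_b x_b^k y_b^(2e-k)) σ^k τ^(2e-k)` and `(σ²+τ²)^e = ∑_j binom(e,j) σ^(2j) τ^(2(e-j))`.
Put `τ = 1`: equality of two polynomial functions of `σ ∈ K`, `K` is infinite (characteristic zero),
so the polynomials (`Polynomial.funext`) and their coefficients of `X^k` are equal:
`binom(2e,k) ∑_b s_b x_b^k y_b^(2e-k) = c binom(e,k/2)` if `k` is even, `= 0` if `k` is odd. Divide by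
`binom(2e,k) ≠ 0`.
-/

namespace Pool.Agent.H78.WL

open Polynomial in
private theorem coeff_lin {K : Type*} [Field K] (x y : K) (n k : ℕ) (hk : k ≤ n) :
    ((X * C x + C y : K[X]) ^ n).coeff k = x ^ k * y ^ (n - k) * (n.choose k : K) := by
  rw [add_pow, finsetSum_coeff, Finset.sum_eq_single k]
  · have h1 : ((X * C x : K[X]) ^ k * C y ^ (n - k) * (n.choose k : K[X]))
        = X ^ k * C (x ^ k * y ^ (n - k) * (n.choose k : K)) := by
      rw [mul_pow, C_mul, C_mul, C_pow, C_pow, C_eq_natCast]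
      ring
    rw [h1, coeff_X_pow_mul', if_pos le_rfl, Nat.sub_self, coeff_C_zero]
  · intro m _ hm
    have h1 : ((X * C x : K[X]) ^ m * C y ^ (n - m) * (n.choose m : K[X]))
        = X ^ m * C (x ^ m * y ^ (n - m) * (n.choose m : K)) := by
      rw [mul_pow, C_mul, C_mul, C_pow, C_pow, C_eq_natCast]
      ring
    rw [h1, coeff_X_pow_mul']
    split_ifs with h2
    · rw [coeff_C, if_neg]
      omega
    · rfl
  · intro h
    exact absurd (Finset.mem_range.mpr (by omega)) h

open Polynomial in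
private theorem coeff_sq {K : Type*} [Field K] (e k : ℕ) :
    ((X ^ 2 + 1 : K[X]) ^ e).coeff k = if Even k then (e.choose (k / 2) : K) else 0 := by
  have h1 : ((X ^ 2 + 1 : K[X]) ^ e) = expand K 2 ((X + 1) ^ e) := by
    simp [map_pow, map_add]
  rw [h1, coeff_expand (by norm_num), coeff_X_add_one_pow]
  simp only [even_iff_two_dvd]

theorem kap_coeff {K : Type*} [Field K] [Algebra ℝ K] {e n : ℕ} (s x y : Fin n → K) (c : K)
    (h : ∀ σ τ : K, ∑ b, s b * (σ * x b + τ * y b) ^ (2 * e) = c * (σ ^ 2 + τ ^ 2) ^ e) :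
    ∀ k, k ≤ 2 * e →
      ∑ b, s b * (x b ^ k * y b ^ (2 * e - k)) = c * algebraMap ℝ K (kap e k) := by
  intro k hk
  have : CharZero K := (RingHom.charZero_iff (algebraMap ℝ K).injective).mp inferInstance
  have hpoly : (∑ b, Polynomial.C (s b) *
      (Polynomial.X * Polynomial.C (x b) + Polynomial.C (y b)) ^ (2 * e) : Polynomial K)
      = Polynomial.C c * (Polynomial.X ^ 2 + 1) ^ e := by
    apply Polynomial.funext
    intro r
    have h1 := h r 1
    rw [Polynomial.eval_finsetSum]
    simp only [mul_comm r (_ : K)] at h1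
    simpa [mul_comm r] using h1
  have hc := congrArg (fun p => Polynomial.coeff p k) hpoly
  simp only [Polynomial.finsetSum_coeff, Polynomial.coeff_C_mul] at hc
  rw [coeff_sq] at hc
  simp only [coeff_lin _ _ _ _ hk] at hc
  have hne : ((2 * e).choose k : K) ≠ 0 := by
    exact_mod_cast (Nat.choose_pos hk).ne'
  apply mul_right_cancel₀ hne
  rw [Finset.sum_mul]
  have h2 : ∑ b, s b * (x b ^ k * y b ^ (2 * e - k)) * ((2 * e).choose k : K)
      = ∑ b, s b * (x b ^ k * y b ^ (2 * e - k) * ((2 * e).choose k : K)) := by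
    apply Finset.sum_congr rfl
    intro b _
    ring
  rw [h2, hc, mul_assoc]
  congr 1
  unfold kap
  split_ifs with h3
  · rw [map_div₀, map_natCast, map_natCast, div_mul_cancel₀ _ hne]
  · rw [map_zero, zero_mul]

end Pool.Agent.H78.WL
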