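import Pool.Agent.H78.WL.BUKI
import Pool.Agent.H78.WL.KI
import Pool.Agent.H78.LR.Dep

/-!
# wl_mod DP: planes for one diagonal form of even degree

Proof of `diag_plane`. Put `f = ∑_b C (s b) * X (0,b)^(2e)`, a polynomial in the variables
`Fin 1 × Fin n`, homogeneous of degree `2e`. Apply `planeI` with `m = 1`, `d = 2e` and
`E = (Finset.range e).image fun β => single (inl 0) (2e-β) + single (inr 0) β` (the exponents
`(α, β)`, `α + β = 2e`, `α > β`; `E.card ≤ e`). It gives `z 0 ≠ 0` and `P` homogeneous of degree `e`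
in one variable, so `P = C c₀ * X 0 ^ e`, with (`PlaneRel`)
`∑_b s_b (2 (σ x_b + τ y_b))^(2e) = c₀ (σ²+τ²)^e`, `x = (z 0).re`, `y = (z 0).im`, `x ≠ 0` or
`y ≠ 0`. If `c₀ = 0`: `(σ,τ) = (1,0)` or `(0,1)` gives a nontrivial zero (`2^(2e) ≠ 0`).
Otherwise `c = c₀ / 2^(2e)` and `kap_coeff`.
(`Dep` is not needed.)
-/

namespace Pool.Agent.H78.WL

open MvPolynomial Pool.Agent.H78.LR

private theorem DP_eval {K σ : Type*} [Field K] {d : ℕ} {f : MvPolynomial σ K}
    (hf : f.IsHomogeneous d) (a : K) :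
    eval (fun _ => a) f = a ^ d * eval (fun _ => (1 : K)) f := by
  rw [eval_eq, eval_eq, Finset.mul_sum]
  refine Finset.sum_congr rfl fun u hu => ?_
  have h1 : u.degree = d := by
    by_contra hcon
    exact (mem_support_iff.1 hu) (hf.coeff_eq_zero hcon)
  have h2 : ∏ i ∈ u.support, a ^ u i = a ^ d := by
    rw [Finset.prod_pow_eq_pow_sum, ← Finsupp.degree_apply, h1]
  rw [h2]
  simp only [one_pow, Finset.prod_const_one, mul_one]
  ring

private theorem DP_ext (u : Fin 1 ⊕ Fin 1 →₀ ℕ) (α β : ℕ) (h1 : u (Sum.inl 0) = α)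
    (h2 : u (Sum.inr 0) = β) :
    u = Finsupp.single (Sum.inl 0) α + Finsupp.single (Sum.inr 0) β := by
  ext x
  rcases x with x | x
  · rw [Subsingleton.elim x 0, h1]
    simp
  · rw [Subsingleton.elim x 0, h2]
    simp

private theorem DP_deg (u : Fin 1 ⊕ Fin 1 →₀ ℕ) :
    u.degree = u (Sum.inl 0) + u (Sum.inr 0) := by
  rw [Finsupp.degree_eq_sum, Fintype.sum_sum_type]
  simp

theorem diag_plane {K : Type*} [Field K] [Algebra ℝ K] {i : ℕ} (hG : GrowI K i) {e n : ℕ}
    (he : 1 ≤ e) (hn : e * (2 * e) ^ i < n) (s : Fin n → K) :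
    (∃ x : Fin n → K, x ≠ 0 ∧ ∑ b, s b * x b ^ (2 * e) = 0) ∨
    ∃ (x y : Fin n → K) (c : K), c ≠ 0 ∧ ∀ k, k ≤ 2 * e →
      ∑ b, s b * (x b ^ k * y b ^ (2 * e - k)) = c * algebraMap ℝ K (kap e k) := by
  classical
  have hchar : CharZero K := by
    have := (algebraMap ℝ K).injective
    exact charZero_of_injective_algebraMap this
  have h2 : (2 : K) ≠ 0 := two_ne_zero
  let f : MvPolynomial (Fin 1 × Fin n) K := ∑ b : Fin n, C (s b) * X ((0 : Fin 1), b) ^ (2 * e)
  have hf : f.IsHomogeneous (2 * e) :=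
    IsHomogeneous.sum _ _ _ fun b _ => isHomogeneous_C_mul_X_pow _ _ _
  let E : Finset (Fin 1 ⊕ Fin 1 →₀ ℕ) := (Finset.range e).image fun β =>
    Finsupp.single (Sum.inl 0) (2 * e - β) + Finsupp.single (Sum.inr 0) β
  have hEin : ∀ (u : Fin 1 ⊕ Fin 1 →₀ ℕ), u (Sum.inl 0) + u (Sum.inr 0) = 2 * e →
      u (Sum.inr 0) < u (Sum.inl 0) → u ∈ E := by
    intro u hu hlt
    refine Finset.mem_image.mpr ⟨u (Sum.inr 0), Finset.mem_range.mpr (by omega), ?_⟩
    exact (DP_ext u _ _ (by omega) rfl).symm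
  have hE1 : ∀ u ∈ E, ∃ b, u (Sum.inl b) ≠ u (Sum.inr b) := by
    intro u hu
    obtain ⟨β, hβ, rfl⟩ := Finset.mem_image.mp hu
    rw [Finset.mem_range] at hβ
    refine ⟨0, ?_⟩
    simp
    omega
  have hE2 : ∀ u : Fin 1 ⊕ Fin 1 →₀ ℕ, u.degree = 2 * e →
      (∃ b, u (Sum.inl b) ≠ u (Sum.inr b)) → u ∈ E ∨ u.mapDomain Sum.swap ∈ E := by
    rintro u hu ⟨b, hb⟩
    rw [Subsingleton.elim b 0] at hb
    rw [DP_deg] at hu
    rcases lt_or_gt_of_ne hb with h | h
    · right
      have e1 : u.mapDomain Sum.swap (Sum.inl (0 : Fin 1)) = u (Sum.inr 0) :=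
        Finsupp.mapDomain_apply Sum.swap_leftInverse.injective u (Sum.inr 0)
      have e2 : u.mapDomain Sum.swap (Sum.inr (0 : Fin 1)) = u (Sum.inl 0) :=
        Finsupp.mapDomain_apply Sum.swap_leftInverse.injective u (Sum.inl 0)
      apply hEin
      · rw [e1, e2]; omega
      · rw [e1, e2]; exact h
    · left
      exact hEin u hu h
  have hcard : E.card ≤ e := by
    refine Finset.card_image_le.trans ?_
    rw [Finset.card_range]
  obtain ⟨z, hz, P, hP⟩ := planeI hG (m := 1) (n := n) (d := 2 * e) (by omega) f hf E hE1 hE2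
    (lt_of_le_of_lt (Nat.mul_le_mul_right _ hcard) hn)
  have hPh := hP.2.2 e rfl
  set x : Fin n → K := fun b => (z 0 b).re with hx
  set y : Fin n → K := fun b => (z 0 b).im with hy
  set c₀ : K := eval (fun _ => (1 : K)) P with hc₀
  have hrel : ∀ σ τ : K, 2 ^ (2 * e) * ∑ b, s b * (σ * x b + τ * y b) ^ (2 * e) =
      c₀ * (σ ^ 2 + τ ^ 2) ^ e := by
    intro σ τ
    have h1 := hP.1 (fun _ => σ) (fun _ => τ)
    rw [DP_eval hPh] at h1
    have h3 : eval (fun p : Fin 1 × Fin n => 2 * (σ * (z p.1 p.2).re + τ * (z p.1 p.2).im)) f =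
        2 ^ (2 * e) * ∑ b, s b * (σ * x b + τ * y b) ^ (2 * e) := by
      simp only [f, map_sum, map_mul, map_pow, eval_C, eval_X]
      rw [Finset.mul_sum]
      refine Finset.sum_congr rfl fun b _ => ?_
      rw [mul_pow]
      ring
    rw [← h3, h1]
    ring
  have h2e : (2 : K) ^ (2 * e) ≠ 0 := pow_ne_zero _ h2
  by_cases hc : c₀ = 0
  · left
    by_cases hx0 : x = 0
    · refine ⟨y, ?_, ?_⟩
      · intro hy0
        apply hz 0
        funext b
        have h5 : (z 0 b).re = 0 := congrFun hx0 b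
        have h6 : (z 0 b).im = 0 := congrFun hy0 b
        exact QuadraticAlgebra.ext h5 h6
      · have h3 := hrel 0 1
        rw [hc, zero_mul] at h3
        have h4 := (mul_eq_zero.mp h3).resolve_left h2e
        rw [← h4]
        exact Finset.sum_congr rfl fun b _ => by rw [zero_mul, zero_add, one_mul]
    · refine ⟨x, hx0, ?_⟩
      have h3 := hrel 1 0
      rw [hc, zero_mul] at h3
      have h4 := (mul_eq_zero.mp h3).resolve_left h2e
      rw [← h4]
      exact Finset.sum_congr rfl fun b _ => by rw [zero_mul, add_zero, one_mul]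
  · right
    refine ⟨x, y, c₀ / 2 ^ (2 * e), div_ne_zero hc h2e, ?_⟩
    apply kap_coeff s x y
    intro σ τ
    rw [div_mul_eq_mul_div, eq_div_iff h2e, ← hrel σ τ]
    ring

end Pool.Agent.H78.WL
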