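import Pool.Agent.H78.WL.Defs

/-!
# wl_mod GA: the filtration by the degree in each variable

Compare `Pool/Agent/H78/LR/GrA.lean` (one variable), same proofs.

`β_1, ..., β_e ∈ K` linearly independent over `ℝ[t_1, ..., t_i]`. `Wi t β s` = combinations
`∑_j p_j(t) β_j` with `p_j ∈ restrictDegree (Fin i) ℝ s` (degree at most `s` in every variable,
`MvPolynomial.mem_restrictDegree`: every exponent of every monomial of the support is `≤ s`).

`Wi_finrank`: the parametrisation `(Fin e → restrictDegree (Fin i) ℝ s) → K` is injective by `hli`;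
`finrank (restrictDegree (Fin i) ℝ s) = (s+1)^i`: `restrictDegree σ R m` is
`restrictSupport R {n | ∀ k, n k ≤ m}`, its basis is indexed by the monomials, i.e. by
`Fin i → Fin (s + 1)` (use `Finsupp.equivFunOnFinite`, `Finsupp.supportedEquivFinsupp` or an
explicit linear equivalence with `(Fin i → Fin (s + 1)) → ℝ`).
`Wi_mul`: expand the product, the polynomial `p_i p'_j (q_ij)_k` has degree at most `s + s' + h` in
each variable if `h` bounds all degrees of `(q_ij)_k`.
-/

namespace Pool.Agent.H78.WL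

open MvPolynomial

variable {K : Type*} [Field K] [Algebra ℝ K]

/-- combinations `∑_j p_j(t) β_j` with `p_j` of degree `≤ s` in each variable -/
def Wi {i : ℕ} (t : Fin i → K) {e : ℕ} (β : Fin e → K) (s : ℕ) : Submodule ℝ K where
  carrier := {x | ∃ p : Fin e → MvPolynomial (Fin i) ℝ,
    (∀ j, p j ∈ restrictDegree (Fin i) ℝ s) ∧ x = ∑ j, aeval t (p j) * β j}
  zero_mem' := ⟨0, fun _ => Submodule.zero_mem _, by simp⟩
  add_mem' := by
    rintro _ _ ⟨p, hp, rfl⟩ ⟨p', hp', rfl⟩
    exact ⟨p + p', fun j => Submodule.add_mem _ (hp j) (hp' j), by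
      simp [add_mul, Finset.sum_add_distrib]⟩
  smul_mem' := by
    rintro c _ ⟨p, hp, rfl⟩
    exact ⟨c • p, fun j => Submodule.smul_mem _ c (hp j), by
      simp [Finset.smul_sum]⟩

private theorem GA_mul {i s s' : ℕ} {p p' : MvPolynomial (Fin i) ℝ}
    (hp : p ∈ restrictDegree (Fin i) ℝ s) (hp' : p' ∈ restrictDegree (Fin i) ℝ s') :
    p * p' ∈ restrictDegree (Fin i) ℝ (s + s') := by
  classical
  rw [mem_restrictDegree] at hp hp' ⊢
  intro m hm k
  obtain ⟨a, ha, b, hb, rfl⟩ := Finset.mem_add.1 (MvPolynomial.support_mul p p' hm)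
  rw [Finsupp.add_apply]
  exact add_le_add (hp a ha k) (hp' b hb k)

private theorem GA_mono {i s s' : ℕ} (h : s ≤ s') {p : MvPolynomial (Fin i) ℝ}
    (hp : p ∈ restrictDegree (Fin i) ℝ s) : p ∈ restrictDegree (Fin i) ℝ s' := by
  rw [mem_restrictDegree] at hp ⊢
  exact fun m hm k => (hp m hm k).trans h

private theorem GA_total {i s : ℕ} {p : MvPolynomial (Fin i) ℝ} (h : p.totalDegree ≤ s) :
    p ∈ restrictDegree (Fin i) ℝ s :=
  restrictTotalDegree_le_restrictDegree (Fin i) ℝ s ((mem_restrictTotalDegree (Fin i) s p).2 h)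

theorem Wi_mono {i : ℕ} (t : Fin i → K) {e : ℕ} (β : Fin e → K) {s s' : ℕ} (h : s ≤ s') :
    Wi t β s ≤ Wi t β s' := by
  rintro x ⟨p, hp, rfl⟩
  exact ⟨p, fun j => GA_mono h (hp j), rfl⟩

/-- every `ℝ[t]`-combination is in some `Wi` -/
theorem exists_mem_Wi {i : ℕ} (t : Fin i → K) {e : ℕ} (β : Fin e → K)
    (p : Fin e → MvPolynomial (Fin i) ℝ) : ∃ s, ∑ j, aeval t (p j) * β j ∈ Wi t β s := by
  refine ⟨Finset.univ.sup fun j => (p j).totalDegree, p, fun j => ?_, rfl⟩
  exact GA_total (Finset.le_sup (f := fun j => (p j).totalDegree) (Finset.mem_univ j))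

theorem finrank_restrictDegree (i s : ℕ) :
    FiniteDimensional ℝ (restrictDegree (Fin i) ℝ s) ∧
      Module.finrank ℝ (restrictDegree (Fin i) ℝ s) = (s + 1) ^ i := by
  refine ⟨inferInstance, ?_⟩
  have e : {n : Fin i →₀ ℕ | ∀ k, n k ≤ s} ≃ (Fin i → Fin (s + 1)) :=
    { toFun := fun n k => ⟨n.1 k, Nat.lt_succ_of_le (n.2 k)⟩
      invFun := fun f => ⟨Finsupp.equivFunOnFinite.symm fun k => (f k : ℕ), fun k => by
        simp only [Finsupp.equivFunOnFinite_symm_apply_apply]
        exact Nat.le_of_lt_succ (f k).2⟩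
      left_inv := by
        rintro ⟨n, hn⟩
        apply Subtype.ext
        ext k
        simp
      right_inv := by
        intro f
        funext k
        apply Fin.ext
        simp }
  have b := (basisRestrictSupport (σ := Fin i) ℝ {n : Fin i →₀ ℕ | ∀ k, n k ≤ s}).reindex e
  have h := Module.finrank_eq_card_basis b
  rw [Fintype.card_fun, Fintype.card_fin, Fintype.card_fin] at h
  exact h

theorem Wi_finrank {i : ℕ} (t : Fin i → K) {e : ℕ} (β : Fin e → K)
    (hli : ∀ p : Fin e → MvPolynomial (Fin i) ℝ, ∑ j, aeval t (p j) * β j = 0 → p = 0) (s : ℕ) :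
    FiniteDimensional ℝ (Wi t β s) ∧ Module.finrank ℝ (Wi t β s) = e * (s + 1) ^ i := by
  obtain ⟨hfd, hfr⟩ := finrank_restrictDegree i s
  let φ : (Fin e → restrictDegree (Fin i) ℝ s) →ₗ[ℝ] K :=
    { toFun := fun p => ∑ j, aeval t (p j : MvPolynomial (Fin i) ℝ) * β j
      map_add' := by
        intro p q
        simp [add_mul, Finset.sum_add_distrib]
      map_smul' := by
        intro c p
        simp [Finset.smul_sum] }
  have hinj : Function.Injective φ := by
    rw [injective_iff_map_eq_zero]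
    intro p hp
    have h1 := hli (fun j => (p j : MvPolynomial (Fin i) ℝ)) hp
    funext j
    apply Subtype.ext
    exact congrFun h1 j
  have hrange : LinearMap.range φ = Wi t β s := by
    ext x
    constructor
    · rintro ⟨p, rfl⟩
      exact ⟨fun j => (p j : MvPolynomial (Fin i) ℝ), fun j => (p j).2, rfl⟩
    · rintro ⟨p, hp, rfl⟩
      exact ⟨fun j => ⟨p j, hp j⟩, rfl⟩
  rw [← hrange]
  refine ⟨inferInstance, ?_⟩
  rw [LinearMap.finrank_range_of_inj hinj, Module.finrank_pi_fintype]
  simp [hfr]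

theorem Wi_mul {i : ℕ} (t : Fin i → K) {e : ℕ} (β : Fin e → K)
    (hmul : ∀ j k, ∃ p : Fin e → MvPolynomial (Fin i) ℝ, β j * β k = ∑ l, aeval t (p l) * β l) :
    ∃ h : ℕ, ∀ s s', Wi t β s * Wi t β s' ≤ Wi t β (s + s' + h) := by
  choose q hq using hmul
  set h := Finset.univ.sup fun i => Finset.univ.sup fun j => Finset.univ.sup fun k =>
    (q i j k).totalDegree with hh
  refine ⟨h, fun s s' => ?_⟩
  have hqd : ∀ i j k, (q i j k).totalDegree ≤ h := by
    intro i j k
    have h1 : (q i j k).totalDegree ≤ Finset.univ.sup fun k => (q i j k).totalDegree :=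
      Finset.le_sup (f := fun k => (q i j k).totalDegree) (Finset.mem_univ k)
    have h2 : (Finset.univ.sup fun k => (q i j k).totalDegree) ≤
        Finset.univ.sup fun j => Finset.univ.sup fun k => (q i j k).totalDegree :=
      Finset.le_sup (f := fun j => Finset.univ.sup fun k => (q i j k).totalDegree)
        (Finset.mem_univ j)
    have h3 : (Finset.univ.sup fun j => Finset.univ.sup fun k => (q i j k).totalDegree) ≤
        Finset.univ.sup fun i => Finset.univ.sup fun j => Finset.univ.sup fun k =>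
          (q i j k).totalDegree :=
      Finset.le_sup (f := fun i => Finset.univ.sup fun j => Finset.univ.sup fun k =>
          (q i j k).totalDegree) (Finset.mem_univ i)
    exact h1.trans (h2.trans h3)
  rw [Submodule.mul_le]
  rintro _ ⟨p, hp, rfl⟩ _ ⟨p', hp', rfl⟩
  refine ⟨fun k => ∑ i, ∑ j, p i * p' j * q i j k, fun k => ?_, ?_⟩
  · refine Submodule.sum_mem _ fun i _ => Submodule.sum_mem _ fun j _ => ?_
    exact GA_mul (GA_mul (hp i) (hp' j)) (GA_total (hqd i j k))
  · have : ∀ i j, aeval t (p i) * β i * (aeval t (p' j) * β j) =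
        ∑ k, aeval t (p i * p' j * q i j k) * β k := by
      intro i j
      calc aeval t (p i) * β i * (aeval t (p' j) * β j)
          = aeval t (p i) * aeval t (p' j) * (β i * β j) := by ring
        _ = _ := by
          rw [hq i j, Finset.mul_sum]
          refine Finset.sum_congr rfl fun k _ => ?_
          rw [map_mul, map_mul]
          ring
    rw [Finset.sum_mul_sum]
    simp_rw [this]
    simp_rw [map_sum, Finset.sum_mul]
    exact (Finset.sum_congr rfl fun i _ => Finset.sum_comm).trans Finset.sum_comm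

end Pool.Agent.H78.WL
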