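import Pool.Agent.H78.WL.GA

/-!
# wl_mod GB: the growth estimate for an order in several variables

Compare `Pool/Agent/H78/LR/GrB.lean` (one variable).

Proof. Take `h` from `Wi_mul`, `s0` with `Q₁ ∈ Wi s0`, `M` with `Q C ⊆ Wi M` (`exists_mem_Wi`,
`Wi_mono`, finiteness of `C`). For `s ≥ s0` put `Ω = {x | Q₁ x ∈ Wi s}`
(`(Wi t β s).comap (LinearMap.mulLeft ℝ Q₁)`; multiplication by `Q₁` is a linear equivalence of `K`,
so `finrank Ω = finrank (Wi s) = e (s+1)^i`). `1 ∈ Ω`. By induction on `k ≥ 1`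
`x ∈ Ω ^ k → Q₁ ^ k x ∈ Wi (k s + k h)`. So multiplication by `Q Q₁ ^ D` maps
`span C * Ω ^ D` injectively into `Wi (M + (D s + D h) + h)`, hence its finrank is at most
`e (D s + c0)^i`, `c0 = M + D h + h + 1`.

It remains to find `s ≥ s0` with `a e (D s + c0)^i < b e (s+1)^i`. `0 < e` because `Q₁ ≠ 0` is a
combination of the `β_j`. As `a D^i < b` and
`(D s + c0)^i / (s+1)^i → D^i` for `s → ∞`, the inequality holds for large `s`. (Elementary:
`D s + c0 ≤ D (s+1) + c0`; put `u = s + 1`: `(D + c0/u)^i → D^i`.) The case `i = 0` is trivial.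
-/

namespace Pool.Agent.H78.WL

open MvPolynomial

/-- the elementary limit -/
theorem grow_num (i D a b c0 s0 : ℕ) (hab : a * D ^ i < b) :
    ∃ s, s0 ≤ s ∧ a * (D * s + c0) ^ i < b * (s + 1) ^ i := by
  have h1 : Filter.Tendsto (fun u : ℕ => (a : ℝ) * ((D : ℝ) + (c0 : ℝ) / (u : ℝ)) ^ i)
      Filter.atTop (nhds ((a : ℝ) * ((D : ℝ) + 0) ^ i)) :=
    ((tendsto_const_nhds.add (tendsto_const_div_atTop_nhds_zero_nat (c0 : ℝ))).pow i).const_mul _
  have h2 : (a : ℝ) * ((D : ℝ) + 0) ^ i < (b : ℝ) := by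
    rw [add_zero]
    exact_mod_cast hab
  have h3 := (h1.eventually (gt_mem_nhds h2)).and (Filter.eventually_ge_atTop (s0 + 1))
  obtain ⟨u, hu1, hu2⟩ := h3.exists
  obtain ⟨s, rfl⟩ : ∃ s, u = s + 1 := ⟨u - 1, by omega⟩
  refine ⟨s, by omega, ?_⟩
  have hup : (0 : ℝ) < ((s + 1 : ℕ) : ℝ) := by exact_mod_cast Nat.succ_pos s
  have h4 : a * (D * s + c0) ^ i ≤ a * (D * (s + 1) + c0) ^ i := by
    gcongr
    omega
  refine lt_of_le_of_lt h4 ?_
  have h5 : ((a * (D * (s + 1) + c0) ^ i : ℕ) : ℝ) < ((b * (s + 1) ^ i : ℕ) : ℝ) := by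
    have h6 : (a : ℝ) * ((D : ℝ) + (c0 : ℝ) / ((s + 1 : ℕ) : ℝ)) ^ i * ((s + 1 : ℕ) : ℝ) ^ i <
        (b : ℝ) * ((s + 1 : ℕ) : ℝ) ^ i :=
      mul_lt_mul_of_pos_right hu1 (pow_pos hup i)
    rw [mul_assoc, ← mul_pow, add_mul, div_mul_cancel₀ _ hup.ne'] at h6
    push_cast at h6 ⊢
    exact h6
  exact_mod_cast h5

theorem grow_coreI {K : Type*} [Field K] [Algebra ℝ K] {i : ℕ} (t : Fin i → K) {e : ℕ}
    (β : Fin e → K)
    (hli : ∀ p : Fin e → MvPolynomial (Fin i) ℝ, ∑ j, aeval t (p j) * β j = 0 → p = 0)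
    (hmul : ∀ j k, ∃ p : Fin e → MvPolynomial (Fin i) ℝ, β j * β k = ∑ l, aeval t (p l) * β l)
    (Q₁ : K) (hQ₁ : Q₁ ≠ 0)
    (hone : ∃ p : Fin e → MvPolynomial (Fin i) ℝ, Q₁ = ∑ k, aeval t (p k) * β k)
    (C : Finset K) (Q : K) (hQ : Q ≠ 0)
    (hC : ∀ c ∈ C, ∃ p : Fin e → MvPolynomial (Fin i) ℝ, Q * c = ∑ k, aeval t (p k) * β k)
    (D a b : ℕ) (hD : 1 ≤ D) (hab : a * D ^ i < b) :
    ∃ Ω : Submodule ℝ K, FiniteDimensional ℝ Ω ∧ (1 : K) ∈ Ω ∧
      a * Module.finrank ℝ (Submodule.span ℝ (C : Set K) * Ω ^ D : Submodule ℝ K) <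
        b * Module.finrank ℝ Ω := by
  obtain ⟨h, hh⟩ := Wi_mul t β hmul
  obtain ⟨s0, hs0⟩ : ∃ s0, Q₁ ∈ Wi t β s0 := by
    obtain ⟨p, hp⟩ := hone
    rw [hp]
    exact exists_mem_Wi t β p
  have hm0 : ∀ c : K, ∃ m, c ∈ C → Q * c ∈ Wi t β m := by
    intro c
    by_cases hc : c ∈ C
    · obtain ⟨p, hp⟩ := hC c hc
      obtain ⟨m, hm⟩ := exists_mem_Wi t β p
      exact ⟨m, fun _ => hp ▸ hm⟩
    · exact ⟨0, fun h => absurd h hc⟩
  choose m hm using hm0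
  obtain ⟨M, hM⟩ : ∃ M, ∀ c ∈ C, Q * c ∈ Wi t β M :=
    ⟨C.sup m, fun c hc => Wi_mono t β (Finset.le_sup hc) (hm c hc)⟩
  have he : 0 < e := by
    rcases Nat.eq_zero_or_pos e with he | he
    · subst he
      obtain ⟨p, hp⟩ := hone
      simp at hp
      exact absurd hp hQ₁
    · exact he
  obtain ⟨s, hs1, hs2⟩ := grow_num i D a b (M + D * h + h + 1) s0 hab
  set Ω : Submodule ℝ K := (Wi t β s).comap (LinearMap.mulLeft ℝ Q₁) with hΩ
  have hinj : Function.Injective (LinearMap.mulLeft ℝ Q₁) := by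
    intro x y hxy
    exact mul_left_cancel₀ hQ₁ hxy
  have hsurj : Function.Surjective (LinearMap.mulLeft ℝ Q₁) := by
    intro y
    exact ⟨Q₁⁻¹ * y, mul_inv_cancel_left₀ hQ₁ y⟩
  set E : K ≃ₗ[ℝ] K := LinearEquiv.ofBijective (LinearMap.mulLeft ℝ Q₁) ⟨hinj, hsurj⟩ with hE
  have hΩE : Ω = (Wi t β s).map (E.symm : K →ₗ[ℝ] K) := by
    rw [← Submodule.comap_equiv_eq_map_symm]
    rfl
  obtain ⟨hfd, hfr⟩ := Wi_finrank t β hli s
  have hfdΩ : FiniteDimensional ℝ Ω := by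
    rw [hΩE]
    infer_instance
  have hfrΩ : Module.finrank ℝ Ω = e * (s + 1) ^ i := by
    rw [hΩE, ← hfr]
    exact LinearEquiv.finrank_map_eq E.symm (Wi t β s)
  have hpow : ∀ k, 1 ≤ k → Ω ^ k ≤ (Wi t β (k * s + k * h)).comap
      (LinearMap.mulLeft ℝ (Q₁ ^ k)) := by
    intro k hk
    induction k, hk using Nat.le_induction with
    | base =>
      intro x hx
      rw [pow_one] at hx
      have hx' : Q₁ * x ∈ Wi t β s := hx
      change Q₁ ^ 1 * x ∈ Wi t β (1 * s + 1 * h)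
      rw [pow_one, one_mul, one_mul]
      exact Wi_mono t β (Nat.le_add_right _ _) hx'
    | succ k _ ih =>
      rw [pow_succ, Submodule.mul_le]
      intro y hy z hz
      have hy' : Q₁ ^ k * y ∈ Wi t β (k * s + k * h) := ih hy
      have hz' : Q₁ * z ∈ Wi t β s := hz
      have h1 := hh _ _ (Submodule.mul_mem_mul hy' hz')
      change Q₁ ^ (k + 1) * (y * z) ∈ Wi t β ((k + 1) * s + (k + 1) * h)
      have e1 : Q₁ ^ (k + 1) * (y * z) = Q₁ ^ k * y * (Q₁ * z) := by ring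
      rw [e1]
      exact Wi_mono t β (le_of_eq (by ring)) h1
  have hspan : ∀ x ∈ Submodule.span ℝ (C : Set K), Q * x ∈ Wi t β M := by
    intro x hx
    have h1 : Submodule.span ℝ (C : Set K) ≤ (Wi t β M).comap (LinearMap.mulLeft ℝ Q) := by
      rw [Submodule.span_le]
      intro c hc
      exact hM c hc
    exact h1 hx
  have hprod : ∀ x ∈ (Submodule.span ℝ (C : Set K) * Ω ^ D : Submodule ℝ K),
      LinearMap.mulLeft ℝ (Q * Q₁ ^ D) x ∈ Wi t β (M + (D * s + D * h) + h) := by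
    intro x hx
    have h1 : (Submodule.span ℝ (C : Set K) * Ω ^ D : Submodule ℝ K)
        ≤ (Wi t β (M + (D * s + D * h) + h)).comap (LinearMap.mulLeft ℝ (Q * Q₁ ^ D)) := by
      rw [Submodule.mul_le]
      intro y hy z hz
      change Q * Q₁ ^ D * (y * z) ∈ Wi t β (M + (D * s + D * h) + h)
      have e1 : Q * Q₁ ^ D * (y * z) = Q * y * (Q₁ ^ D * z) := by ring
      rw [e1]
      exact hh _ _ (Submodule.mul_mem_mul (hspan y hy) (hpow D hD hz))
    exact h1 hx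
  obtain ⟨hfd', hfr'⟩ := Wi_finrank t β hli (M + (D * s + D * h) + h)
  refine ⟨Ω, hfdΩ, ?_, ?_⟩
  · change Q₁ * 1 ∈ Wi t β s
    rw [mul_one]
    exact Wi_mono t β hs1 hs0
  have hle : Module.finrank ℝ (Submodule.span ℝ (C : Set K) * Ω ^ D : Submodule ℝ K)
      ≤ e * (M + (D * s + D * h) + h + 1) ^ i := by
    rw [← hfr']
    refine LinearMap.finrank_le_finrank_of_injective
      (f := (LinearMap.mulLeft ℝ (Q * Q₁ ^ D)).restrict hprod) ?_
    intro x y hxy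
    have h1 : Q * Q₁ ^ D * (x : K) = Q * Q₁ ^ D * (y : K) := congrArg Subtype.val hxy
    exact Subtype.ext (mul_left_cancel₀ (mul_ne_zero hQ (pow_ne_zero _ hQ₁)) h1)
  rw [hfrΩ]
  calc a * Module.finrank ℝ (Submodule.span ℝ (C : Set K) * Ω ^ D : Submodule ℝ K)
      ≤ a * (e * (M + (D * s + D * h) + h + 1) ^ i) := Nat.mul_le_mul_left _ hle
    _ = e * (a * (D * s + (M + D * h + h + 1)) ^ i) := by
        have : M + (D * s + D * h) + h + 1 = D * s + (M + D * h + h + 1) := by ring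
        rw [this]
        ring
    _ < e * (b * (s + 1) ^ i) := Nat.mul_lt_mul_of_pos_left hs2 he
    _ = b * (e * (s + 1) ^ i) := by ring

end Pool.Agent.H78.WL
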