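import Pool.Agent.H78.WL.Defs

/-!
# wl_mod GC: existence of an order in several variables

Compare `Pool/Agent/H78/LR/GrC.lean` (one variable; there `ℝ[X]` is a PID, here we only get an order
which is free up to a denominator).

Proof. View `K` as an algebra over `R = MvPolynomial (Fin i) ℝ` by `aeval t` (injective as `t` is
algebraically independent; `letI := (aeval t).toRingHom.toAlgebra`). Every `c ∈ K` is algebraic over
`adjoin ℝ (range t)` = range of `aeval t`, hence over `R`; so there is `0 ≠ y ∈ R` with `y • c`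
integral over `R` for all `c ∈ C` (`Algebra.IsAlgebraic.exists_integral_multiples`). Let
`B = Algebra.adjoin R {y • c | c ∈ C}`, a finite `R`-module (`fg_adjoin_of_finite`), torsion free.
Let `F` be the fraction field of `R` in `K` (any model, e.g. `FractionRing R` acting on `K` through
`IsFractionRing.lift`, or `IntermediateField.adjoin ℝ (range t)`), `F B` the `F`-span of `B`,
finite dimensional over `F`. Choose elements `b_1, ..., b_e ∈ B` which are a basis of the `F`-space
`F B` (a maximal `F`-linearly independent subset of `B`). `B` is generated by finitely many elements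
over `R`, each of them is an `F`-combination of the `b_j`; with a common denominator `0 ≠ q ∈ R`:
`q B ⊆ ∑ R b_j`. Put `β_j = q b_j`:
`hli`: linear independence; `hmul`: `β_j β_k = q (q b_j b_k) ∈ q ∑ R b_l = ∑ R β_l` as
`b_j b_k ∈ B`; `Q₁ = q²`: `q² 1 ∈ q ∑ R b_l`; `Q = q² y`: `q² (y c) ∈ q ∑ R b_l` as `y c ∈ B`.
(Another way: `F' = ` the intermediate field generated by `C` over `F`, finite over `F`, any basis
`b` of `F'` over `F`, common denominator `q` of the coordinates of `b_j b_k`, `1`, `c ∈ C`.)
-/

namespace Pool.Agent.H78.WL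

open MvPolynomial

theorem exists_orderI {K : Type*} [Field K] [Algebra ℝ K] {i : ℕ} (t : Fin i → K)
    (ht : AlgebraicIndependent ℝ t)
    (halg : Algebra.IsAlgebraic (Algebra.adjoin ℝ (Set.range t)) K) (C : Finset K) :
    ∃ (e : ℕ) (β : Fin e → K),
      (∀ p : Fin e → MvPolynomial (Fin i) ℝ, ∑ j, aeval t (p j) * β j = 0 → p = 0) ∧
      (∀ j k, ∃ p : Fin e → MvPolynomial (Fin i) ℝ, β j * β k = ∑ l, aeval t (p l) * β l) ∧
      (∃ Q₁ : K, Q₁ ≠ 0 ∧
        ∃ p : Fin e → MvPolynomial (Fin i) ℝ, Q₁ = ∑ k, aeval t (p k) * β k) ∧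
      ∃ Q : K, Q ≠ 0 ∧
        ∀ c ∈ C, ∃ p : Fin e → MvPolynomial (Fin i) ℝ, Q * c = ∑ k, aeval t (p k) * β k := by
  classical
  let _ : Algebra (MvPolynomial (Fin i) ℝ) K := (aeval t).toRingHom.toAlgebra
  have hmap : ∀ p : MvPolynomial (Fin i) ℝ, algebraMap (MvPolynomial (Fin i) ℝ) K p =
      aeval t p := fun p => rfl
  have hinj : Function.Injective (algebraMap (MvPolynomial (Fin i) ℝ) K) := ht
  have : FaithfulSMul (MvPolynomial (Fin i) ℝ) K :=
    (faithfulSMul_iff_algebraMap_injective _ _).2 hinj
  have hsmul : ∀ (p : MvPolynomial (Fin i) ℝ) (x : K), p • x = aeval t p * x :=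
    fun p x => Algebra.smul_def p x
  -- algebraic over the polynomial ring
  have halgX : Algebra.IsAlgebraic (MvPolynomial (Fin i) ℝ) K := by
    constructor
    intro x
    obtain ⟨P, hP0, hP⟩ := halg.isAlgebraic x
    have hmem : ∀ j, t j ∈ Algebra.adjoin ℝ (Set.range t) := fun j =>
      Algebra.subset_adjoin ⟨j, rfl⟩
    let φ : MvPolynomial (Fin i) ℝ →+* Algebra.adjoin ℝ (Set.range t) :=
      (aeval (fun j => (⟨t j, hmem j⟩ : Algebra.adjoin ℝ (Set.range t)))).toRingHom
    have hφ : ∀ p : MvPolynomial (Fin i) ℝ,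
        ((φ p : Algebra.adjoin ℝ (Set.range t)) : K) = aeval t p := by
      intro p
      have h1 := MvPolynomial.aeval_algebraMap_apply K
        (fun j => (⟨t j, hmem j⟩ : Algebra.adjoin ℝ (Set.range t))) p
      exact h1.symm
    have hsurj : Function.Surjective φ := by
      rintro ⟨z, hz⟩
      have hz' := hz
      rw [Algebra.adjoin_range_eq_range_aeval] at hz'
      obtain ⟨p, hp⟩ := hz'
      refine ⟨p, Subtype.ext ?_⟩
      rw [hφ]
      exact hp
    obtain ⟨P', hP'⟩ := Polynomial.map_surjective φ hsurj P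
    refine ⟨P', ?_, ?_⟩
    · rintro rfl
      apply hP0
      rw [← hP', Polynomial.map_zero]
    · rw [Polynomial.aeval_def, ← hP', Polynomial.eval₂_map] at hP
      rw [Polynomial.aeval_def]
      have h1 : (algebraMap (Algebra.adjoin ℝ (Set.range t)) K).comp φ =
          algebraMap (MvPolynomial (Fin i) ℝ) K := by
        apply RingHom.ext
        intro p
        exact hφ p
      rw [h1] at hP
      exact hP
  let _ : Algebra (FractionRing (MvPolynomial (Fin i) ℝ)) K :=
    FractionRing.liftAlgebra (MvPolynomial (Fin i) ℝ) K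
  have hst : IsScalarTower (MvPolynomial (Fin i) ℝ) (FractionRing (MvPolynomial (Fin i) ℝ)) K :=
    FractionRing.isScalarTower_liftAlgebra _ _
  have halgF : Algebra.IsAlgebraic (FractionRing (MvPolynomial (Fin i) ℝ)) K :=
    (IsFractionRing.comap_isAlgebraic_iff (A := MvPolynomial (Fin i) ℝ)).1 halgX
  set F := FractionRing (MvPolynomial (Fin i) ℝ) with hF
  let L : IntermediateField F K := IntermediateField.adjoin F (C : Set K)
  have hfd : FiniteDimensional F L :=
    IntermediateField.finiteDimensional_adjoin (S := (C : Set K))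
      (fun x _ => (halgF.isAlgebraic x).isIntegral)
  let bs := Module.finBasis F L
  let e := Module.finrank F L
  -- the elements to be expanded
  let κ := (Fin e × Fin e) ⊕ Unit ⊕ {c // c ∈ C}
  let el : κ → L := fun k => match k with
    | Sum.inl jk => bs jk.1 * bs jk.2
    | Sum.inr (Sum.inl _) => 1
    | Sum.inr (Sum.inr c) => ⟨c.1, IntermediateField.subset_adjoin F _ c.2⟩
  obtain ⟨⟨q, hq⟩, hqi⟩ := IsLocalization.exist_integer_multiples_of_finite
    (nonZeroDivisors (MvPolynomial (Fin i) ℝ)) (S := F) (fun k : κ × Fin e => bs.repr (el k.1) k.2)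
  have hq0 : q ≠ 0 := nonZeroDivisors.ne_zero hq
  have hq0' : aeval t q ≠ 0 := by
    intro h
    apply hq0
    apply hinj
    rw [hmap, h, map_zero]
  choose p hp using hqi
  have hexp : ∀ k : κ, aeval t q * (el k : K) = ∑ l, aeval t (p (k, l)) * (bs l : K) := by
    intro k
    have h1 : (el k : K) = ∑ l, (bs.repr (el k) l) • (bs l : K) := by
      have h2 : ((∑ l, bs.repr (el k) l • bs l : L) : K) = (el k : K) := by rw [bs.sum_repr]
      rw [← h2, IntermediateField.coe_sum]
      rfl
    rw [← hsmul, h1, Finset.smul_sum]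
    refine Finset.sum_congr rfl fun l _ => ?_
    rw [← smul_assoc]
    have h3 : q • (bs.repr (el k) l) = algebraMap (MvPolynomial (Fin i) ℝ) F (p (k, l)) :=
      (hp (k, l)).symm
    rw [h3, algebraMap_smul, hsmul]
  refine ⟨e, fun k => aeval t q * (bs k : K), ?_, ?_, ⟨aeval t q * aeval t q, mul_ne_zero hq0' hq0',
    ?_⟩, aeval t q * aeval t q, mul_ne_zero hq0' hq0', ?_⟩
  · intro p' hp'
    have h1 : ∑ j, algebraMap (MvPolynomial (Fin i) ℝ) F (p' j * q) • bs j = 0 := by
      apply Subtype.ext
      rw [IntermediateField.coe_sum]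
      refine Eq.trans ?_ hp'
      refine Finset.sum_congr rfl fun k _ => ?_
      have h4 : ((algebraMap (MvPolynomial (Fin i) ℝ) F (p' k * q) • bs k : L) : K) =
          algebraMap (MvPolynomial (Fin i) ℝ) F (p' k * q) • (bs k : K) := rfl
      rw [h4, algebraMap_smul, hsmul, map_mul, mul_assoc]
    have h2 := Fintype.linearIndependent_iff.1 bs.linearIndependent _ h1
    funext j
    have h3 := h2 j
    have h4 : p' j * q = 0 := by
      apply IsFractionRing.injective (MvPolynomial (Fin i) ℝ) F
      rw [h3, map_zero]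
    exact (mul_eq_zero.1 h4).resolve_right hq0
  · intro j k
    refine ⟨fun l => p (Sum.inl (j, k), l), ?_⟩
    have h1 := hexp (Sum.inl (j, k))
    have h2 : ((el (Sum.inl (j, k)) : L) : K) = (bs j : K) * (bs k : K) := rfl
    rw [h2] at h1
    calc aeval t q * (bs j : K) * (aeval t q * (bs k : K))
        = aeval t q * (aeval t q * ((bs j : K) * (bs k : K))) := by ring
      _ = _ := by
        rw [h1, Finset.mul_sum]
        refine Finset.sum_congr rfl fun l _ => ?_
        ring
  · refine ⟨fun l => p (Sum.inr (Sum.inl ()), l), ?_⟩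
    have h1 := hexp (Sum.inr (Sum.inl ()))
    have h2 : ((el (Sum.inr (Sum.inl ())) : L) : K) = 1 := rfl
    rw [h2, mul_one] at h1
    calc aeval t q * aeval t q = aeval t q * ∑ l, aeval t (p (Sum.inr (Sum.inl ()), l)) *
          (bs l : K) := by rw [← h1]
      _ = _ := by
        rw [Finset.mul_sum]
        refine Finset.sum_congr rfl fun l _ => ?_
        ring
  · intro c hc
    refine ⟨fun l => p (Sum.inr (Sum.inr ⟨c, hc⟩), l), ?_⟩
    have h1 := hexp (Sum.inr (Sum.inr ⟨c, hc⟩))
    have h2 : ((el (Sum.inr (Sum.inr ⟨c, hc⟩)) : L) : K) = c := rfl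
    rw [h2] at h1
    calc aeval t q * aeval t q * c = aeval t q * (aeval t q * c) := by ring
      _ = _ := by
        rw [h1, Finset.mul_sum]
        refine Finset.sum_congr rfl fun l _ => ?_
        ring

end Pool.Agent.H78.WL
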