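import Pool.Agent.H78.WL.GB
import Pool.Agent.H78.WL.GC

/-!
# wl_mod GD: the growth property for transcendence degree at most `i`

Compare `Pool/Agent/H78/LR/GrD.lean`.

Take a transcendence basis `s : Set K` (`exists_isTranscendenceBasis ℝ K`); its cardinality is
`≤ trdeg ≤ i`, so `s` is finite, reindex it by an equivalence `Fin i' ≃ s`, `i' ≤ i`: `t : Fin i' → K`
algebraically independent with `K` algebraic over `adjoin ℝ (range t)`. Use `exists_orderI` and
`grow_coreI` with `i'`: `a D^i' ≤ a D^i < b` (as `D ≥ 1`).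
-/

namespace Pool.Agent.H78.WL

theorem growI_of_trdeg {K : Type*} [Field K] [Algebra ℝ K] {i : ℕ} (h : Algebra.trdeg ℝ K ≤ i) :
    GrowI K i := by
  obtain ⟨s, hs⟩ := exists_isTranscendenceBasis ℝ K
  have hcard : Cardinal.mk s ≤ i := hs.1.cardinalMk_le_trdeg.trans h
  have hfin : Finite s := Cardinal.lt_aleph0_iff_finite.1 (hcard.trans_lt (Cardinal.natCast_lt_aleph0))
  obtain ⟨i', ⟨e0⟩⟩ := Finite.exists_equiv_fin s
  have hi' : i' ≤ i := by
    have h1 : Nat.card s = i' := by
      rw [Nat.card_congr e0, Nat.card_fin]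
    have h2 : Cardinal.mk s = ((Nat.card s : ℕ) : Cardinal) := (Nat.cast_card (α := s)).symm
    rw [h2, h1] at hcard
    exact_mod_cast hcard
  have ht : IsTranscendenceBasis ℝ (fun k : Fin i' => ((e0.symm k : s) : K)) := by
    have h2 := (isTranscendenceBasis_equiv (R := ℝ) e0.symm (f := fun x : s => (x : K))).2 hs
    exact h2
  intro C D a b hD hab
  obtain ⟨e, β, h1, h2, ⟨Q₁, h3, h3'⟩, Q, h4, h5⟩ :=
    exists_orderI (fun k : Fin i' => ((e0.symm k : s) : K)) ht.1 ht.isAlgebraic C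
  exact grow_coreI (fun k : Fin i' => ((e0.symm k : s) : K)) β h1 h2 Q₁ h3 h3' C Q h4 h5 D a b hD
    (lt_of_le_of_lt (Nat.mul_le_mul_left _ (Nat.pow_le_pow_right hD hi')) hab)

end Pool.Agent.H78.WL
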