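import Pool.Agent.H78.WL.BUKI

/-!
# wl_mod OD: diagonal forms of odd degree

Put `f = ∑_b C (s b) * X (0,b)^d`, homogeneous of degree `d` in the variables `Fin 1 × Fin n`. Apply
`planeI` with `m = 1` and `E = (Finset.range ((d+1)/2)).image
fun β => single (inl 0) (d-β) + single (inr 0) β` (the exponents `(α, β)`, `α + β = d`, `α > β`;
`E.card ≤ (d+1)/2`). As `d` is odd, `P = 0`, so (`PlaneRel`) `f (2 (σ x + τ y)) = 0` for all `σ`, `τ`,
`x = (z 0).re`, `y = (z 0).im`, one of them is nonzero: `2 x` or `2 y` is a nontrivial zero.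
-/

namespace Pool.Agent.H78.WL

open MvPolynomial Pool.Agent.H78.LR

private theorem OD_deg (u : Fin 1 ⊕ Fin 1 →₀ ℕ) :
    u.degree = u (Sum.inl 0) + u (Sum.inr 0) := by
  rw [Finsupp.degree_eq_sum, Fintype.sum_sum_type]
  simp

private theorem OD_eq (u v : Fin 1 ⊕ Fin 1 →₀ ℕ) (h1 : u (Sum.inl 0) = v (Sum.inl 0))
    (h2 : u (Sum.inr 0) = v (Sum.inr 0)) : u = v := by
  ext i
  rcases i with i | i
  · rw [Subsingleton.elim i 0]
    exact h1
  · rw [Subsingleton.elim i 0]
    exact h2

theorem odd_diag {K : Type*} [Field K] [Algebra ℝ K] {i : ℕ} (hG : GrowI K i) {d n : ℕ}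
    (hd : Odd d) (hn : ((d + 1) / 2) * d ^ i < n) (s : Fin n → K) :
    ∃ x : Fin n → K, x ≠ 0 ∧ ∑ b, s b * x b ^ d = 0 := by
  classical
  have : CharZero K := charZero_of_injective_algebraMap (algebraMap ℝ K).injective
  have h2 : (2 : K) ≠ 0 := two_ne_zero
  obtain ⟨k, hk⟩ := hd
  have hd1 : 1 ≤ d := by omega
  let g : ℕ → (Fin 1 ⊕ Fin 1 →₀ ℕ) := fun β =>
    Finsupp.single (Sum.inl 0) (d - β) + Finsupp.single (Sum.inr 0) β
  have g1 : ∀ β, g β (Sum.inl 0) = d - β := fun β => by simp [g]
  have g2 : ∀ β, g β (Sum.inr 0) = β := fun β => by simp [g]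
  let E : Finset (Fin 1 ⊕ Fin 1 →₀ ℕ) := (Finset.range ((d + 1) / 2)).image g
  have hcard : E.card ≤ (d + 1) / 2 := by
    refine Finset.card_image_le.trans ?_
    rw [Finset.card_range]
  let f : MvPolynomial (Fin 1 × Fin n) K := ∑ b : Fin n, C (s b) * X ((0 : Fin 1), b) ^ d
  have hf : f.IsHomogeneous d := by
    apply IsHomogeneous.sum
    intro b _
    have h := (isHomogeneous_C (Fin 1 × Fin n) (s b)).mul ((isHomogeneous_X K ((0 : Fin 1), b)).pow d)
    rwa [zero_add, one_mul] at h
  obtain ⟨z, hz, P, hP⟩ := planeI hG (m := 1) (n := n) hd1 f hf E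
    (by
      intro u hu
      obtain ⟨β, hβ, rfl⟩ := Finset.mem_image.1 hu
      rw [Finset.mem_range] at hβ
      refine ⟨0, ?_⟩
      rw [g1, g2]
      omega)
    (by
      rintro u hu ⟨b, hb⟩
      rw [Subsingleton.elim b 0] at hb
      rw [OD_deg] at hu
      rcases lt_or_gt_of_ne hb with h | h
      · right
        refine Finset.mem_image.2 ⟨u (Sum.inl 0), Finset.mem_range.2 (by omega), ?_⟩
        apply OD_eq
        · rw [g1]
          have e : (u.mapDomain Sum.swap) (Sum.swap (Sum.inr 0)) = u (Sum.inr 0) :=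
            Finsupp.mapDomain_apply Sum.swap_leftInverse.injective _ _
          change _ = (u.mapDomain Sum.swap) (Sum.swap (Sum.inr 0))
          rw [e]
          omega
        · rw [g2]
          have e : (u.mapDomain Sum.swap) (Sum.swap (Sum.inl 0)) = u (Sum.inl 0) :=
            Finsupp.mapDomain_apply Sum.swap_leftInverse.injective _ _
          change _ = (u.mapDomain Sum.swap) (Sum.swap (Sum.inl 0))
          rw [e]
      · left
        refine Finset.mem_image.2 ⟨u (Sum.inr 0), Finset.mem_range.2 (by omega), ?_⟩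
        apply OD_eq
        · rw [g1]
          omega
        · rw [g2])
    (lt_of_le_of_lt (Nat.mul_le_mul_right _ hcard) hn)
  have hP0 : P = 0 := hP.2.1 ⟨k, hk⟩
  have key : ∀ a b : K, ∑ c, s c * (2 * (a * (z 0 c).re + b * (z 0 c).im)) ^ d = 0 := by
    intro a b
    have h := hP.1 (fun _ => a) (fun _ => b)
    rw [hP0, map_zero] at h
    refine Eq.trans ?_ h
    simp only [f, map_sum, map_mul, map_pow, eval_C, eval_X]
  by_cases hre : (fun c => 2 * (z 0 c).re) = (0 : Fin n → K)
  · refine ⟨fun c => 2 * (z 0 c).im, ?_, ?_⟩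
    · intro him
      apply hz 0
      funext c
      have e1 : (z 0 c).re = 0 := by
        have := congrFun hre c
        simpa [h2] using this
      have e2 : (z 0 c).im = 0 := by
        have := congrFun him c
        simpa [h2] using this
      exact QuadraticAlgebra.ext e1 e2
    · have h := key 0 1
      simpa using h
  · refine ⟨fun c => 2 * (z 0 c).re, hre, ?_⟩
    have h := key 1 0
    simpa using h

end Pool.Agent.H78.WL
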