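import Pool.Agent.H78.WL.BUKI

/-!
# wl_mod QI: Tsen-Lang for quadratic forms over `K(i)`

`buKI` with `m = 1`, `ρ = Unit`, `D = 2`, `w = 2`, `A () z = ∑_b c_b (z 0 b)^2` (no conjugates):
`A (λ z) = λ² A z` (`∏_{b : Fin 1} λ_b ^ 2`). `C` = the finite set of all `(c b).re`, `(c b).im`.
`hP`: `A` of `∑_l cc (z (c,l)) kk (ω l)` is a finite sum of products
`c_b * cc (z_1 z_2) * kk (ω ω')`, real and imaginary parts are sums of (continuous real function) times
(element of `span C * Ω^2`); use the closure lemmas for `CF` in `Pool/Agent/H78/LR/CFa.lean`,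
`CFb.lean` (sum, product; `Ω^2 = Ω * Ω`) or `CF_coeff_FF` there.
-/

namespace Pool.Agent.H78.WL

open Pool.Agent.H78.LR

private theorem quadI_const {K : Type*} [Field K] [Algebra ℝ K] {Z : Type} [TopologicalSpace Z]
    {S : Submodule ℝ K} (a : LL K) (h1 : a.re ∈ S) (h2 : a.im ∈ S) :
    CF S (fun _ : Z => a) := by
  have h3 := (CF.const (Z := Z) h1).add
    (CF.coord (Z := Z) (g := fun _ => Complex.I) continuous_const h2)
  have h4 : (fun _ : Z => a) = fun _ : Z => kk K a.re + cc K Complex.I * kk K a.im := by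
    funext _
    ext <;> simp
  rw [h4]
  exact h3

theorem quadI {K : Type*} [Field K] [Algebra ℝ K] {i : ℕ} (hG : GrowI K i) {n : ℕ}
    (hn : 2 ^ i < n) (c : Fin n → LL K) :
    ∃ z : Fin n → LL K, z ≠ 0 ∧ ∑ b, c b * z b ^ 2 = 0 := by
  classical
  obtain ⟨C, hC⟩ : ∃ C : Finset K, ∀ b, (c b).re ∈ C ∧ (c b).im ∈ C :=
    ⟨Finset.univ.image (fun b => (c b).re) ∪ Finset.univ.image (fun b => (c b).im), fun b =>
      ⟨Finset.mem_union_left _ (Finset.mem_image_of_mem _ (Finset.mem_univ b)),
        Finset.mem_union_right _ (Finset.mem_image_of_mem _ (Finset.mem_univ b))⟩⟩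
  obtain ⟨z, hz, hA⟩ := buKI hG (m := 1) (n := n) (D := 2) (by norm_num) (ρ := Unit)
    (fun _ _ => 2) (fun _ h => by
      have h1 := congrFun h 0
      simp at h1)
    C (fun _ z => ∑ b, c b * z 0 b ^ 2)
    (by
      intro _ l hl z
      simp only [Finset.univ_unique, Finset.prod_singleton, Finset.mul_sum]
      refine Finset.sum_congr rfl fun b _ => ?_
      have h1 : (l default : ℂ) ^ (2 : ℤ) = l 0 * l 0 := by
        rw [zpow_two]
        rfl
      rw [h1, map_mul]
      ring)
    (by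
      intro _ Ω e ω h1 hω
      refine CF.sum _ fun b _ => ?_
      have h2 : CF Ω (fun z : Fin 1 → (Fin n × Fin e) → ℂ =>
          ∑ l, cc K (z 0 (b, l)) * kk K (ω l)) :=
        CF.sum _ fun l _ => CF.coord (by fun_prop) (hω l)
      have h3 : CF (Submodule.span ℝ (C : Set K))
          (fun _ : Fin 1 → (Fin n × Fin e) → ℂ => c b) :=
        quadI_const (c b) (Submodule.subset_span (hC b).1) (Submodule.subset_span (hC b).2)
      have h4 := h3.mul (h2.mul h2)
      rw [← pow_two] at h4
      simp only [pow_two (∑ l, cc K _ * kk K (ω l))]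
      exact h4)
    (by simpa using hn)
  refine ⟨z 0, hz 0, hA ()⟩

end Pool.Agent.H78.WL
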