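import Pool.Agent.H78.WL.PfC
import Pool.Agent.H78.WL.QI

/-!
# wl_mod PfE: Pfister forms represent sums of two squares

Let `τ = pfi l`, `2^i` coefficients `τ_j ≠ 0` (`pfi_ne`, `pfi_length`), `β = u + i v ∈ K(i)`,
`N = u² + v² ≠ 0`. If `τ` is isotropic use `qv_universal`. If `v = 0`: `pfi_sq`. Let `τ` be
anisotropic, `v ≠ 0`. By `quadI` (`2^i + 1` coefficients `τ_j`, `-β`) there is `(z, z₀) ≠ 0` with
`∑ τ_j z_j² = β z₀²`.

Case `z₀ = 0`: `z = x + i y`, `τ(x) = τ(y) =: g`, `B(x,y) = ∑ τ_j x_j y_j = 0`, not both zero, so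
`g ≠ 0` by anisotropy. `τ(u x + v y) = g N`. By `pfi_mul` `g (g N)` is a value of `τ`, hence also
`N = g (g N) / g²` (`qv_smul_arg`).

Case `z₀ ≠ 0`: `z₀ * cj z₀ = kk (z₀.re² + z₀.im²)`, nonzero because `-1` is not a square in `K`; so `z₀`
is invertible and dividing by it we may assume `z₀ = 1`: `∑ τ_j (x_j + i y_j)² = β`:
`τ(x) - τ(y) = u`, `2 B(x,y) = v`. Put `y' = y / v`, `x' = x - u y'`, so
`x + i y = x' + β y'`. Then `τ(x') = N τ(y')`: indeed
`τ(x') = τ(x) - 2 u B(x,y') + u² τ(y') = τ(x) - u + u² τ(y) / v²` and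
`N τ(y') = (u² + v²) τ(y) / v² = τ(y) + u² τ(y) / v²`, and `τ(x) - u = τ(y)`.
`y' ≠ 0` (else `v = 2 B(x,y) = 0`), so `g = τ(y') ≠ 0` and `N = τ(x') g / g²` is a value by `pfi_mul`
(`τ(x') = N g ≠ 0`).
-/

namespace Pool.Agent.H78.WL

open Pool.Agent.H78.LR

/-- the bilinear form of `qv` -/
private noncomputable def bil {K : Type*} [Field K] (l : List K) (x y : Fin l.length → K) : K :=
  ∑ j, l.get j * (x j * y j)

private theorem qv_comb {K : Type*} [Field K] (l : List K) (x y : Fin l.length → K) (a b : K) :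
    qv l (fun j => a * x j + b * y j) = a ^ 2 * qv l x + 2 * a * b * bil l x y + b ^ 2 * qv l y := by
  unfold qv bil
  rw [Finset.mul_sum, Finset.mul_sum, Finset.mul_sum, ← Finset.sum_add_distrib,
    ← Finset.sum_add_distrib]
  refine Finset.sum_congr rfl fun j _ => ?_
  ring

private theorem div_value {K : Type*} [Field K] {l : List K} (hl : ∀ a ∈ l, a ≠ 0) {g N : K}
    (hg : g ≠ 0) (h : ∃ x, qv (pfi l) x = g) (h' : ∃ x, qv (pfi l) x = g * N) :
    ∃ x, qv (pfi l) x = N := by
  obtain ⟨x, hx⟩ := pfi_mul hl hg h h'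
  refine ⟨g⁻¹ • x, ?_⟩
  rw [qv_smul_arg, hx]
  field_simp

private theorem sumsq_ne {K : Type*} [Field K] (hns : ∀ x : K, x ^ 2 ≠ -1) {p q : K}
    (h : p ≠ 0 ∨ q ≠ 0) : p ^ 2 + q ^ 2 ≠ 0 := by
  intro h0
  by_cases hq : q = 0
  · rcases h with h | h
    · apply h
      rw [hq] at h0
      have : p ^ 2 = 0 := by linear_combination h0
      exact pow_eq_zero_iff (two_ne_zero) |>.1 this
    · exact h hq
  · apply hns (p / q)
    rw [div_pow, div_eq_iff (pow_ne_zero 2 hq)]
    linear_combination h0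

theorem pf_two {K : Type*} [Field K] [Algebra ℝ K] {i : ℕ} (hG : GrowI K i)
    (hns : ∀ x : K, x ^ 2 ≠ -1) {l : List K} (hli : l.length = i) (hl : ∀ a ∈ l, a ≠ 0)
    (u v : K) (h0 : u ^ 2 + v ^ 2 ≠ 0) : ∃ x, qv (pfi l) x = u ^ 2 + v ^ 2 := by
  have hc0 : CharZero K := charZero_of_injective_algebraMap (algebraMap ℝ K).injective
  have h2 : (2 : K) ≠ 0 := two_ne_zero
  by_cases hiso : ∃ x, x ≠ 0 ∧ qv (pfi l) x = 0
  · exact qv_universal (pfi_ne hl) hiso _
  have han : ∀ x : Fin (pfi l).length → K, qv (pfi l) x = 0 → x = 0 := by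
    intro x hx
    by_contra hne
    exact hiso ⟨x, hne, hx⟩
  -- the key step
  have key : ∀ (x y : Fin (pfi l).length → K) (U V : K), qv (pfi l) x - qv (pfi l) y = U →
      2 * bil (pfi l) x y = V → U ^ 2 + V ^ 2 ≠ 0 → ∃ w, qv (pfi l) w = U ^ 2 + V ^ 2 := by
    intro x y U V hU hV hUV
    by_cases hV0 : V = 0
    · obtain ⟨w, hw⟩ := pfi_sq l U
      exact ⟨w, by rw [hw, hV0]; ring⟩
    · have hy : y ≠ 0 := by
        intro hy
        apply hV0
        rw [← hV, hy]
        simp [bil]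
      have hgy : qv (pfi l) y ≠ 0 := fun h => hy (han y h)
      refine div_value hl (g := qv (pfi l) (V⁻¹ • y)) ?_ ⟨_, rfl⟩
        ⟨fun j => 1 * x j + (-(U * V⁻¹)) * y j, ?_⟩
      · rw [qv_smul_arg]
        exact mul_ne_zero (pow_ne_zero 2 (inv_ne_zero hV0)) hgy
      · rw [qv_comb, qv_smul_arg]
        have hx : qv (pfi l) x = U + qv (pfi l) y := by linear_combination hU
        have hB : bil (pfi l) x y = V / 2 := by
          rw [eq_div_iff h2]
          linear_combination hV
        rw [hx, hB]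
        field_simp
        ring
  have hlen : 2 ^ i < (pfi l).length + 1 := by
    rw [pfi_length, hli]
    exact Nat.lt_succ_self _
  obtain ⟨z, hz, hsum⟩ := quadI hG hlen
    (Fin.cons (-(⟨u, v⟩ : LL K)) fun j => kk K ((pfi l).get j))
  rw [Fin.sum_univ_succ] at hsum
  simp only [Fin.cons_zero, Fin.cons_succ] at hsum
  set p := (z 0).re with hp
  set q := (z 0).im with hq
  set x : Fin (pfi l).length → K := fun j => (z j.succ).re with hx
  set y : Fin (pfi l).length → K := fun j => (z j.succ).im with hy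
  have hre : qv (pfi l) x - qv (pfi l) y = u * (p ^ 2 - q ^ 2) - 2 * v * (p * q) := by
    have h1 := congrArg QuadraticAlgebra.re hsum
    have h3 : ∀ (s : Finset (Fin (pfi l).length)) (f : Fin (pfi l).length → LL K),
        (∑ j ∈ s, f j).re = ∑ j ∈ s, (f j).re := by
      intro s f
      induction s using Finset.cons_induction with
      | empty => simp
      | cons a s ha ih => rw [Finset.sum_cons, Finset.sum_cons, ← ih]; simp
    rw [QuadraticAlgebra.re_add, h3] at h1
    have h4 : ∀ j, (kk K ((pfi l).get j) * z j.succ ^ 2).re =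
        (pfi l).get j * x j ^ 2 - (pfi l).get j * y j ^ 2 := by
      intro j
      rw [pow_two]
      simp only [QuadraticAlgebra.re_mul, QuadraticAlgebra.im_mul, kk_re, kk_im, hx, hy]
      ring
    have h5 : (-(⟨u, v⟩ : LL K) * z 0 ^ 2).re = -(u * (p ^ 2 - q ^ 2) - 2 * v * (p * q)) := by
      rw [pow_two]
      simp only [QuadraticAlgebra.re_mul, QuadraticAlgebra.im_mul, QuadraticAlgebra.re_neg,
        QuadraticAlgebra.im_neg, hp, hq]
      ring
    rw [h5, Finset.sum_congr rfl fun j _ => h4 j, Finset.sum_sub_distrib] at h1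
    have h6 : (0 : LL K).re = 0 := rfl
    rw [h6] at h1
    unfold qv
    linear_combination h1
  have him : 2 * bil (pfi l) x y = v * (p ^ 2 - q ^ 2) + 2 * u * (p * q) := by
    have h1 := congrArg QuadraticAlgebra.im hsum
    have h3 : ∀ (s : Finset (Fin (pfi l).length)) (f : Fin (pfi l).length → LL K),
        (∑ j ∈ s, f j).im = ∑ j ∈ s, (f j).im := by
      intro s f
      induction s using Finset.cons_induction with
      | empty => simp
      | cons a s ha ih => rw [Finset.sum_cons, Finset.sum_cons, ← ih]; simp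
    rw [QuadraticAlgebra.im_add, h3] at h1
    have h4 : ∀ j, (kk K ((pfi l).get j) * z j.succ ^ 2).im =
        2 * ((pfi l).get j * (x j * y j)) := by
      intro j
      rw [pow_two]
      simp only [QuadraticAlgebra.re_mul, QuadraticAlgebra.im_mul, kk_re, kk_im, hx, hy]
      ring
    have h5 : (-(⟨u, v⟩ : LL K) * z 0 ^ 2).im = -(v * (p ^ 2 - q ^ 2) + 2 * u * (p * q)) := by
      rw [pow_two]
      simp only [QuadraticAlgebra.re_mul, QuadraticAlgebra.im_mul, QuadraticAlgebra.re_neg,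
        QuadraticAlgebra.im_neg, hp, hq]
      ring
    rw [h5, Finset.sum_congr rfl fun j _ => h4 j, ← Finset.mul_sum] at h1
    have h6 : (0 : LL K).im = 0 := rfl
    rw [h6] at h1
    unfold bil
    linear_combination h1
  by_cases hpq : p = 0 ∧ q = 0
  · obtain ⟨hp0, hq0⟩ := hpq
    have hxy : x ≠ 0 ∨ y ≠ 0 := by
      by_contra hcon
      push Not at hcon
      obtain ⟨hx0, hy0⟩ := hcon
      apply hz
      funext j
      refine Fin.cases ?_ (fun j => ?_) j
      · ext
        · exact hp0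
        · exact hq0
      · ext
        · exact congrFun hx0 j
        · exact congrFun hy0 j
    rw [hp0, hq0] at hre him
    have hB : bil (pfi l) x y = 0 := by
      have : 2 * bil (pfi l) x y = 0 := by rw [him]; ring
      exact (mul_eq_zero.1 this).resolve_left h2
    have hg : qv (pfi l) x = qv (pfi l) y := by linear_combination hre
    have hgx : qv (pfi l) x ≠ 0 := by
      intro h
      rcases hxy with h' | h'
      · exact h' (han x h)
      · exact h' (han y (hg ▸ h))
    refine div_value hl hgx ⟨x, rfl⟩ ⟨fun j => u * x j + v * y j, ?_⟩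
    rw [qv_comb, hB, ← hg]
    ring
  · have hpq' : p ≠ 0 ∨ q ≠ 0 := by
      by_contra hcon
      push Not at hcon
      exact hpq hcon
    have hn := sumsq_ne hns hpq'
    obtain ⟨w, hw⟩ := key x y _ _ hre him (by
      have : (u * (p ^ 2 - q ^ 2) - 2 * v * (p * q)) ^ 2 +
          (v * (p ^ 2 - q ^ 2) + 2 * u * (p * q)) ^ 2 =
          (u ^ 2 + v ^ 2) * (p ^ 2 + q ^ 2) ^ 2 := by ring
      rw [this]
      exact mul_ne_zero h0 (pow_ne_zero 2 hn))
    refine ⟨(p ^ 2 + q ^ 2)⁻¹ • w, ?_⟩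
    rw [qv_smul_arg, hw]
    field_simp
    ring

end Pool.Agent.H78.WL
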