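import Pool.Agent.H78.WL.PfD
import Pool.Agent.H78.WL.PfE

/-!
# wl_mod PfF: Pfister's theorem on the level

`pf_sum`, induction on the number of squares (`0`, `1`: trivial resp. `pfi_sq`; `2`: `pf_two`; or start
the induction at `0` with the following step). Let `b = u_0² + c₀`, `c₀` a sum of `n` squares, `b ≠ 0`.
If `u_0 = 0` use the induction hypothesis. Otherwise `b = u_0² (1 + c)`, `c = c₀ / u_0²` a sum of `n`
squares; it is enough to represent `b' = 1 + c ≠ 0` (`qv_smul_arg`). If `c = 0`: `pfi_sq` for `1`.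
Otherwise by induction `c` is a value of `pfi l = 1 :: pft l`, so `c = t² + c'`, `c'` a value of `pft l`
(`qv_cons`). `g = 1 + t² ≠ 0` (`-1` is not a square). If `c' = 0`: `b' = 1 + t²`: `pf_two`.
Otherwise by `pure_sub` `pfi l ≅ pfi (c' :: m) = ρ ⊥ c' ρ`, `ρ = pfi m`. So
`pfi l ⊥ (-b') pfi l ≅ ρ ⊥ c' ρ ⊥ (-b') ρ ⊥ (-b' c') ρ`, `c' - b' = -g ≠ 0`, by `QIso.binary`
`c' ρ ⊥ (-b') ρ ≅ (-g) ρ ⊥ (c' (-b') (-g)) ρ`; so it is (permutation)
`≅ ρ ⊥ (-b' c') ρ ⊥ (-g) (ρ ⊥ (-b' c') ρ) = χ ⊥ (-g) χ`, `χ = pfi (-b' c' :: m)`, whose slots are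
nonzero, `i` of them. By `pf_two` (`g = 1² + t²`) there is `x` with `χ(x) = g`, and `y` with `χ(y) = 1`
(`pfi_sq`): `χ(x) + (-g) χ(y) = 0`, `x ≠ 0`. So `pfi l ⊥ (-b') pfi l` is isotropic:
`(x, y) ≠ 0`, `τ(x) = b' τ(y)`, `τ = pfi l`. If `τ` is isotropic it is universal. Otherwise `y ≠ 0`
(if `y = 0` then `τ(x) = 0`, `x = 0`), `τ(y) ≠ 0` and `b' = τ(x) τ(y) / τ(y)²` is a value (`pfi_mul`,
`qv_smul_arg`).

`level_le`: if `-1` is a square in `K` take `w = (x, 0, ..., 0)` (`2^i ≥ 1`). Otherwise `pf_sum` for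
`l = replicate i 1`: `pfi l = replicate (2^i) 1` (`pfi_one`).
-/

namespace Pool.Agent.H78.WL

variable {K : Type*} [Field K]

/-- regrouping of `pfi l ⊥ (-b) pfi l` for `pfi l ≅ pfi (c :: m)` -/
private theorem PfF_regroup {c b : K} (hcb : c + -b ≠ 0) (m : List K) :
    QIso (pfi (c :: m) ++ (pfi (c :: m)).map (-b * ·))
      (pfi (-b * c :: m) ++ (pfi (-b * c :: m)).map ((c + -b) * ·)) := by
  have h1 : pfi (c :: m) ++ (pfi (c :: m)).map (-b * ·) =
      (pfi m ++ (pfi m).map (c * ·)) ++ ((pfi m).map (-b * ·) ++ (pfi m).map (-b * c * ·)) := by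
    show (pfi m ++ (pfi m).map (c * ·)) ++ (pfi m ++ (pfi m).map (c * ·)).map (-b * ·) = _
    rw [List.map_append, List.map_map]
    congr 2
    refine List.map_congr_left fun x _ => ?_
    simp only [Function.comp_apply]
    ring
  have h2 : pfi (-b * c :: m) ++ (pfi (-b * c :: m)).map ((c + -b) * ·) =
      (pfi m ++ (pfi m).map (-b * c * ·)) ++
        ((pfi m).map ((c + -b) * ·) ++ (pfi m).map (c * -b * (c + -b) * ·)) := by
    show (pfi m ++ (pfi m).map (-b * c * ·)) ++
      (pfi m ++ (pfi m).map (-b * c * ·)).map ((c + -b) * ·) = _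
    rw [List.map_append, List.map_map]
    congr 2
    refine List.map_congr_left fun x _ => ?_
    simp only [Function.comp_apply]
    ring
  have h3 : (pfi (c :: m) ++ (pfi (c :: m)).map (-b * ·)).Perm
      ((pfi m ++ (pfi m).map (-b * c * ·)) ++ ((pfi m).map (c * ·) ++ (pfi m).map (-b * ·))) := by
    rw [h1, List.append_assoc, List.append_assoc]
    refine List.Perm.append_left _ ?_
    rw [← List.append_assoc]
    exact List.perm_append_comm
  rw [h2]
  exact (QIso.perm h3).trans (QIso.append (QIso.refl _) (QIso.binary hcb (pfi m)))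

private theorem PfF_zero (l : List K) : qv l 0 = 0 := by
  unfold qv
  refine Finset.sum_eq_zero fun j _ => ?_
  simp

theorem pf_sum {K : Type*} [Field K] [Algebra ℝ K] {i : ℕ} (hG : GrowI K i)
    (hns : ∀ x : K, x ^ 2 ≠ -1) (n : ℕ) :
    ∀ (l : List K), l.length = i → (∀ a ∈ l, a ≠ 0) → ∀ u : Fin n → K, ∑ j, u j ^ 2 ≠ 0 →
      ∃ x, qv (pfi l) x = ∑ j, u j ^ 2 := by
  have : CharZero K := charZero_of_injective_algebraMap (algebraMap ℝ K).injective
  induction n with
  | zero =>
    intro l _ _ u hu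
    exact absurd (by simp) hu
  | succ n ih =>
    intro l hli hl u hu
    rw [Fin.sum_univ_succ] at hu ⊢
    by_cases hu0 : u 0 = 0
    · rw [hu0] at hu ⊢
      have h0 : (0 : K) ^ 2 = 0 := by ring
      rw [h0, zero_add] at hu ⊢
      exact ih l hli hl (fun j => u j.succ) hu
    · obtain ⟨c, hc⟩ : ∃ c, c = ∑ j : Fin n, (u j.succ / u 0) ^ 2 := ⟨_, rfl⟩
      have hc2 : ∑ j : Fin n, u j.succ ^ 2 = u 0 ^ 2 * c := by
        rw [hc, Finset.mul_sum]
        refine Finset.sum_congr rfl fun j _ => ?_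
        field_simp
      rw [hc2] at hu ⊢
      have hb : 1 + c ≠ 0 := by
        intro h
        apply hu
        have : u 0 ^ 2 + u 0 ^ 2 * c = u 0 ^ 2 * (1 + c) := by ring
        rw [this, h, mul_zero]
      suffices h : ∃ x, qv (pfi l) x = 1 + c by
        obtain ⟨x, hx⟩ := h
        refine ⟨u 0 • x, ?_⟩
        rw [qv_smul_arg, hx]
        ring
      by_cases hc0 : c = 0
      · obtain ⟨x, hx⟩ := pfi_sq l 1
        exact ⟨x, by rw [hx, hc0]; ring⟩
      · obtain ⟨y, hy⟩ := ih l hli hl (fun j => u j.succ / u 0) (by rw [← hc]; exact hc0)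
        rw [← hc] at hy
        obtain ⟨t, c', hc', htc⟩ : ∃ t c' : K, (∃ x, qv (pft l) x = c') ∧ c = t ^ 2 + c' := by
          have h1 : ∃ y, qv (1 :: pft l) y = c := by
            rw [← pfi_eq]
            exact ⟨y, hy⟩
          obtain ⟨y1, hy1⟩ := h1
          obtain ⟨t, x, htx⟩ := qv_cons (pft l) y1
          exact ⟨t, _, ⟨x, rfl⟩, by rw [← hy1, htx]⟩
        have hg : (1 : K) ^ 2 + t ^ 2 ≠ 0 := by
          intro h
          apply hns t
          linear_combination h
        by_cases hc0' : c' = 0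
        · obtain ⟨x, hx⟩ := pf_two hG hns hli hl 1 t hg
          exact ⟨x, by rw [hx, htc, hc0']; ring⟩
        · obtain ⟨m, hm1, hm2, hm3⟩ := pure_sub hl hc0' hc'
          have hcb : c' + -(1 + c) = -(1 ^ 2 + t ^ 2) := by
            rw [htc]
            ring
          have hcb0 : c' + -(1 + c) ≠ 0 := by
            rw [hcb]
            exact neg_ne_zero.2 hg
          have hiso1 : QIso (pfi l ++ (pfi l).map (-(1 + c) * ·))
              (pfi (-(1 + c) * c' :: m) ++
                (pfi (-(1 + c) * c' :: m)).map ((c' + -(1 + c)) * ·)) :=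
            (QIso.append hm3 (QIso.smul _ hm3)).trans (PfF_regroup hcb0 m)
          have hsl : ∀ a ∈ -(1 + c) * c' :: m, a ≠ 0 := by
            intro a ha
            rcases List.mem_cons.1 ha with rfl | ha
            · exact mul_ne_zero (neg_ne_zero.2 hb) hc0'
            · exact hm2 a ha
          obtain ⟨x1, hx1⟩ := pf_two hG hns
            (show (-(1 + c) * c' :: m).length = i by rw [List.length_cons, hm1, hli]) hsl 1 t hg
          obtain ⟨y1, hy1⟩ := pfi_sq (-(1 + c) * c' :: m) 1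
          have hiso2 : ∃ x, x ≠ 0 ∧ qv (pfi (-(1 + c) * c' :: m) ++
                (pfi (-(1 + c) * c' :: m)).map ((c' + -(1 + c)) * ·)) x = 0 := by
            rw [qv_append_map_iso]
            refine ⟨x1, y1, Or.inl ?_, ?_⟩
            · intro h
              rw [h, PfF_zero] at hx1
              exact hg hx1.symm
            · rw [hx1, hy1, hcb]
              ring
          have hiso3 := QIso.isotropic hiso1.symm hiso2
          rw [qv_append_map_iso] at hiso3
          obtain ⟨x, y, hxy, hq⟩ := hiso3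
          by_cases hτ : ∃ x, x ≠ 0 ∧ qv (pfi l) x = 0
          · exact qv_universal (pfi_ne hl) hτ _
          · push Not at hτ
            have hy0 : y ≠ 0 := by
              rintro rfl
              rw [PfF_zero, mul_zero, add_zero] at hq
              rcases hxy with h | h
              · exact hτ x h hq
              · exact h rfl
            have hqy := hτ y hy0
            have hqx : qv (pfi l) x = (1 + c) * qv (pfi l) y := by
              linear_combination hq
            have hqx0 : qv (pfi l) x ≠ 0 := by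
              rw [hqx]
              exact mul_ne_zero hb hqy
            obtain ⟨z, hz⟩ := pfi_mul hl hqx0 ⟨x, rfl⟩ ⟨y, rfl⟩
            refine ⟨(qv (pfi l) y)⁻¹ • z, ?_⟩
            rw [qv_smul_arg, hz, hqx]
            field_simp

theorem level_le {K : Type*} [Field K] [Algebra ℝ K] {i : ℕ} (hG : GrowI K i) {n : ℕ}
    (u : Fin n → K) (h : -1 = ∑ j, u j ^ 2) : ∃ w : Fin (2 ^ i) → K, -1 = ∑ j, w j ^ 2 := by
  by_cases hsq : ∃ x : K, x ^ 2 = -1
  · obtain ⟨x, hx⟩ := hsq
    have hpos : 0 < 2 ^ i := by positivity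
    refine ⟨fun j => if j = ⟨0, hpos⟩ then x else 0, ?_⟩
    rw [Finset.sum_eq_single ⟨0, hpos⟩]
    · simp [hx]
    · intro b _ hb
      change (if b = ⟨0, hpos⟩ then x else 0) ^ 2 = 0
      rw [if_neg hb]
      ring
    · intro h
      exact absurd (Finset.mem_univ _) h
  · push Not at hsq
    have hne : ∑ j, u j ^ 2 ≠ 0 := by
      rw [← h]
      exact neg_ne_zero.2 one_ne_zero
    obtain ⟨x, hx⟩ := pf_sum hG hsq n (List.replicate i 1) List.length_replicate
      (fun a ha => by rw [List.eq_of_mem_replicate ha]; exact one_ne_zero) u hne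
    have h1 : ∃ x, qv (List.replicate (2 ^ i) (1 : K)) x = ∑ j, u j ^ 2 := by
      rw [← pfi_one]
      exact ⟨x, hx⟩
    obtain ⟨y, hy⟩ := h1
    refine ⟨fun j => y (Fin.cast List.length_replicate.symm j), ?_⟩
    rw [h, ← hy]
    unfold qv
    refine Fintype.sum_equiv (finCongr List.length_replicate) _ _ fun j => ?_
    simp

end Pool.Agent.H78.WL
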