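import Pool.Agent.H78.WL.RC
import Pool.Agent.H78.WL.KF

/-!
# wl_mod RF: perturbation of the array

`R1 W`: the array `W` is a linear combination of rank one arrays `a ↦ ∏_i ρ (a i)`.

Proof of `real_core`. Let `T = (Fin (2e) → Fin N) → ℝ`, `Φ v a = ∏_i v (a i)`,
`E = span (range Φ) ≤ T`, `π : T →ₗ E` a projection (`Submodule.exists_isCompl`, or
`LinearMap.exists_leftInverse_of_injective`), continuous (finite dimension). For
`W ∈ (Fin (2e) → Fin M) → ℝ` and `ν ∈ ℝ^M` put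
`t(W,ν)(b) = ∑_a W a ∏_i (ν (a i) * m (a i) (b i))` and `F (W,ν) = π (t (W,ν)) ∈ E`; polynomial, so `C¹`.

* `t(W,ν)(x) := ∑_b t(W,ν)(b) ∏_i x (b i) = Psi W (fun p => ν p * ∑_j m p j x j)`.
* If `W` is a combination of rank one arrays `∏ ρ (a i)`, then `t(W,ν)` is the same combination of
  the `Φ (∑_p ρ p ν p m_p)`, so it is in `E`.
* `t(W0,ν) = ∑_p ν p ^ (2e) Φ(m_p)` (the constant `a`; `2e ≥ 1`). With `ν0 p = μ p ^ (1/(2e)) > 0`:
  `t(W0,ν0) = ∑ μ_p Φ(m_p) =: T0 ∈ E` and `T0(x) = (∑ x_j²)^e`.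
* the derivative of `ν ↦ F (W0,ν) = ∑_p ν p^(2e) Φ(m_p)` at `ν0` is
  `δ ↦ ∑_p 2e ν0 p^(2e-1) δ p Φ(m_p)`, onto `E` as the `Φ(m_p)` span `E` (`hspan`) and
  `2e ν0 p^(2e-1) ≠ 0`.
* `ift_core` with `a0 = W0`, `b0 = ν0`: for `W` near `W0` there is `ν` with `F (W,ν) = T0`; if moreover
  `R1 W`, then `t(W,ν) ∈ E`, `t(W,ν) = T0`; evaluate at `x`.
-/

namespace Pool.Agent.H78.WL

open Filter Topology

/-- linear combination of rank one arrays -/
def R1 {d P : ℕ} (W : (Fin d → Fin P) → ℝ) : Prop :=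
  ∃ (k : ℕ) (γ : Fin k → ℝ) (ρ : Fin k → Fin P → ℝ), ∀ a, W a = ∑ l, γ l * ∏ i, ρ l (a i)

/-- the array of powers -/
private noncomputable def Ph {d N : ℕ} (v : Fin N → ℝ) : (Fin d → Fin N) → ℝ :=
  fun a => ∏ i, v (a i)

/-- the transformed array -/
private noncomputable def tt {d N M : ℕ} (m : Fin M → Fin N → ℝ) (W : (Fin d → Fin M) → ℝ)
    (ν : Fin M → ℝ) : (Fin d → Fin N) → ℝ :=
  fun b => ∑ a : Fin d → Fin M, W a * ∏ i, (ν (a i) * m (a i) (b i))

private theorem tt_eval {d N M : ℕ} (m : Fin M → Fin N → ℝ) (W : (Fin d → Fin M) → ℝ)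
    (ν : Fin M → ℝ) (x : Fin N → ℝ) :
    ∑ b, tt m W ν b * ∏ i, x (b i) = Psi W (fun p => ν p * ∑ j, m p j * x j) := by
  unfold tt Psi
  simp only [Finset.sum_mul]
  rw [Finset.sum_comm]
  refine Finset.sum_congr rfl fun a _ => ?_
  have h : ∏ i, (ν (a i) * ∑ j, m (a i) j * x j) =
      ∑ b : Fin d → Fin N, ∏ i, (ν (a i) * (m (a i) (b i) * x (b i))) := by
    simp only [Finset.mul_sum]
    rw [Finset.prod_univ_sum, Fintype.piFinset_univ]
  rw [h, Finset.mul_sum]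
  refine Finset.sum_congr rfl fun b _ => ?_
  rw [mul_assoc, ← Finset.prod_mul_distrib]
  congr 1
  refine Finset.prod_congr rfl fun i _ => ?_
  ring

private theorem tt_R1 {d N M : ℕ} (m : Fin M → Fin N → ℝ) (W : (Fin d → Fin M) → ℝ)
    (ν : Fin M → ℝ) (hW : R1 W) :
    tt m W ν ∈ Submodule.span ℝ (Set.range (Ph : (Fin N → ℝ) → (Fin d → Fin N) → ℝ)) := by
  obtain ⟨k, γ, ρ, h⟩ := hW
  have h1 : tt m W ν = ∑ l, γ l • (Ph (fun j => ∑ p, ρ l p * (ν p * m p j)) :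
      (Fin d → Fin N) → ℝ) := by
    funext b
    simp only [tt, Ph, Finset.sum_apply, Pi.smul_apply, smul_eq_mul, h, Finset.sum_mul]
    rw [Finset.sum_comm]
    refine Finset.sum_congr rfl fun l _ => ?_
    rw [Finset.prod_univ_sum, Fintype.piFinset_univ, Finset.mul_sum]
    refine Finset.sum_congr rfl fun a _ => ?_
    rw [mul_assoc, ← Finset.prod_mul_distrib]
  rw [h1]
  exact Submodule.sum_mem _ fun l _ =>
    Submodule.smul_mem _ _ (Submodule.subset_span ⟨_, rfl⟩)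

private theorem tt_W0 {d N M : ℕ} (hd : 1 ≤ d) (m : Fin M → Fin N → ℝ) (ν : Fin M → ℝ) :
    tt m (W0 d M) ν = ∑ p, ν p ^ d • (Ph (m p) : (Fin d → Fin N) → ℝ) := by
  funext b
  simp only [tt, Ph, Finset.sum_apply, Pi.smul_apply, smul_eq_mul]
  have hW : ∀ a : Fin d → Fin M, W0 d M a = ∑ p, if a = fun _ => p then (1 : ℝ) else 0 := by
    intro a
    unfold W0
    by_cases h : ∃ p, ∀ i, a i = p
    · rw [if_pos h]
      obtain ⟨p, hp⟩ := h
      have hp' : a = fun _ => p := funext hp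
      rw [Finset.sum_eq_single p]
      · rw [if_pos hp']
      · intro q _ hq
        rw [if_neg]
        intro h'
        apply hq
        have := congrFun h' ⟨0, hd⟩
        rw [hp] at this
        exact this.symm
      · intro h'
        exact absurd (Finset.mem_univ p) h'
    · rw [if_neg h]
      symm
      apply Finset.sum_eq_zero
      intro p _
      rw [if_neg]
      intro h'
      exact h ⟨p, fun i => congrFun h' i⟩
  simp only [hW, Finset.sum_mul]
  rw [Finset.sum_comm]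
  refine Finset.sum_congr rfl fun p _ => ?_
  simp only [ite_mul, one_mul, zero_mul, Finset.sum_ite_eq', Finset.mem_univ, if_true]
  rw [Finset.prod_mul_distrib, Finset.prod_const, Finset.card_univ, Fintype.card_fin]

theorem real_core (e N M : ℕ) (he : 1 ≤ e) (μ : Fin M → ℝ) (m : Fin M → Fin N → ℝ)
    (hμ : ∀ q, 0 < μ q)
    (hid : ∀ x : Fin N → ℝ, ∑ q, μ q * (∑ j, m q j * x j) ^ (2 * e) = (∑ j, x j ^ 2) ^ e)
    (hspan : ∀ v : Fin N → ℝ, (fun a : Fin (2 * e) → Fin N => ∏ i, v (a i)) ∈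
        Submodule.span ℝ (Set.range fun q : Fin M => fun a : Fin (2 * e) → Fin N =>
          ∏ i, m q (a i))) :
    ∀ᶠ W in 𝓝 (W0 (2 * e) M), R1 W → ∃ ν : Fin M → ℝ, ∀ x : Fin N → ℝ,
      Psi W (fun p => ν p * ∑ j, m p j * x j) = (∑ j, x j ^ 2) ^ e := by
  classical
  set E : Submodule ℝ ((Fin (2 * e) → Fin N) → ℝ) :=
    Submodule.span ℝ (Set.range (Ph : (Fin N → ℝ) → (Fin (2 * e) → Fin N) → ℝ)) with hE
  obtain ⟨π, hπ⟩ := LinearMap.exists_leftInverse_of_injective E.subtype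
    (LinearMap.ker_eq_bot.2 E.injective_subtype)
  have hπ' : ∀ y : E, π (y : (Fin (2 * e) → Fin N) → ℝ) = y := fun y => by
    have := LinearMap.congr_fun hπ y
    simpa using this
  set π' : ((Fin (2 * e) → Fin N) → ℝ) →L[ℝ] E := LinearMap.toContinuousLinearMap π with hπc
  have hπc' : ∀ y, π' y = π y := fun y => rfl
  set F : ((Fin (2 * e) → Fin M) → ℝ) × (Fin M → ℝ) → E := fun p => π' (tt m p.1 p.2) with hF
  have hFc : ContDiff ℝ 1 F := by
    refine π'.contDiff.comp ?_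
    unfold tt
    rw [contDiff_pi]
    intro b
    fun_prop
  -- the base point
  have h2e : (2 * e) ≠ 0 := by omega
  set ν0 : Fin M → ℝ := fun p => (μ p) ^ ((1 : ℝ) / ((2 * e : ℕ) : ℝ)) with hν0
  have hν0pos : ∀ p, 0 < ν0 p := fun p => Real.rpow_pos_of_pos (hμ p) _
  have hν0pow : ∀ p, ν0 p ^ (2 * e) = μ p := fun p => by
    rw [hν0]
    show ((μ p) ^ ((1 : ℝ) / ((2 * e : ℕ) : ℝ))) ^ (2 * e) = μ p
    rw [one_div]
    exact Real.rpow_inv_natCast_pow (hμ p).le h2e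
  -- elements of E
  set Q : Fin M → E := fun p => ⟨Ph (m p), Submodule.subset_span ⟨m p, rfl⟩⟩ with hQ
  have hFW0 : ∀ ν : Fin M → ℝ, F (W0 (2 * e) M, ν) = ∑ p, ν p ^ (2 * e) • Q p := by
    intro ν
    have h1 : tt m (W0 (2 * e) M) ν =
        ((∑ p, ν p ^ (2 * e) • Q p : E) : (Fin (2 * e) → Fin N) → ℝ) := by
      rw [tt_W0 (by omega) m ν]
      simp [hQ]
    show π' (tt m (W0 (2 * e) M) ν) = _
    rw [h1, hπc', hπ']
  -- derivative
  set F' : (Fin M → ℝ) →L[ℝ] E := ∑ p, ((((2 * e : ℕ) : ℝ) * ν0 p ^ (2 * e - 1)) •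
    (ContinuousLinearMap.proj (R := ℝ) (φ := fun _ : Fin M => ℝ) p)).smulRight (Q p) with hF'
  have hderiv : HasFDerivAt (fun ν => F (W0 (2 * e) M, ν)) F' ν0 := by
    have h1 : (fun ν => F (W0 (2 * e) M, ν)) = fun ν : Fin M → ℝ => ∑ p, ν p ^ (2 * e) • Q p :=
      funext hFW0
    rw [h1, hF']
    apply HasFDerivAt.fun_sum
    intro p _
    have h2 : HasFDerivAt (fun ν : Fin M → ℝ => ν p ^ (2 * e))
        ((((2 * e : ℕ) : ℝ) * ν0 p ^ (2 * e - 1)) •
          (ContinuousLinearMap.proj (R := ℝ) (φ := fun _ : Fin M => ℝ) p)) ν0 := by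
      have h3 : HasFDerivAt (fun ν : Fin M → ℝ => ν p)
          (ContinuousLinearMap.proj (R := ℝ) (φ := fun _ : Fin M => ℝ) p) ν0 :=
        (ContinuousLinearMap.proj (R := ℝ) (φ := fun _ : Fin M => ℝ) p).hasFDerivAt
      exact (hasDerivAt_pow (2 * e) (ν0 p)).comp_hasFDerivAt ν0 h3
    exact h2.smul_const (Q p)
  have hsurj : Function.Surjective F' := by
    intro y
    have hy : (y : (Fin (2 * e) → Fin N) → ℝ) ∈
        Submodule.span ℝ (Set.range fun q : Fin M => fun a : Fin (2 * e) → Fin N =>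
          ∏ i, m q (a i)) := by
      have hle : E ≤ Submodule.span ℝ (Set.range fun q : Fin M =>
          fun a : Fin (2 * e) → Fin N => ∏ i, m q (a i)) := by
        rw [hE, Submodule.span_le]
        rintro _ ⟨v, rfl⟩
        exact hspan v
      exact hle y.2
    rw [Submodule.mem_span_range_iff_exists_fun] at hy
    obtain ⟨c, hc⟩ := hy
    have hne : ∀ p, ((2 * e : ℕ) : ℝ) * ν0 p ^ (2 * e - 1) ≠ 0 := fun p =>
      mul_ne_zero (by exact_mod_cast h2e) (pow_ne_zero _ (hν0pos p).ne')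
    refine ⟨fun p => c p / (((2 * e : ℕ) : ℝ) * ν0 p ^ (2 * e - 1)), ?_⟩
    apply Subtype.ext
    rw [← hc, hF']
    simp only [sum_apply, ContinuousLinearMap.smulRight_apply,
      smul_apply, ContinuousLinearMap.proj_apply, smul_eq_mul,
      Submodule.coe_sum, Submodule.coe_smul]
    refine Finset.sum_congr rfl fun p _ => ?_
    rw [mul_div_cancel₀ _ (hne p)]
    rfl
  have hmain := ift_core F hFc (W0 (2 * e) M) ν0 F' hderiv hsurj
  filter_upwards [hmain] with W hW hR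
  obtain ⟨ν, hν⟩ := hW
  refine ⟨ν, fun x => ?_⟩
  have hmem : tt m W ν ∈ E := tt_R1 m W ν hR
  have h1 : (F (W, ν) : (Fin (2 * e) → Fin N) → ℝ) = tt m W ν := by
    have := hπ' ⟨tt m W ν, hmem⟩
    show ((π (tt m W ν) : E) : (Fin (2 * e) → Fin N) → ℝ) = _
    rw [this]
  have h2 : tt m W ν = tt m (W0 (2 * e) M) ν0 := by
    rw [← h1, hν, hFW0, tt_W0 (by omega) m ν0]
    simp [hQ]
  rw [← tt_eval m W ν x, h2, tt_W0 (by omega) m ν0, ← hid x]
  simp only [Finset.sum_apply, Pi.smul_apply, smul_eq_mul, hν0pow, Ph, Finset.sum_mul]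
  rw [Finset.sum_comm]
  refine Finset.sum_congr rfl fun p _ => ?_
  have h3 : (∑ j, m p j * x j) ^ (2 * e) =
      ∑ b : Fin (2 * e) → Fin N, ∏ i, (m p (b i) * x (b i)) := by
    have h4 := Finset.prod_univ_sum (fun _ : Fin (2 * e) => (Finset.univ : Finset (Fin N)))
      (fun _ j => m p j * x j)
    rw [Fintype.piFinset_univ] at h4
    rw [← h4, Finset.prod_const, Finset.card_univ, Fintype.card_fin]
  rw [h3, Finset.mul_sum]
  refine Finset.sum_congr rfl fun b _ => ?_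
  rw [Finset.prod_mul_distrib, mul_assoc]

end Pool.Agent.H78.WL
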