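import Pool.Agent.H78.WL.RB
import Pool.Agent.H78.WL.RF
import Pool.Agent.H78.WL.KI

/-!
# wl_mod RG: the real lemma

`kap_rank1`: Hilbert's identity for `N = 2`: `(σ²+τ²)^e = ∑_q λ_q (α_q σ + β_q τ)^(2e)`; `kap_coeff`
with `K = ℝ`, `c = 1`, `s = λ`, `x = α`, `y = β` gives
`kap e k = ∑_q λ_q α_q^k β_q^(2e-k)` for `k ≤ 2e`. With `k = cnt S a`:
`kap e (cnt S a) = ∑_q λ_q ∏_i (if a i ∈ S then α_q else β_q)`.

`R1_mul`, `R1_one`: products of combinations of rank one arrays.

`R1_WW`: from these (`WW e P D a = ∏_p kap e (cnt {p} a) ^ D`).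

`real_main`: take `hilbert_span e N`, `P = M`; `WW e M D → W0` (`WW_tendsto`), so for large `D` the
conclusion of `real_core` holds for `W = WW e M D`; `A p j = ν p * m p j`. `1 ≤ M`: otherwise
`(∑ x_j²)^e = 0` for all `x`.
-/

namespace Pool.Agent.H78.WL

open Filter Topology

theorem kap_rank1 (e P : ℕ) (S : Finset (Fin P)) (he : 1 ≤ e) :
    R1 (fun a : Fin (2 * e) → Fin P => kap e (cnt S a)) := by
  classical
  obtain ⟨M, μ, m, hμ, hid⟩ := hilbert_identity e 2 he (by norm_num)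
  have hk := kap_coeff (K := ℝ) (e := e) (n := M) μ (fun b => m b 0) (fun b => m b 1) 1 (by
    intro σ τ
    have h := hid ![σ, τ]
    simp only [Fin.sum_univ_two, Matrix.cons_val_zero, Matrix.cons_val_one] at h
    rw [one_mul, ← h]
    refine Finset.sum_congr rfl fun b _ => ?_
    ring)
  refine ⟨M, μ, fun l p => if p ∈ S then m l 0 else m l 1, fun a => ?_⟩
  have h := hk (cnt S a) (cnt_le S a)
  rw [one_mul] at h
  have h' : kap e (cnt S a) = ∑ b, μ b * (m b 0 ^ cnt S a * m b 1 ^ (2 * e - cnt S a)) := by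
    rw [h]; rfl
  refine h'.trans ?_
  refine Finset.sum_congr rfl fun b _ => ?_
  congr 1
  rw [Finset.prod_ite, Finset.prod_const, Finset.prod_const]
  have h1 : (Finset.univ.filter fun i => a i ∈ S).card = cnt S a := rfl
  have h2 : (Finset.univ.filter fun i => ¬ a i ∈ S).card = 2 * e - cnt S a := by
    have h3 := Finset.card_filter_add_card_filter_not (s := (Finset.univ : Finset (Fin (2 * e))))
      (fun i => a i ∈ S)
    rw [h1, Finset.card_univ, Fintype.card_fin] at h3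
    omega
  rw [h1, h2]

theorem R1_one (d P : ℕ) : R1 (fun _ : Fin d → Fin P => 1) := by
  refine ⟨1, fun _ => 1, fun _ _ => 1, fun a => ?_⟩
  simp

theorem R1_mul {d P : ℕ} {W W' : (Fin d → Fin P) → ℝ} (h : R1 W) (h' : R1 W') :
    R1 (fun a => W a * W' a) := by
  obtain ⟨k, γ, ρ, hW⟩ := h
  obtain ⟨k', γ', ρ', hW'⟩ := h'
  refine ⟨k * k', fun l => γ (finProdFinEquiv.symm l).1 * γ' (finProdFinEquiv.symm l).2,
    fun l p => ρ (finProdFinEquiv.symm l).1 p * ρ' (finProdFinEquiv.symm l).2 p, fun a => ?_⟩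
  have h1 : ∑ l, γ (finProdFinEquiv.symm l).1 * γ' (finProdFinEquiv.symm l).2 *
      ∏ i, (ρ (finProdFinEquiv.symm l).1 (a i) * ρ' (finProdFinEquiv.symm l).2 (a i))
      = ∑ x : Fin k × Fin k', γ x.1 * γ' x.2 * ∏ i, (ρ x.1 (a i) * ρ' x.2 (a i)) :=
    Equiv.sum_comp finProdFinEquiv.symm
      (fun x : Fin k × Fin k' => γ x.1 * γ' x.2 * ∏ i, (ρ x.1 (a i) * ρ' x.2 (a i)))
  rw [h1, Fintype.sum_prod_type]
  change W a * W' a = _
  rw [hW, hW', Finset.sum_mul_sum]
  refine Finset.sum_congr rfl fun x _ => Finset.sum_congr rfl fun y _ => ?_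
  rw [Finset.prod_mul_distrib]
  ring

private lemma RG_pow {d P : ℕ} {W : (Fin d → Fin P) → ℝ} (h : R1 W) (n : ℕ) :
    R1 (fun a => W a ^ n) := by
  induction n with
  | zero => simpa using R1_one d P
  | succ n ih =>
    have := R1_mul ih h
    simpa [pow_succ] using this

private lemma RG_prod {d P : ℕ} {ι : Type*} (s : Finset ι) (W : ι → (Fin d → Fin P) → ℝ)
    (h : ∀ i ∈ s, R1 (W i)) : R1 (fun a => ∏ i ∈ s, W i a) := by
  classical
  induction s using Finset.induction_on with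
  | empty => simpa using R1_one d P
  | insert i s hi ih =>
    have h1 := R1_mul (h i (Finset.mem_insert_self _ _))
      (ih fun j hj => h j (Finset.mem_insert_of_mem hj))
    have h2 : (fun a => ∏ j ∈ insert i s, W j a) = fun a => W i a * ∏ j ∈ s, W j a := by
      funext a; rw [Finset.prod_insert hi]
    rw [h2]; exact h1

theorem R1_WW (e P D : ℕ) (he : 1 ≤ e) : R1 (WW e P D) := by
  have h := RG_prod (Finset.univ : Finset (Fin P))
    (fun p => fun a : Fin (2 * e) → Fin P => kap e (cnt {p} a) ^ D)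
    (fun p _ => RG_pow (kap_rank1 e P {p} he) D)
  exact h

theorem real_main (e N : ℕ) (he : 1 ≤ e) (hN : 1 ≤ N) :
    ∃ (P D : ℕ) (A : Fin P → Fin N → ℝ), 1 ≤ P ∧
      ∀ x : Fin N → ℝ, Psi (WW e P D) (fun p => ∑ j, A p j * x j) = (∑ j, x j ^ 2) ^ e := by
  classical
  obtain ⟨M, μ, m, hμ, hid, hspan⟩ := hilbert_span e N he hN
  have hcore := real_core e N M he μ m hμ hid hspan
  have hev := (WW_tendsto (P := M) he).eventually hcore
  obtain ⟨D, hD⟩ := hev.exists
  obtain ⟨ν, hν⟩ := hD (R1_WW e M D he)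
  refine ⟨M, D, fun p j => ν p * m p j, ?_, ?_⟩
  · by_contra hM
    have hM0 : M = 0 := by omega
    subst hM0
    have h := hid (Pi.single ⟨0, hN⟩ 1)
    have h1 : ∑ j : Fin N, (Pi.single (⟨0, hN⟩ : Fin N) (1 : ℝ) : Fin N → ℝ) j ^ 2 = 1 := by
      rw [Finset.sum_eq_single (⟨0, hN⟩ : Fin N)]
      · simp
      · intro b _ hb; simp [Pi.single_eq_of_ne hb]
      · intro h; exact absurd (Finset.mem_univ _) h
    rw [h1, one_pow] at h
    simp at h
  · intro x
    rw [← hν x]
    congr 1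
    funext p
    rw [Finset.mul_sum]
    exact Finset.sum_congr rfl fun j _ => by ring

end Pool.Agent.H78.WL
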