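import Pool.Agent.H78.WL.GD
import Pool.Agent.H78.WL.OD
import Pool.Agent.H78.WL.DE
import Pool.Agent.H78.WL.RG
import Pool.Agent.H78.WL.BrD
import Pool.Agent.H78.WL.Conv
import Pool.Agent.H78.WL.PfF

/-!
# wl_mod Main: the weak Lang conjecture in all dimensions and degrees
-/

namespace Pool.Agent.H78.WL

open MvPolynomial

universe u

/-- data for the diagonal forms of degree `d` -/
theorem diag_bound (i d : ℕ) (hd : 1 ≤ d) : ∃ N : ℕ, ∀ (K : Type u) [Field K] [Algebra ℝ K],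
    GrowI K i → (∃ (n : ℕ) (a : Fin n → K), -1 = ∑ j, a j ^ 2) → ∀ s : Fin N → K,
      ∃ x : Fin N → K, x ≠ 0 ∧ ∑ b, s b * x b ^ d = 0 := by
  rcases Nat.even_or_odd' d with ⟨e, rfl | rfl⟩
  · have he : 1 ≤ e := by omega
    obtain ⟨P, D, A, hP, hreal⟩ := real_main e (2 ^ i + 1) he (Nat.le_add_left 1 _)
    refine ⟨(e * (2 * e) ^ i + 1) ^ (P * D), fun K _ _ hG hl s => ?_⟩
    obtain ⟨n, a, ha⟩ := hl
    obtain ⟨w, hw⟩ := level_le hG a ha
    refine diag_even hG he (Nat.lt_succ_self _) hP A hreal (Fin.cons 1 w) ?_ ?_ s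
    · intro h
      have := congrFun h 0
      simp at this
    · rw [Fin.sum_univ_succ]
      simp only [Fin.cons_zero, Fin.cons_succ, one_pow]
      rw [← hw]
      ring
  · refine ⟨((2 * e + 1 + 1) / 2) * (2 * e + 1) ^ i + 1, fun K _ _ hG _ s => ?_⟩
    exact odd_diag hG ⟨e, rfl⟩ (Nat.lt_succ_self _) s

theorem sq_of_isSumSq {K : Type*} [Field K] {a : K} (h : IsSumSq a) :
    ∃ (n : ℕ) (u : Fin n → K), a = ∑ j, u j ^ 2 := by
  induction h with
  | zero => exact ⟨0, fun _ => 0, by simp⟩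
  | sq_add x hs ih =>
    obtain ⟨n, u, hu⟩ := ih
    refine ⟨n + 1, Fin.cons x u, ?_⟩
    rw [Fin.sum_univ_succ]
    simp only [Fin.cons_zero, Fin.cons_succ]
    rw [← hu, pow_two]

/-- the weak Lang conjecture in all dimensions and all degrees -/
theorem weak_lang_all (i d r t : ℕ) : ∃ N : ℕ, ∀ (K : Type u) [Field K] [Algebra ℝ K],
    Algebra.trdeg ℝ K ≤ i → IsSumSq (-1 : K) →
    ∀ n : ℕ, N ≤ n → ∀ f : Fin r → MvPolynomial (Fin n) K,
    (∀ j, ∃ e, 1 ≤ e ∧ e ≤ d ∧ (f j).IsHomogeneous e) →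
    ∃ U : Submodule K (Fin n → K), t ≤ Module.finrank K U ∧ ∀ x ∈ U, ∀ j, eval x (f j) = 0 := by
  classical
  choose! φ hφ using fun (d : ℕ) (hd : 1 ≤ d) => diag_bound.{u} i d hd
  obtain ⟨N, hN⟩ := ZZ_all.{u} φ d r t
  refine ⟨N, fun K _ _ htr hs n hn f hf => ?_⟩
  have hl := sq_of_isSumSq hs
  have hG : GrowI K i := growI_of_trdeg htr
  have hdi : DiagIso K d φ := fun d' h1 _ s => hφ d' h1 K hG hl s
  choose e he1 he2 he3 using hf
  exact hN K hdi (Fin n → K) (by rw [Module.finrank_fintype_fun_eq_card, Fintype.card_fin]; exact hn)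
    (Fin r) (by rw [Fintype.card_fin]) (fun j x => eval x (f j)) e
    (fun j => ⟨he1 j, he2 j, isFrm_of_isHomogeneous (he3 j)⟩)

end Pool.Agent.H78.WL
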