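import Pool.Agent.H78.WL.Defs

/-!
# wl_mod PfA: diagonal quadratic forms given by lists, first part

`qv l x = ∑_j l_j x_j²`. `QIso l l'`: the forms are isometric. All statements are elementary. It may be
convenient to use the linear equivalence
`(Fin (l ++ m).length → K) ≃ (Fin l.length → K) × (Fin m.length → K)` (`Fin.appendEquiv`,
`Fin.append`, `List.length_append`, `Fin.sum_univ_add`): prove first
`qv (l ++ m) x = qv l (left x) + qv m (right x)` for such an equivalence (`exists_split`). For
permutations use induction on `List.Perm` (`cons`: `QIso.append (QIso.refl [a])`, `swap`: swap the first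
two entries), or the bijection of the index sets.

`QIso.binary`: `a + b ≠ 0`: isometry `(x', y') ↦ (x' - b y', x' + a y')` of `(a+b) τ ⊥ a b (a+b) τ` with
`a τ ⊥ b τ`: `a τ(x' - b y') + b τ(x' + a y') = (a+b) τ(x') + a b (a + b) τ(y')` (compare the
coordinates `a τ_j (x' - b y')² + b τ_j (x' + a y')²`); the inverse is
`x' = (a x + b y)/(a+b)`, `y' = (y - x)/(a+b)`.
-/

namespace Pool.Agent.H78.WL

variable {K : Type*} [Field K]

/-- value of the diagonal quadratic form with coefficients `l` -/
def qv (l : List K) (x : Fin l.length → K) : K := ∑ j, l.get j * x j ^ 2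

/-- isometric diagonal forms -/
def QIso (l l' : List K) : Prop :=
  ∃ E : (Fin l.length → K) ≃ₗ[K] (Fin l'.length → K), ∀ x, qv l' (E x) = qv l x

theorem QIso.refl (l : List K) : QIso l l := ⟨LinearEquiv.refl K _, fun _ => rfl⟩

theorem QIso.symm {l l' : List K} (h : QIso l l') : QIso l' l := by
  obtain ⟨E, hE⟩ := h
  exact ⟨E.symm, fun x => by rw [← hE, E.apply_symm_apply]⟩

theorem QIso.trans {l l' l'' : List K} (h : QIso l l') (h' : QIso l' l'') : QIso l l'' := by
  obtain ⟨E, hE⟩ := h
  obtain ⟨E', hE'⟩ := h'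
  exact ⟨E.trans E', fun x => by rw [LinearEquiv.trans_apply, hE', hE]⟩

/-- coordinates of an orthogonal sum -/
theorem exists_split (l m : List K) :
    ∃ E : (Fin (l ++ m).length → K) ≃ₗ[K] ((Fin l.length → K) × (Fin m.length → K)),
      ∀ x, qv (l ++ m) x = qv l (E x).1 + qv m (E x).2 := by
  let e : Fin l.length ⊕ Fin m.length ≃ Fin (l ++ m).length :=
    finSumFinEquiv.trans (finCongr List.length_append.symm)
  refine ⟨(LinearEquiv.funCongrLeft K K e).trans (LinearEquiv.sumArrowLequivProdArrow _ _ K K),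
    fun x => ?_⟩
  unfold qv
  rw [← Equiv.sum_comp e, Fintype.sum_sum_type]
  congr 1
  · refine Finset.sum_congr rfl fun i _ => ?_
    have h1 : (l ++ m).get (e (Sum.inl i)) = l.get i := by
      simp [e, List.get_eq_getElem, List.getElem_append_left]
    rw [h1]
    rfl
  · refine Finset.sum_congr rfl fun i _ => ?_
    have h1 : (l ++ m).get (e (Sum.inr i)) = m.get i := by
      simp [e, List.get_eq_getElem, List.getElem_append_right]
    rw [h1]
    rfl

/-- coordinates of a scaled form -/
theorem exists_scale (c : K) (l : List K) :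
    ∃ E : (Fin (l.map (c * ·)).length → K) ≃ₗ[K] (Fin l.length → K),
      ∀ x, qv (l.map (c * ·)) x = c * qv l (E x) := by
  let e : Fin l.length ≃ Fin (l.map (c * ·)).length := finCongr (List.length_map _).symm
  refine ⟨LinearEquiv.funCongrLeft K K e, fun x => ?_⟩
  unfold qv
  rw [← Equiv.sum_comp e, Finset.mul_sum]
  refine Finset.sum_congr rfl fun i _ => ?_
  have h1 : (l.map (c * ·)).get (e i) = c * l.get i := by
    simp [e, List.get_eq_getElem]
  rw [h1, mul_assoc]
  rfl

theorem QIso.append {l l' m m' : List K} (h : QIso l l') (h' : QIso m m') :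
    QIso (l ++ m) (l' ++ m') := by
  obtain ⟨E, hE⟩ := h
  obtain ⟨E', hE'⟩ := h'
  obtain ⟨S, hS⟩ := exists_split l m
  obtain ⟨S', hS'⟩ := exists_split l' m'
  refine ⟨(S.trans (E.prodCongr E')).trans S'.symm, fun x => ?_⟩
  rw [hS', hS, LinearEquiv.trans_apply, LinearEquiv.apply_symm_apply, LinearEquiv.trans_apply]
  show qv l' (E (S x).1) + qv m' (E' (S x).2) = _
  rw [hE, hE']

private theorem PfA_swap (a b : K) : QIso [b, a] [a, b] := by
  refine ⟨LinearEquiv.funCongrLeft K K (Equiv.swap (0 : Fin 2) 1), fun x => ?_⟩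
  unfold qv
  show ∑ j : Fin 2, [a, b].get j * (x (Equiv.swap (0 : Fin 2) 1 j)) ^ 2 =
    ∑ j : Fin 2, [b, a].get j * x j ^ 2
  rw [Fin.sum_univ_two, Fin.sum_univ_two, Equiv.swap_apply_left, Equiv.swap_apply_right]
  show a * x 1 ^ 2 + b * x 0 ^ 2 = b * x 0 ^ 2 + a * x 1 ^ 2
  ring

theorem QIso.perm {l l' : List K} (h : l.Perm l') : QIso l l' := by
  induction h with
  | nil => exact QIso.refl _
  | cons a _ ih => exact QIso.append (QIso.refl [a]) ih
  | swap a b l => exact QIso.append (PfA_swap a b) (QIso.refl l)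
  | trans _ _ ih1 ih2 => exact ih1.trans ih2

theorem QIso.smul (c : K) {l l' : List K} (h : QIso l l') :
    QIso (l.map (c * ·)) (l'.map (c * ·)) := by
  obtain ⟨E, hE⟩ := h
  obtain ⟨S, hS⟩ := exists_scale c l
  obtain ⟨S', hS'⟩ := exists_scale c l'
  refine ⟨(S.trans E).trans S'.symm, fun x => ?_⟩
  rw [hS', hS, LinearEquiv.trans_apply, LinearEquiv.apply_symm_apply, LinearEquiv.trans_apply, hE]

/-- scaling by a nonzero square -/
theorem QIso.sq (c : K) (hc : c ≠ 0) (l : List K) : QIso (l.map (c ^ 2 * ·)) l := by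
  obtain ⟨S, hS⟩ := exists_scale (c ^ 2) l
  refine ⟨S.trans (LinearEquiv.smulOfNeZero K _ c hc), fun x => ?_⟩
  rw [hS, LinearEquiv.trans_apply]
  show qv l (c • S x) = _
  unfold qv
  rw [Finset.mul_sum]
  refine Finset.sum_congr rfl fun i _ => ?_
  rw [Pi.smul_apply, smul_eq_mul]
  ring

private theorem PfA_pair {a b : K} (h : a + b ≠ 0) (n : ℕ) :
    ∃ F : ((Fin n → K) × (Fin n → K)) ≃ₗ[K] ((Fin n → K) × (Fin n → K)),
      ∀ p, F p = (p.1 - b • p.2, p.1 + a • p.2) := by
  refine ⟨{ toFun := fun p => (p.1 - b • p.2, p.1 + a • p.2)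
            map_add' := ?_
            map_smul' := ?_
            invFun := fun p => ((a + b)⁻¹ • (a • p.1 + b • p.2), (a + b)⁻¹ • (p.2 - p.1))
            left_inv := ?_
            right_inv := ?_ }, fun p => rfl⟩
  · intro p q
    refine Prod.ext ?_ ?_
    · funext j
      simp only [Prod.fst_add, Prod.snd_add, Pi.sub_apply, Pi.add_apply, Pi.smul_apply,
        smul_eq_mul]
      ring
    · funext j
      simp only [Prod.fst_add, Prod.snd_add, Pi.add_apply, Pi.smul_apply,
        smul_eq_mul]
      ring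
  · intro c p
    refine Prod.ext ?_ ?_
    · funext j
      simp only [Prod.smul_fst, Prod.smul_snd, Pi.sub_apply, Pi.smul_apply,
        smul_eq_mul, RingHom.id_apply]
      ring
    · funext j
      simp only [Prod.smul_fst, Prod.smul_snd, Pi.add_apply, Pi.smul_apply,
        smul_eq_mul, RingHom.id_apply]
      ring
  · intro p
    refine Prod.ext ?_ ?_
    · funext j
      simp only [Pi.sub_apply, Pi.add_apply, Pi.smul_apply, smul_eq_mul]
      field_simp
      ring
    · funext j
      simp only [Pi.sub_apply, Pi.add_apply, Pi.smul_apply, smul_eq_mul]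
      field_simp
      ring
  · intro p
    refine Prod.ext ?_ ?_
    · funext j
      simp only [Pi.sub_apply, Pi.add_apply, Pi.smul_apply, smul_eq_mul]
      field_simp
      ring
    · funext j
      simp only [Pi.sub_apply, Pi.add_apply, Pi.smul_apply, smul_eq_mul]
      field_simp
      ring

theorem QIso.binary {a b : K} (h : a + b ≠ 0) (τ : List K) :
    QIso (τ.map (a * ·) ++ τ.map (b * ·))
      (τ.map ((a + b) * ·) ++ τ.map (a * b * (a + b) * ·)) := by
  refine QIso.symm ?_
  obtain ⟨S, hS⟩ := exists_split (τ.map (a * ·)) (τ.map (b * ·))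
  obtain ⟨S', hS'⟩ := exists_split (τ.map ((a + b) * ·)) (τ.map (a * b * (a + b) * ·))
  obtain ⟨A, hA⟩ := exists_scale a τ
  obtain ⟨B, hB⟩ := exists_scale b τ
  obtain ⟨C, hC⟩ := exists_scale (a + b) τ
  obtain ⟨D, hD⟩ := exists_scale (a * b * (a + b)) τ
  obtain ⟨F, hF⟩ := PfA_pair h τ.length
  refine ⟨((S'.trans (C.prodCongr D)).trans F).trans ((A.prodCongr B).symm.trans S.symm),
    fun x => ?_⟩
  rw [hS, hS', hA, hB, hC, hD]
  simp only [LinearEquiv.trans_apply, LinearEquiv.apply_symm_apply]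
  obtain ⟨p, hp⟩ : ∃ p, p = (C.prodCongr D) (S' x) := ⟨_, rfl⟩
  have h1 : C (S' x).1 = p.1 := by rw [hp]; rfl
  have h2 : D (S' x).2 = p.2 := by rw [hp]; rfl
  rw [h1, h2, ← hp]
  have h3 : A ((A.prodCongr B).symm (F p)).1 = (F p).1 := by
    show ((A.prodCongr B) ((A.prodCongr B).symm (F p))).1 = _
    rw [LinearEquiv.apply_symm_apply]
  have h4 : B ((A.prodCongr B).symm (F p)).2 = (F p).2 := by
    show ((A.prodCongr B) ((A.prodCongr B).symm (F p))).2 = _
    rw [LinearEquiv.apply_symm_apply]
  rw [h3, h4, hF]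
  unfold qv
  rw [Finset.mul_sum, Finset.mul_sum, Finset.mul_sum, Finset.mul_sum, ← Finset.sum_add_distrib,
    ← Finset.sum_add_distrib]
  refine Finset.sum_congr rfl fun i _ => ?_
  simp only [Pi.sub_apply, Pi.add_apply, Pi.smul_apply, smul_eq_mul]
  ring

end Pool.Agent.H78.WL
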