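import Pool.Agent.H78.WL.PfA

/-!
# wl_mod PfB: values of diagonal quadratic forms

Use `exists_split`, `exists_scale` (a linear equivalence maps nonzero vectors to nonzero vectors).

`qv_universal`: let `q(x) = 0`, `x ≠ 0`, say `x_j ≠ 0`. With `y = e_j`,
`q(s x + y) = 2 s l_j x_j + l_j`, choose `s = (g - l_j)/(2 l_j x_j)`.
-/

namespace Pool.Agent.H78.WL

variable {K : Type*} [Field K]

/-- values -/
theorem QIso.value {l l' : List K} (h : QIso l l') {c : K} (hc : ∃ x, qv l x = c) :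
    ∃ x, qv l' x = c := by
  obtain ⟨E, hE⟩ := h
  obtain ⟨x, hx⟩ := hc
  exact ⟨E x, by rw [hE, hx]⟩

/-- isotropy -/
theorem QIso.isotropic {l l' : List K} (h : QIso l l') (hc : ∃ x, x ≠ 0 ∧ qv l x = 0) :
    ∃ x, x ≠ 0 ∧ qv l' x = 0 := by
  obtain ⟨E, hE⟩ := h
  obtain ⟨x, hx0, hx⟩ := hc
  exact ⟨E x, (LinearEquiv.map_ne_zero_iff E).2 hx0, by rw [hE, hx]⟩

theorem qv_append (l m : List K) (c : K) :
    (∃ x, qv (l ++ m) x = c) ↔ ∃ x y, qv l x + qv m y = c := by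
  obtain ⟨S, hS⟩ := exists_split l m
  constructor
  · rintro ⟨x, hx⟩
    exact ⟨(S x).1, (S x).2, by rw [← hS, hx]⟩
  · rintro ⟨x, y, hxy⟩
    refine ⟨S.symm (x, y), ?_⟩
    rw [hS, LinearEquiv.apply_symm_apply, hxy]

theorem qv_append_iso (l m : List K) :
    (∃ x, x ≠ 0 ∧ qv (l ++ m) x = 0) ↔ ∃ x y, (x ≠ 0 ∨ y ≠ 0) ∧ qv l x + qv m y = 0 := by
  obtain ⟨S, hS⟩ := exists_split l m
  constructor
  · rintro ⟨x, hx0, hx⟩
    refine ⟨(S x).1, (S x).2, ?_, by rw [← hS, hx]⟩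
    by_contra hcon
    rw [not_or, not_not, not_not] at hcon
    exact (LinearEquiv.map_ne_zero_iff S).2 hx0 (Prod.ext hcon.1 hcon.2)
  · rintro ⟨x, y, h0, hxy⟩
    refine ⟨S.symm (x, y), (LinearEquiv.map_ne_zero_iff S.symm).2 ?_, ?_⟩
    · intro h
      rcases h0 with h0 | h0
      · exact h0 (congrArg Prod.fst h)
      · exact h0 (congrArg Prod.snd h)
    · rw [hS, LinearEquiv.apply_symm_apply, hxy]

theorem qv_map (c : K) (l : List K) (g : K) :
    (∃ x, qv (l.map (c * ·)) x = g) ↔ ∃ x, c * qv l x = g := by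
  obtain ⟨S, hS⟩ := exists_scale c l
  constructor
  · rintro ⟨x, hx⟩
    exact ⟨S x, by rw [← hS, hx]⟩
  · rintro ⟨x, hx⟩
    refine ⟨S.symm x, ?_⟩
    rw [hS, LinearEquiv.apply_symm_apply, hx]

/-- isotropy of `l ⊥ c l` -/
theorem qv_append_map_iso (c : K) (l : List K) :
    (∃ x, x ≠ 0 ∧ qv (l ++ l.map (c * ·)) x = 0) ↔
      ∃ x y : Fin l.length → K, (x ≠ 0 ∨ y ≠ 0) ∧ qv l x + c * qv l y = 0 := by
  rw [qv_append_iso]
  obtain ⟨S, hS⟩ := exists_scale c l
  constructor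
  · rintro ⟨x, y, h0, hxy⟩
    refine ⟨x, S y, ?_, by rw [← hS, hxy]⟩
    rcases h0 with h0 | h0
    · exact Or.inl h0
    · exact Or.inr ((LinearEquiv.map_ne_zero_iff S).2 h0)
  · rintro ⟨x, y, h0, hxy⟩
    refine ⟨x, S.symm y, ?_, by rw [hS, LinearEquiv.apply_symm_apply, hxy]⟩
    rcases h0 with h0 | h0
    · exact Or.inl h0
    · exact Or.inr ((LinearEquiv.map_ne_zero_iff S.symm).2 h0)

private theorem PfB_cons (a : K) (l : List K) (y : Fin (l.length + 1) → K) :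
    qv (a :: l) y = a * y 0 ^ 2 + qv l (fun j => y j.succ) := by
  unfold qv
  exact Fin.sum_univ_succ (fun j : Fin (l.length + 1) => (a :: l).get j * y j ^ 2)

theorem qv_cons_value (l : List K) (t : K) (x : Fin l.length → K) :
    ∃ y, qv (1 :: l) y = t ^ 2 + qv l x := by
  refine ⟨(Fin.cons t x : Fin (l.length + 1) → K), ?_⟩
  rw [PfB_cons, one_mul]
  rfl

theorem qv_cons (l : List K) (y : Fin (1 :: l).length → K) :
    ∃ (t : K) (x : Fin l.length → K), qv (1 :: l) y = t ^ 2 + qv l x := by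
  refine ⟨(show Fin (l.length + 1) → K from y) 0,
    fun j => (show Fin (l.length + 1) → K from y) j.succ, ?_⟩
  have h := PfB_cons (1 : K) l y
  rw [one_mul] at h
  exact h

theorem qv_smul_arg (l : List K) (t : K) (x : Fin l.length → K) :
    qv l (t • x) = t ^ 2 * qv l x := by
  unfold qv
  rw [Finset.mul_sum]
  refine Finset.sum_congr rfl fun i _ => ?_
  rw [Pi.smul_apply, smul_eq_mul]
  ring

/-- an isotropic diagonal form with nonzero coefficients is universal -/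
theorem qv_universal [CharZero K] {l : List K} (hl : ∀ a ∈ l, a ≠ 0)
    (h : ∃ x, x ≠ 0 ∧ qv l x = 0) (g : K) : ∃ x, qv l x = g := by
  obtain ⟨x, hx0, hx⟩ := h
  obtain ⟨j, hj⟩ : ∃ j, x j ≠ 0 := by
    by_contra hcon
    push Not at hcon
    exact hx0 (funext hcon)
  have hlj : l.get j ≠ 0 := hl _ (List.get_mem l j)
  obtain ⟨s, hs⟩ : ∃ s : K, s = (g - l.get j) / (2 * l.get j * x j) := ⟨_, rfl⟩
  refine ⟨fun i => s * x i + (if i = j then 1 else 0), ?_⟩
  have h1 : qv l (fun i => s * x i + (if i = j then 1 else 0)) =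
      s ^ 2 * qv l x + ∑ i, (if i = j then l.get i * (2 * s * x i + 1) else 0) := by
    unfold qv
    rw [Finset.mul_sum, ← Finset.sum_add_distrib]
    refine Finset.sum_congr rfl fun i _ => ?_
    beta_reduce
    by_cases hi : i = j
    · rw [if_pos hi, if_pos hi]
      ring
    · rw [if_neg hi, if_neg hi]
      ring
  rw [h1, hx, Finset.sum_ite_eq' Finset.univ j, if_pos (Finset.mem_univ j), hs]
  have h2 : (2 : K) ≠ 0 := two_ne_zero
  field_simp
  ring

end Pool.Agent.H78.WL
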