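import Pool.Agent.H78.WL.PfB

/-!
# wl_mod PfC: Pfister forms are multiplicative

`pfi [] = [1]`, `pfi (a :: l) = pfi l ++ a * pfi l`.

`pfi_mult`, induction on `l`; write `τ = pfi l`. `l = []`: `c = x²`, `x ≠ 0`, `QIso.sq`.
`a :: l`: `c = p + a q`, `p`, `q` values of `τ` (`qv_append`, `qv_map`).
* `p ≠ 0`, `q ≠ 0`: `p τ ≅ τ`, `q τ ≅ τ`, so `τ ⊥ a τ ≅ p τ ⊥ (a q) τ`, by `QIso.binary`
  `≅ c τ ⊥ (p (a q) c) τ`, and `p q τ ≅ τ` gives `(p a q c) τ ≅ (c a) τ`; so it is `c (τ ⊥ a τ)`.
* `q = 0`: `c = p`, `c τ ≅ τ`, so `c (τ ⊥ a τ) ≅ τ ⊥ a τ`.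
* `p = 0`: `c = a q`: `c τ ⊥ c a τ = (a q) τ ⊥ (a² q) τ ≅ a τ ⊥ q τ ≅ a τ ⊥ τ ≅ τ ⊥ a τ`
  (`QIso.sq`, `QIso.perm` `List.perm_append_comm`).
(Use `List.map_map` and `Function.comp_def` for the products of scalings.)

`pfi_mul`: `c τ ≅ τ`, `τ(y) = c'`.
-/

namespace Pool.Agent.H78.WL

variable {K : Type*} [Field K]

/-- the Pfister form `⟨1, a_1⟩ ⊗ ... ⊗ ⟨1, a_n⟩` -/
def pfi : List K → List K
  | [] => [1]
  | a :: l => pfi l ++ (pfi l).map (a * ·)

private theorem mm (a c : K) (l : List K) :
    (l.map (a * ·)).map (c * ·) = l.map (c * a * ·) := by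
  rw [List.map_map]
  apply List.map_congr_left
  intro x _
  simp [mul_assoc]

private theorem qv_zero (l : List K) : qv l 0 = 0 := by
  simp [qv]

theorem pfi_ne {l : List K} (hl : ∀ a ∈ l, a ≠ 0) : ∀ c ∈ pfi l, c ≠ 0 := by
  induction l with
  | nil => intro c hc; simp only [pfi, List.mem_singleton] at hc; rw [hc]; exact one_ne_zero
  | cons a l ih =>
    have ih' := ih (fun b hb => hl b (List.mem_cons_of_mem _ hb))
    intro c hc
    simp only [pfi, List.mem_append, List.mem_map] at hc
    rcases hc with hc | ⟨b, hb, rfl⟩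
    · exact ih' c hc
    · exact mul_ne_zero (hl a (List.mem_cons_self ..)) (ih' b hb)

theorem pfi_length (l : List K) : (pfi l).length = 2 ^ l.length := by
  induction l with
  | nil => simp [pfi]
  | cons a l ih =>
    simp only [pfi, List.length_append, List.length_map, ih, List.length_cons, pow_succ]
    ring

theorem pfi_one (n : ℕ) : pfi (List.replicate n (1 : K)) = List.replicate (2 ^ n) 1 := by
  induction n with
  | zero => simp [pfi]
  | succ n ih =>
    rw [List.replicate_succ, pfi, ih]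
    have : (List.replicate (2 ^ n) (1 : K)).map ((1 : K) * ·) = List.replicate (2 ^ n) 1 := by
      simp
    rw [this, List.replicate_append_replicate]
    congr 1
    ring

/-- squares are values of Pfister forms -/
theorem pfi_sq (l : List K) (u : K) : ∃ x, qv (pfi l) x = u ^ 2 := by
  induction l with
  | nil => exact ⟨fun _ => u, by simp [qv, pfi]⟩
  | cons a l ih =>
    obtain ⟨x, hx⟩ := ih
    exact (qv_append (pfi l) ((pfi l).map (a * ·)) (u ^ 2)).2 ⟨x, 0, by rw [hx, qv_zero, add_zero]⟩

theorem pfi_mult {l : List K} (hl : ∀ a ∈ l, a ≠ 0) {c : K} (hc : c ≠ 0)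
    (h : ∃ x, qv (pfi l) x = c) : QIso ((pfi l).map (c * ·)) (pfi l) := by
  induction l generalizing c with
  | nil =>
    obtain ⟨x, hx⟩ := h
    have hx' : c = (x ⟨0, by simp [pfi]⟩) ^ 2 := by
      rw [← hx]
      simp only [qv, pfi]
      simp
    have hne : x ⟨0, by simp [pfi]⟩ ≠ 0 := by
      intro h0
      rw [h0] at hx'
      exact hc (by simpa using hx')
    rw [hx']
    exact QIso.sq _ hne _
  | cons a l ih =>
    have hl' : ∀ b ∈ l, b ≠ 0 := fun b hb => hl b (List.mem_cons_of_mem _ hb)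
    have ha : a ≠ 0 := hl a (List.mem_cons_self ..)
    have ih' := fun {c : K} (hc : c ≠ 0) h => ih (c := c) hl' hc h
    obtain ⟨x, y, hxy⟩ := (qv_append (pfi l) ((pfi l).map (a * ·)) c).1 h
    obtain ⟨y', hy'⟩ := (qv_map a (pfi l) (qv ((pfi l).map (a * ·)) y)).1 ⟨y, rfl⟩
    have hcv : c = qv (pfi l) x + a * qv (pfi l) y' := by rw [hy', hxy]
    generalize hp : qv (pfi l) x = p at hcv
    generalize hq : qv (pfi l) y' = q at hcv
    have hmap : (pfi (a :: l)).map (c * ·) = (pfi l).map (c * ·) ++ (pfi l).map (c * a * ·) := by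
      rw [pfi, List.map_append, mm]
    rw [hmap]
    by_cases hq0 : q = 0
    · -- c = p
      have hcp : c = p := by rw [hcv, hq0, mul_zero, add_zero]
      have h1 : QIso ((pfi l).map (c * ·)) (pfi l) := ih' hc ⟨x, by rw [hp, hcp]⟩
      have h2 : QIso ((pfi l).map (c * a * ·)) ((pfi l).map (a * ·)) := by
        have := h1.smul a
        rw [mm, mul_comm a c] at this
        exact this
      exact h1.append h2
    · have hqτ : QIso ((pfi l).map (q * ·)) (pfi l) := ih' hq0 ⟨y', hq⟩
      by_cases hp0 : p = 0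
      · have hca : c = a * q := by rw [hcv, hp0, zero_add]
        have h1 : QIso ((pfi l).map (c * ·)) ((pfi l).map (a * ·)) := by
          have := hqτ.smul a
          rw [mm, ← hca] at this
          exact this
        have h2 : QIso ((pfi l).map (c * a * ·)) (pfi l) := by
          have h3 := (QIso.sq a ha ((pfi l).map (q * ·))).trans hqτ
          rw [mm] at h3
          have : a ^ 2 * q = c * a := by rw [hca]; ring
          rw [this] at h3
          exact h3
        exact (h1.append h2).trans (QIso.perm List.perm_append_comm)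
      · have hpτ : QIso ((pfi l).map (p * ·)) (pfi l) := ih' hp0 ⟨x, hp⟩
        have hsum : p + a * q ≠ 0 := by rw [← hcv]; exact hc
        have hb := QIso.binary (a := p) (b := a * q) hsum (pfi l)
        rw [← hcv] at hb
        -- p τ ⊥ (a q) τ ≅ τ ⊥ a τ
        have h1 : QIso ((pfi l).map (p * ·) ++ (pfi l).map (a * q * ·))
            (pfi l ++ (pfi l).map (a * ·)) := by
          apply hpτ.append
          have := hqτ.smul a
          rw [mm] at this
          exact this
        -- (p a q c) τ ≅ (c a) τ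
        have h2 : QIso ((pfi l).map (p * (a * q) * c * ·)) ((pfi l).map (c * a * ·)) := by
          have h3 : QIso ((pfi l).map (p * q * ·)) (pfi l) := by
            have := hqτ.smul p
            rw [mm] at this
            exact this.trans hpτ
          have h4 := h3.smul (c * a)
          rw [mm] at h4
          have : c * a * (p * q) = p * (a * q) * c := by ring
          rw [this] at h4
          exact h4
        exact ((QIso.refl _).append h2).symm.trans (hb.symm.trans h1)

theorem pfi_mul {l : List K} (hl : ∀ a ∈ l, a ≠ 0) {c c' : K} (hc : c ≠ 0)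
    (h : ∃ x, qv (pfi l) x = c) (h' : ∃ x, qv (pfi l) x = c') : ∃ x, qv (pfi l) x = c * c' := by
  obtain ⟨y, hy⟩ := h'
  exact (pfi_mult hl hc h).value ((qv_map c (pfi l) (c * c')).2 ⟨y, by rw [hy]⟩)

end Pool.Agent.H78.WL
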