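import Pool.Agent.H78.WL.PfC

/-!
# wl_mod PfD: the pure subform theorem

`pft l` is the pure part: `pfi l = 1 :: pft l`.

`pure_sub`, induction on `l`; `l = []` is impossible (`qv [] x = 0`). `a :: l`, `τ = pfi l`:
`c = d + a e`, `d` a value of `pft l`, `e` a value of `τ`.
* `e = 0`: `c = d`, by induction `τ ≅ pfi (c :: m)`, so
  `τ ⊥ a τ ≅ pfi (a :: c :: m) ≅ pfi (c :: a :: m)` (a permutation).
* `e ≠ 0`: `a τ ≅ (a e) τ` by `pfi_mult`, so `pfi (a :: l) ≅ pfi (a e :: l)`. If `d = 0`: `c = a e`,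
  `m = l`. If `d ≠ 0`: by induction `τ ≅ pfi (d :: m)`, `ρ = pfi m`, so
  `τ ⊥ (a e) τ ≅ ρ ⊥ d ρ ⊥ (a e) ρ ⊥ (a e d) ρ`; `d ρ ⊥ (a e) ρ ≅ c ρ ⊥ (d a e c) ρ` by
  `QIso.binary`; so it is (up to a permutation)
  `ρ ⊥ c ρ ⊥ (a e d) ρ ⊥ (a e d c) ρ = pfi (a e d :: c :: m) ≅ pfi (c :: a e d :: m)`.
-/

namespace Pool.Agent.H78.WL

variable {K : Type*} [Field K]

/-- the pure part of the Pfister form -/
def pft : List K → List K
  | [] => []
  | a :: l => pft l ++ (pfi l).map (a * ·)

theorem pfi_eq (l : List K) : pfi l = 1 :: pft l := by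
  induction l with
  | nil => rfl
  | cons a l ih =>
    show pfi l ++ (pfi l).map (a * ·) = 1 :: (pft l ++ (pfi l).map (a * ·))
    conv_lhs => rw [ih]
    rw [List.cons_append, ← ih]

/-- exchange of the first two slots -/
theorem pfi_swap (a b : K) (l : List K) : QIso (pfi (a :: b :: l)) (pfi (b :: a :: l)) := by
  have h1 : pfi (a :: b :: l) = (pfi l ++ (pfi l).map (b * ·)) ++
      ((pfi l).map (a * ·) ++ (pfi l).map (fun x => a * (b * x))) := by
    show (pfi l ++ (pfi l).map (b * ·)) ++ (pfi l ++ (pfi l).map (b * ·)).map (a * ·) = _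
    rw [List.map_append, List.map_map]
    rfl
  have h2 : pfi (b :: a :: l) = (pfi l ++ (pfi l).map (a * ·)) ++
      ((pfi l).map (b * ·) ++ (pfi l).map (fun x => a * (b * x))) := by
    show (pfi l ++ (pfi l).map (a * ·)) ++ (pfi l ++ (pfi l).map (a * ·)).map (b * ·) = _
    rw [List.map_append, List.map_map]
    congr 2
    refine List.map_congr_left fun x _ => ?_
    simp only [Function.comp_apply]
    ring
  rw [h1, h2]
  refine QIso.perm ?_
  rw [List.append_assoc, List.append_assoc]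
  refine List.Perm.append_left _ ?_
  rw [← List.append_assoc, ← List.append_assoc]
  exact List.Perm.append_right _ List.perm_append_comm

private theorem PfD_congr (a : K) {l m : List K} (h : QIso (pfi l) (pfi m)) :
    QIso (pfi (a :: l)) (pfi (a :: m)) :=
  QIso.append h (QIso.smul a h)

private theorem PfD_scale {l : List K} (hl : ∀ a ∈ l, a ≠ 0) (a : K) {e : K} (he : e ≠ 0)
    (h : ∃ x, qv (pfi l) x = e) : QIso (pfi (a :: l)) (pfi (a * e :: l)) := by
  have h1 := QIso.smul a (pfi_mult hl he h).symm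
  have h2 : ((pfi l).map (e * ·)).map (a * ·) = (pfi l).map (a * e * ·) := by
    rw [List.map_map]
    refine List.map_congr_left fun x _ => ?_
    simp only [Function.comp_apply]
    ring
  rw [h2] at h1
  exact QIso.append (QIso.refl _) h1

private theorem PfD_bin {d f : K} (h : d + f ≠ 0) (m : List K) :
    QIso (pfi (f :: d :: m)) (pfi ((d + f) :: f * d :: m)) := by
  have h1 : pfi (f :: d :: m) = (pfi m ++ (pfi m).map (d * ·)) ++
      ((pfi m).map (f * ·) ++ (pfi m).map (f * d * ·)) := by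
    show (pfi m ++ (pfi m).map (d * ·)) ++ (pfi m ++ (pfi m).map (d * ·)).map (f * ·) = _
    rw [List.map_append, List.map_map]
    congr 2
    refine List.map_congr_left fun x _ => ?_
    simp only [Function.comp_apply]
    ring
  have h2 : pfi ((d + f) :: f * d :: m) = (pfi m ++ (pfi m).map (f * d * ·)) ++
      ((pfi m).map ((d + f) * ·) ++ (pfi m).map (d * f * (d + f) * ·)) := by
    show (pfi m ++ (pfi m).map (f * d * ·)) ++
      (pfi m ++ (pfi m).map (f * d * ·)).map ((d + f) * ·) = _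
    rw [List.map_append, List.map_map]
    congr 2
    refine List.map_congr_left fun x _ => ?_
    simp only [Function.comp_apply]
    ring
  have h3 : (pfi (f :: d :: m)).Perm ((pfi m ++ (pfi m).map (f * d * ·)) ++
      ((pfi m).map (d * ·) ++ (pfi m).map (f * ·))) := by
    rw [h1, List.append_assoc, List.append_assoc]
    refine List.Perm.append_left _ ?_
    rw [← List.append_assoc]
    exact List.perm_append_comm
  rw [h2]
  exact (QIso.perm h3).trans (QIso.append (QIso.refl _) (QIso.binary h (pfi m)))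

theorem pure_sub {l : List K} (hl : ∀ a ∈ l, a ≠ 0) {c : K} (hc : c ≠ 0)
    (h : ∃ x, qv (pft l) x = c) :
    ∃ m : List K, m.length + 1 = l.length ∧ (∀ a ∈ m, a ≠ 0) ∧ QIso (pfi l) (pfi (c :: m)) := by
  induction l generalizing c with
  | nil =>
    exfalso
    obtain ⟨x, hx⟩ := h
    refine hc ?_
    rw [← hx]
    unfold qv
    exact Finset.sum_eq_zero fun j _ => Fin.elim0 j
  | cons a l ih =>
    have hl' : ∀ b ∈ l, b ≠ 0 := fun b hb => hl b (List.mem_cons_of_mem a hb)
    have ha : a ≠ 0 := hl a List.mem_cons_self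
    have h' : ∃ x, qv (pft l ++ (pfi l).map (a * ·)) x = c := h
    rw [qv_append] at h'
    obtain ⟨x, y, hxy⟩ := h'
    obtain ⟨y', hy'⟩ := (qv_map a (pfi l) _).1 ⟨y, rfl⟩
    obtain ⟨d, hd⟩ : ∃ d, d = qv (pft l) x := ⟨_, rfl⟩
    obtain ⟨e, he⟩ : ∃ e, e = qv (pfi l) y' := ⟨_, rfl⟩
    rw [← hd, ← hy', ← he] at hxy
    by_cases he0 : e = 0
    · rw [he0, mul_zero, add_zero] at hxy
      obtain ⟨m, hm1, hm2, hm3⟩ := ih hl' hc ⟨x, by rw [← hd, hxy]⟩
      refine ⟨a :: m, by simp [← hm1], ?_, ?_⟩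
      · intro b hb
        rcases List.mem_cons.1 hb with rfl | hb
        · exact ha
        · exact hm2 b hb
      · exact (PfD_congr a hm3).trans (pfi_swap a c m)
    · have hs := PfD_scale hl' a he0 ⟨y', he.symm⟩
      by_cases hd0 : d = 0
      · rw [hd0, zero_add] at hxy
        rw [hxy] at hs
        exact ⟨l, rfl, hl', hs⟩
      · obtain ⟨m, hm1, hm2, hm3⟩ := ih hl' hd0 ⟨x, hd.symm⟩
        refine ⟨a * e * d :: m, by simp [← hm1], ?_, ?_⟩
        · intro b hb
          rcases List.mem_cons.1 hb with rfl | hb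
          · exact mul_ne_zero (mul_ne_zero ha he0) hd0
          · exact hm2 b hb
        · have hb : d + a * e ≠ 0 := by rw [hxy]; exact hc
          have h5 := PfD_bin hb m
          rw [hxy] at h5
          exact (hs.trans (PfD_congr (a * e) hm3)).trans h5

end Pool.Agent.H78.WL
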