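import Pool.Agent.H78.WL.Defs

/-!
# wl_mod RA: Hilbert's identity

`(∑ x_j²)^e = ∑_q μ_q (∑_j m_q(j) x_j)^(2e)` with finitely many `μ_q > 0`.

Proof: the average over the unit ball of the tensors `Φ m a = ∏_i m (a i)` lies in the convex hull
of a compact set and is invariant under rotations.
-/

namespace Pool.Agent.H78.WL

open MeasureTheory

private lemma RA_isCompact_hull {T : Type} [NormedAddCommGroup T] [NormedSpace ℝ T]
    [FiniteDimensional ℝ T] {s : Set T} (hs : IsCompact s) : IsCompact (convexHull ℝ s) := by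
  classical
  rcases s.eq_empty_or_nonempty with rfl | ⟨p0, hp0⟩
  · simp
  set n := Module.finrank ℝ T + 1 with hn
  have hK : IsCompact ((stdSimplex ℝ (Fin n)) ×ˢ (Set.univ.pi fun _ : Fin n => s)) :=
    (isCompact_stdSimplex ℝ (Fin n)).prod (isCompact_univ_pi fun _ => hs)
  have hF : Continuous (fun p : (Fin n → ℝ) × (Fin n → T) => ∑ i, p.1 i • p.2 i) := by
    fun_prop
  have hEq : convexHull ℝ s =
      (fun p : (Fin n → ℝ) × (Fin n → T) => ∑ i, p.1 i • p.2 i) ''
        ((stdSimplex ℝ (Fin n)) ×ˢ (Set.univ.pi fun _ : Fin n => s)) := by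
    apply Set.Subset.antisymm
    · intro x hx
      obtain ⟨ι, _, z, w, hz, hai, hw, hw1, hx⟩ := eq_pos_convex_span_of_mem_convexHull hx
      have hcard : Fintype.card ι ≤ n := by
        have := hai.card_le_finrank_succ
        refine this.trans ?_
        exact Nat.succ_le_succ (Submodule.finrank_le _)
      obtain ⟨e⟩ : Nonempty (ι ↪ Fin n) :=
        Function.Embedding.nonempty_of_card_le (by simpa using hcard)
      refine ⟨(Function.extend e w 0, Function.extend e z (fun _ => p0)), ⟨⟨?_, ?_⟩, ?_⟩, ?_⟩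
      · intro j
        by_cases hj : ∃ i, e i = j
        · obtain ⟨i, rfl⟩ := hj
          simp only [e.injective.extend_apply]
          exact (hw i).le
        · simp only [Function.extend_apply' _ _ _ hj]
          simp
      · rw [← hw1]
        refine (Fintype.sum_of_injective e e.injective _ _ ?_ ?_).symm
        · intro j hj
          have : ¬ ∃ i, e i = j := fun ⟨i, h⟩ => hj ⟨i, h⟩
          simp only [Function.extend_apply' _ _ _ this]
          simp
        · intro i
          simp only [e.injective.extend_apply]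
      · intro j _
        by_cases hj : ∃ i, e i = j
        · obtain ⟨i, rfl⟩ := hj
          simp only [e.injective.extend_apply]
          exact hz ⟨i, rfl⟩
        · simp only [Function.extend_apply' _ _ _ hj]
          exact hp0
      · rw [← hx]
        refine (Fintype.sum_of_injective e e.injective _ _ ?_ ?_).symm
        · intro j hj
          have : ¬ ∃ i, e i = j := fun ⟨i, h⟩ => hj ⟨i, h⟩
          simp only [Function.extend_apply' _ _ _ this]
          simp
        · intro i
          simp only [e.injective.extend_apply]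
    · rintro x ⟨⟨w, z⟩, ⟨⟨hw, hw1⟩, hz⟩, rfl⟩
      exact mem_convexHull_of_exists_fintype w z hw hw1 (fun i => hz i (Set.mem_univ i)) rfl
  rw [hEq]
  exact hK.image hF

private lemma RA_pow (n N : ℕ) (m x : Fin N → ℝ) :
    (∑ j, m j * x j) ^ n = ∑ a : Fin n → Fin N, (∏ i, m (a i)) * ∏ i, x (a i) := by
  rw [Fintype.sum_pow]
  refine Finset.sum_congr rfl fun a _ => ?_
  rw [Finset.prod_mul_distrib]

/-- the integral `∫_B ⟨m, x⟩^n dm` -/
private noncomputable def RA_G (n N : ℕ) (x : EuclideanSpace ℝ (Fin N)) : ℝ :=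
  ∫ m in Metric.closedBall (0 : EuclideanSpace ℝ (Fin N)) 1, (inner ℝ m x) ^ n

private lemma RA_G_isometry (n N : ℕ)
    (U : EuclideanSpace ℝ (Fin N) ≃ₗᵢ[ℝ] EuclideanSpace ℝ (Fin N))
    (x : EuclideanSpace ℝ (Fin N)) : RA_G n N (U x) = RA_G n N x := by
  unfold RA_G
  have h := U.measurePreserving.setIntegral_preimage_emb
    (U.toHomeomorph.measurableEmbedding)
    (fun m => (inner ℝ m (U x) : ℝ) ^ n) (Metric.closedBall (0 : EuclideanSpace ℝ (Fin N)) 1)
  rw [← h]
  have hpre : (U ⁻¹' Metric.closedBall (0 : EuclideanSpace ℝ (Fin N)) 1)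
      = Metric.closedBall (0 : EuclideanSpace ℝ (Fin N)) 1 := by
    ext m
    simp
  rw [hpre]
  refine integral_congr_ae (Filter.Eventually.of_forall fun m => ?_)
  simp

private lemma RA_G_smul (n N : ℕ) (c : ℝ) (x : EuclideanSpace ℝ (Fin N)) :
    RA_G n N (c • x) = c ^ n * RA_G n N x := by
  unfold RA_G
  rw [← integral_const_mul]
  refine integral_congr_ae (Filter.Eventually.of_forall fun m => ?_)
  simp only [inner_smul_right, mul_pow]

private lemma RA_G_eq (n N : ℕ) (hN : 1 ≤ N) (x : EuclideanSpace ℝ (Fin N)) :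
    RA_G n N x = ‖x‖ ^ n * RA_G n N (EuclideanSpace.single (⟨0, hN⟩ : Fin N) (1 : ℝ)) := by
  set v : EuclideanSpace ℝ (Fin N) := ‖x‖ • EuclideanSpace.single (⟨0, hN⟩ : Fin N) (1 : ℝ) with hv
  have hnorm : ‖x‖ = ‖v‖ := by
    rw [hv, norm_smul]
    simp
  have h := Submodule.reflection_sub hnorm
  have h2 := RA_G_isometry n N ((ℝ ∙ (x - v))ᗮ.reflection) x
  rw [h] at h2
  rw [← h2, hv, RA_G_smul]

private lemma RA_G_pos (e N : ℕ) (hN : 1 ≤ N) :
    0 < RA_G (2 * e) N (EuclideanSpace.single (⟨0, hN⟩ : Fin N) (1 : ℝ)) := by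
  unfold RA_G
  set f : EuclideanSpace ℝ (Fin N) → ℝ := fun m =>
    (inner ℝ m (EuclideanSpace.single (⟨0, hN⟩ : Fin N) (1 : ℝ))) ^ (2 * e) with hf
  have hfc : Continuous f := by
    rw [hf]; fun_prop
  have hfi : IntegrableOn f (Metric.closedBall (0 : EuclideanSpace ℝ (Fin N)) 1) :=
    hfc.continuousOn.integrableOn_compact (isCompact_closedBall _ _)
  rw [setIntegral_pos_iff_support_of_nonneg_ae
    (Filter.Eventually.of_forall fun m => by
      simp only [hf, Pi.zero_apply]
      rw [pow_mul]; positivity) hfi]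
  set p : EuclideanSpace ℝ (Fin N) := (1 / 2 : ℝ) • EuclideanSpace.single (⟨0, hN⟩ : Fin N) (1 : ℝ)
    with hp
  have hpn : ‖p‖ = 1 / 2 := by
    rw [hp, norm_smul]; simp
  have hsub : Metric.ball p (1 / 4) ⊆
      Function.support f ∩ Metric.closedBall (0 : EuclideanSpace ℝ (Fin N)) 1 := by
    intro m hm
    have hm' : ‖m - p‖ < 1 / 4 := by simpa [dist_eq_norm] using hm
    constructor
    · simp only [Function.mem_support, hf]
      have h1 : (inner ℝ m (EuclideanSpace.single (⟨0, hN⟩ : Fin N) (1 : ℝ)) : ℝ)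
          = inner ℝ (m - p) (EuclideanSpace.single (⟨0, hN⟩ : Fin N) (1 : ℝ)) + 1 / 2 := by
        rw [inner_sub_left, hp, inner_smul_left]
        simp
      have h2 : |(inner ℝ (m - p) (EuclideanSpace.single (⟨0, hN⟩ : Fin N) (1 : ℝ)) : ℝ)|
          ≤ ‖m - p‖ := by
        refine (abs_real_inner_le_norm _ _).trans ?_
        simp
      have h3 : (inner ℝ m (EuclideanSpace.single (⟨0, hN⟩ : Fin N) (1 : ℝ)) : ℝ) ≠ 0 := by
        rw [h1]
        have := (abs_le.mp h2).1
        intro h0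
        linarith
      exact pow_ne_zero _ h3
    · simp only [Metric.mem_closedBall, dist_zero_right]
      calc ‖m‖ = ‖(m - p) + p‖ := by simp
        _ ≤ ‖m - p‖ + ‖p‖ := norm_add_le _ _
        _ ≤ 1 := by rw [hpn]; linarith
  exact lt_of_lt_of_le (Metric.measure_ball_pos _ _ (by norm_num)) (measure_mono hsub)

theorem hilbert_identity (e N : ℕ) (he : 1 ≤ e) (hN : 1 ≤ N) :
    ∃ (M : ℕ) (μ : Fin M → ℝ) (m : Fin M → Fin N → ℝ), (∀ q, 0 < μ q) ∧
      ∀ x : Fin N → ℝ, ∑ q, μ q * (∑ j, m q j * x j) ^ (2 * e) = (∑ j, x j ^ 2) ^ e := by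
  classical
  set B : Set (EuclideanSpace ℝ (Fin N)) :=
    Metric.closedBall (0 : EuclideanSpace ℝ (Fin N)) 1 with hB
  set Φ : EuclideanSpace ℝ (Fin N) → ((Fin (2 * e) → Fin N) → ℝ) :=
    fun m a => ∏ i, m (a i) with hΦ
  have hΦc : Continuous Φ := by
    rw [hΦ]
    refine continuous_pi fun a => continuous_finsetProd _ fun i _ => ?_
    fun_prop
  have hBc : IsCompact B := isCompact_closedBall _ _
  have hvol0 : (volume B) ≠ 0 := (Metric.measure_closedBall_pos volume _ one_pos).ne'
  have hvolt : (volume B) ≠ ⊤ := hBc.measure_lt_top.ne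
  have hmem : (⨍ m in B, Φ m) ∈ convexHull ℝ (Φ '' B) := by
    refine Convex.set_average_mem (convex_convexHull ℝ _)
      (RA_isCompact_hull (hBc.image hΦc)).isClosed hvol0 hvolt ?_ ?_
    · refine (ae_restrict_iff' measurableSet_closedBall).2 (Filter.Eventually.of_forall ?_)
      intro m hm
      exact subset_convexHull ℝ _ ⟨m, hm, rfl⟩
    · exact hΦc.continuousOn.integrableOn_compact hBc
  rw [mem_convexHull_iff_exists_fintype] at hmem
  obtain ⟨ι, _, w, z, hw0, hw1, hz, hsum⟩ := hmem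
  choose m hmB hmz using hz
  -- evaluate
  have hfun : ∀ x : Fin N → ℝ, ∑ i, w i * (∑ j, m i j * x j) ^ (2 * e)
      = (volume.real B)⁻¹ * RA_G (2 * e) N (WithLp.toLp 2 x) := by
    intro x
    let L : ((Fin (2 * e) → Fin N) → ℝ) →L[ℝ] ℝ :=
      ∑ a : Fin (2 * e) → Fin N, (∏ i, x (a i)) • ContinuousLinearMap.proj (R := ℝ) a
    have hL : ∀ u, L u = ∑ a : Fin (2 * e) → Fin N, u a * ∏ i, x (a i) := by
      intro u
      simp only [L, FunLike.coe_sum, Finset.sum_apply, FunLike.coe_smul,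
        Pi.smul_apply, ContinuousLinearMap.proj_apply, smul_eq_mul]
      exact Finset.sum_congr rfl fun a _ => mul_comm _ _
    have hLΦ : ∀ v : EuclideanSpace ℝ (Fin N), L (Φ v) = (∑ j, v j * x j) ^ (2 * e) := by
      intro v
      rw [hL, RA_pow]
    have h1 : L (⨍ m in B, Φ m) = ∑ i, w i * (∑ j, m i j * x j) ^ (2 * e) := by
      rw [← hsum, map_sum]
      refine Finset.sum_congr rfl fun i _ => ?_
      rw [map_smul, smul_eq_mul, ← hmz i, hLΦ]
    rw [← h1, setAverage_eq, map_smul, smul_eq_mul]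
    congr 1
    rw [← ContinuousLinearMap.integral_comp_comm L (hΦc.continuousOn.integrableOn_compact hBc)]
    unfold RA_G
    refine integral_congr_ae (Filter.Eventually.of_forall fun v => ?_)
    simp only [hLΦ]
    congr 1
    simp [PiLp.inner_apply, mul_comm]
  set c : ℝ := (volume.real B)⁻¹ *
    RA_G (2 * e) N (EuclideanSpace.single (⟨0, hN⟩ : Fin N) (1 : ℝ)) with hc
  have hcpos : 0 < c := by
    refine mul_pos (inv_pos.2 ?_) (RA_G_pos e N hN)
    exact ENNReal.toReal_pos hvol0 hvolt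
  have hid : ∀ x : Fin N → ℝ, ∑ i, w i * (∑ j, m i j * x j) ^ (2 * e)
      = c * (∑ j, x j ^ 2) ^ e := by
    intro x
    rw [hfun, RA_G_eq (2 * e) N hN, hc]
    have : ‖(WithLp.toLp 2 x : EuclideanSpace ℝ (Fin N))‖ ^ (2 * e) = (∑ j, x j ^ 2) ^ e := by
      rw [pow_mul, EuclideanSpace.norm_sq_eq]
      simp
    rw [this]; ring
  -- restrict to positive weights and reindex
  let S := {i : ι // 0 < w i}
  let eq : S ≃ Fin (Fintype.card S) := Fintype.equivFin S
  refine ⟨Fintype.card S, fun q => w (eq.symm q).1 / c, fun q j => m (eq.symm q).1 j, ?_, ?_⟩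
  · intro q
    exact div_pos (eq.symm q).2 hcpos
  · intro x
    have h2 : ∑ q, w (eq.symm q).1 / c * (∑ j, m (eq.symm q).1 j * x j) ^ (2 * e)
        = ∑ s : S, w s.1 / c * (∑ j, m s.1 j * x j) ^ (2 * e) :=
      Equiv.sum_comp eq.symm (fun s : S => w s.1 / c * (∑ j, m s.1 j * x j) ^ (2 * e))
    rw [h2]
    have h3 : ∑ s : S, w s.1 / c * (∑ j, m s.1 j * x j) ^ (2 * e)
        = ∑ i, w i / c * (∑ j, m i j * x j) ^ (2 * e) := by
      refine Fintype.sum_of_injective (fun s : S => s.1) Subtype.val_injective _ _ ?_ ?_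
      · intro i hi
        have hi0 : ¬ 0 < w i := fun h => hi ⟨⟨i, h⟩, rfl⟩
        have : w i = 0 := le_antisymm (not_lt.1 hi0) (hw0 i)
        rw [this]; simp
      · intro s
        rfl
    rw [h3]
    have h4 : ∑ i, w i / c * (∑ j, m i j * x j) ^ (2 * e)
        = (∑ i, w i * (∑ j, m i j * x j) ^ (2 * e)) / c := by
      rw [Finset.sum_div]
      exact Finset.sum_congr rfl fun i _ => by ring
    rw [h4, hid]
    field_simp

end Pool.Agent.H78.WL
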