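import Pool.Agent.H78.WL.RA

/-!
# wl_mod RB: Hilbert's identity with spanning powers

`Φ v a = ∏_i v (a i)` (array of `⟨v,x⟩^(2e)`).

Proof. Start with `hilbert_identity`: `∑ μ_q ⟨m_q,x⟩^(2e) = |x|^(2e)`. Some `m_q ≠ 0` (otherwise
`|x|^(2e) = 0` for all `x`), say `m_0`. Let `v ≠ 0`. There is an orthogonal matrix `U` with
`U m_0 = λ v`, `λ = |m_0|/|v| > 0` (a reflection maps `m_0` to any vector of the same norm;
`reflection_sub` in `EuclideanSpace`, or the explicit Householder map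
`x ↦ x - 2⟨x,w⟩/⟨w,w⟩ w`, `w = m_0 - λ v`, or the identity if `w = 0`).
Then `∑ μ_q ⟨U m_q,x⟩^(2e) = ∑ μ_q ⟨m_q,Uᵗ x⟩^(2e) = |Uᵗ x|^(2e) = |x|^(2e)`: an identity which
contains the vector `λ v`, `Φ (λ v) = λ^(2e) Φ v`.
The span of the range of `Φ` is a subspace of a finite dimensional space, so it is spanned by
`Φ v_1, ..., Φ v_r`, `v_j ≠ 0` (`Φ 0 = 0` as `e ≥ 1`), `r ≥ 1` (add a nonzero vector if necessary).
Take the `r` rotated identities for `v_1, ..., v_r`, each multiplied with `1/r`, and add them: index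
set `Fin r × Fin M ≃ Fin (r M)`.
-/

namespace Pool.Agent.H78.WL

open Finset

private noncomputable def RBphi (e N : ℕ) (v : Fin N → ℝ) : (Fin (2 * e) → Fin N) → ℝ :=
  fun a => ∏ i, v (a i)

private lemma RB_phi_smul (e N : ℕ) (c : ℝ) (v : Fin N → ℝ) :
    RBphi e N (c • v) = c ^ (2 * e) • RBphi e N v := by
  funext a
  simp [RBphi, Finset.prod_mul_distrib]

private lemma RB_rotate (e N M : ℕ) (he : 1 ≤ e) (μ : Fin M → ℝ)
    (m : Fin M → Fin N → ℝ) (q0 : Fin M) (hq0 : m q0 ≠ 0)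
    (hid : ∀ x : Fin N → ℝ, ∑ q, μ q * (∑ j, m q j * x j) ^ (2 * e) = (∑ j, x j ^ 2) ^ e)
    (v : Fin N → ℝ) :
    ∃ m' : Fin M → Fin N → ℝ,
      (∀ x : Fin N → ℝ, ∑ q, μ q * (∑ j, m' q j * x j) ^ (2 * e) = (∑ j, x j ^ 2) ^ e) ∧
      RBphi e N v ∈ Submodule.span ℝ (Set.range fun q : Fin M => RBphi e N (m' q)) := by
  by_cases hv : v = 0
  · refine ⟨m, hid, ?_⟩
    have : RBphi e N v = 0 := by
      funext a
      have : (univ : Finset (Fin (2 * e))).Nonempty := ⟨⟨0, by omega⟩, mem_univ _⟩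
      obtain ⟨i, hi⟩ := this
      simp only [RBphi, Pi.zero_apply]
      exact Finset.prod_eq_zero hi (by simp [hv])
    rw [this]
    exact Submodule.zero_mem _
  -- inner product
  set A : ℝ := ∑ j, m q0 j ^ 2 with hA
  set B : ℝ := ∑ j, v j ^ 2 with hB
  have posOf : ∀ u : Fin N → ℝ, u ≠ 0 → 0 < ∑ j, u j ^ 2 := by
    intro u hu
    obtain ⟨j, hj⟩ := Function.ne_iff.mp hu
    refine Finset.sum_pos' (fun j _ => sq_nonneg _) ⟨j, mem_univ _, ?_⟩
    have : u j ≠ 0 := by simpa using hj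
    positivity
  have hApos : 0 < A := posOf _ hq0
  have hBpos : 0 < B := posOf _ hv
  set l : ℝ := Real.sqrt (A / B) with hl
  have hlpos : 0 < l := Real.sqrt_pos.mpr (div_pos hApos hBpos)
  have hl2 : l ^ 2 * B = A := by
    rw [hl, Real.sq_sqrt (div_pos hApos hBpos).le]
    field_simp
  set w : Fin N → ℝ := fun j => m q0 j - l * v j with hw
  set W : ℝ := ∑ j, w j ^ 2 with hW
  set H : (Fin N → ℝ) → (Fin N → ℝ) := fun x j => x j - 2 * (∑ k, x k * w k) / W * w j with hH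
  have hsymm : ∀ x y : Fin N → ℝ, ∑ j, H x j * y j = ∑ j, x j * H y j := by
    intro x y
    have e1 : ∑ j, H x j * y j
        = ∑ j, x j * y j - 2 * (∑ k, x k * w k) / W * ∑ j, y j * w j := by
      rw [Finset.mul_sum, ← Finset.sum_sub_distrib]
      refine Finset.sum_congr rfl fun j _ => ?_
      simp only [hH]; ring
    have e2 : ∑ j, x j * H y j
        = ∑ j, x j * y j - 2 * (∑ k, y k * w k) / W * ∑ j, x j * w j := by
      rw [Finset.mul_sum, ← Finset.sum_sub_distrib]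
      refine Finset.sum_congr rfl fun j _ => ?_
      simp only [hH]; ring
    rw [e1, e2]; ring
  have hnorm : ∀ x : Fin N → ℝ, ∑ j, H x j ^ 2 = ∑ j, x j ^ 2 := by
    intro x
    set c : ℝ := 2 * (∑ k, x k * w k) / W with hc
    have e1 : ∑ j, H x j ^ 2 = ∑ j, x j ^ 2 - 2 * c * (∑ j, x j * w j) + c ^ 2 * W := by
      rw [hW, Finset.mul_sum, Finset.mul_sum, ← Finset.sum_sub_distrib, ← Finset.sum_add_distrib]
      refine Finset.sum_congr rfl fun j _ => ?_
      simp only [hH]; rw [← hc]; ring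
    rw [e1]
    by_cases hW0 : W = 0
    · have : c = 0 := by rw [hc, hW0]; simp
      rw [this]; ring
    · have : c * W = 2 * ∑ k, x k * w k := by rw [hc]; field_simp
      have h2 : c ^ 2 * W = c * (2 * ∑ k, x k * w k) := by rw [← this]; ring
      rw [h2]; ring
  have hm0 : H (m q0) = l • v := by
    have h1 : W = 2 * ∑ k, m q0 k * w k := by
      have e1 : W = A - 2 * l * (∑ k, m q0 k * v k) + l ^ 2 * B := by
        rw [hW, hA, hB, Finset.mul_sum, Finset.mul_sum, ← Finset.sum_sub_distrib,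
          ← Finset.sum_add_distrib]
        refine Finset.sum_congr rfl fun j _ => ?_
        simp only [hw]; ring
      have e2 : ∑ k, m q0 k * w k = A - l * ∑ k, m q0 k * v k := by
        rw [hA, Finset.mul_sum, ← Finset.sum_sub_distrib]
        refine Finset.sum_congr rfl fun j _ => ?_
        simp only [hw]; ring
      rw [e1, e2, hl2]; ring
    funext j
    simp only [hH, Pi.smul_apply, smul_eq_mul]
    rw [← h1]
    by_cases hW0 : W = 0
    · have hwj : w j = 0 := by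
        have := (Finset.sum_eq_zero_iff_of_nonneg (fun j _ => sq_nonneg (w j))).mp hW0 j
          (mem_univ _)
        exact pow_eq_zero_iff (two_ne_zero) |>.mp this
      rw [hwj, mul_zero, sub_zero]
      have : m q0 j - l * v j = 0 := hwj
      linarith
    · rw [div_self hW0, one_mul]
      simp only [hw]; ring
  refine ⟨fun q => H (m q), ?_, ?_⟩
  · intro x
    have : ∀ q, ∑ j, H (m q) j * x j = ∑ j, m q j * H x j := fun q => hsymm _ _
    simp only [this]
    rw [hid (H x), hnorm]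
  · have h1 : RBphi e N (H (m q0)) ∈
        Submodule.span ℝ (Set.range fun q : Fin M => RBphi e N (H (m q))) :=
      Submodule.subset_span ⟨q0, rfl⟩
    rw [hm0, RB_phi_smul] at h1
    have hl0 : l ^ (2 * e) ≠ 0 := (pow_pos hlpos _).ne'
    exact (Submodule.smul_mem_iff _ hl0).mp h1

theorem hilbert_span (e N : ℕ) (he : 1 ≤ e) (hN : 1 ≤ N) :
    ∃ (M : ℕ) (μ : Fin M → ℝ) (m : Fin M → Fin N → ℝ), (∀ q, 0 < μ q) ∧
      (∀ x : Fin N → ℝ, ∑ q, μ q * (∑ j, m q j * x j) ^ (2 * e) = (∑ j, x j ^ 2) ^ e) ∧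
      ∀ v : Fin N → ℝ, (fun a : Fin (2 * e) → Fin N => ∏ i, v (a i)) ∈
        Submodule.span ℝ (Set.range fun q : Fin M => fun a : Fin (2 * e) → Fin N =>
          ∏ i, m q (a i)) := by
  classical
  obtain ⟨M, μ, m, hμ, hid⟩ := hilbert_identity e N he hN
  have hex : ∃ q0, m q0 ≠ 0 := by
    by_contra hcon
    push Not at hcon
    have h := hid (Pi.single ⟨0, hN⟩ 1)
    have h1 : ∑ j : Fin N, (Pi.single (⟨0, hN⟩ : Fin N) (1 : ℝ) : Fin N → ℝ) j ^ 2 = 1 := by
      rw [Finset.sum_eq_single (⟨0, hN⟩ : Fin N)]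
      · simp
      · intro b _ hb; simp [Pi.single_eq_of_ne hb]
      · intro h; exact absurd (mem_univ _) h
    rw [h1, one_pow] at h
    have h2 : ∀ q, μ q * (∑ j, m q j * (Pi.single (⟨0, hN⟩ : Fin N) (1 : ℝ) : Fin N → ℝ) j)
        ^ (2 * e) = 0 := by
      intro q
      rw [hcon q]
      have : (2 * e) ≠ 0 := by omega
      simp [this]
    rw [Finset.sum_eq_zero fun q _ => h2 q] at h
    exact zero_ne_one h
  obtain ⟨q0, hq0⟩ := hex
  choose m' hm' hs' using RB_rotate e N M he μ m q0 hq0 hid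
  have hfg : (Submodule.span ℝ (Set.range (RBphi e N))).FG := IsNoetherian.noetherian _
  obtain ⟨s, hs, hspan⟩ := Submodule.fg_span_iff_fg_span_finset_subset _ |>.mp hfg
  have hsv : ∀ t : {t // t ∈ s}, ∃ v, RBphi e N v = t.1 := fun t => hs t.2
  choose vv hvv using hsv
  let ι := Option {t // t ∈ s}
  let V : ι → Fin N → ℝ := fun o => o.elim 0 vv
  let c : ℝ := Fintype.card ι
  have hc : 0 < c := by
    have : 0 < Fintype.card ι := Fintype.card_pos
    exact Nat.cast_pos.mpr this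
  let E : Fin (Fintype.card (ι × Fin M)) ≃ ι × Fin M := (Fintype.equivFin _).symm
  refine ⟨Fintype.card (ι × Fin M), fun k => c⁻¹ * μ (E k).2, fun k => m' (V (E k).1) (E k).2,
    ?_, ?_, ?_⟩
  · intro k
    exact mul_pos (inv_pos.mpr hc) (hμ _)
  · intro x
    have h1 : ∑ k, c⁻¹ * μ (E k).2 * (∑ j, m' (V (E k).1) (E k).2 j * x j) ^ (2 * e)
        = ∑ p : ι × Fin M, c⁻¹ * μ p.2 * (∑ j, m' (V p.1) p.2 j * x j) ^ (2 * e) :=
      Equiv.sum_comp E (fun p : ι × Fin M =>
        c⁻¹ * μ p.2 * (∑ j, m' (V p.1) p.2 j * x j) ^ (2 * e))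
    rw [h1, Fintype.sum_prod_type]
    have h2 : ∀ o : ι, ∑ q, c⁻¹ * μ q * (∑ j, m' (V o) q j * x j) ^ (2 * e)
        = c⁻¹ * (∑ j, x j ^ 2) ^ e := by
      intro o
      rw [← hm' (V o) x, Finset.mul_sum]
      exact Finset.sum_congr rfl fun q _ => by ring
    simp only [h2, Finset.sum_const, Finset.card_univ, nsmul_eq_mul]
    rw [← mul_assoc]
    have : (Fintype.card ι : ℝ) * c⁻¹ = 1 := mul_inv_cancel₀ hc.ne'
    rw [this, one_mul]
  · intro v
    have hv : RBphi e N v ∈ Submodule.span ℝ (Set.range (RBphi e N)) :=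
      Submodule.subset_span ⟨v, rfl⟩
    rw [hspan] at hv
    refine (Submodule.span_le.mpr ?_) hv
    intro t ht
    have ht' : t ∈ s := ht
    have h1 := hs' (V (some ⟨t, ht'⟩))
    have h2 : RBphi e N (V (some ⟨t, ht'⟩)) = t := hvv ⟨t, ht'⟩
    rw [h2] at h1
    refine (Submodule.span_mono ?_) h1
    rintro _ ⟨q, rfl⟩
    refine ⟨E.symm (some ⟨t, ht'⟩, q), ?_⟩
    simp only [Equiv.apply_symm_apply]
    rfl

end Pool.Agent.H78.WL
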