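import Mathlib

/-!
# wl_mod RC: a parameter version of the inverse function theorem

Proof. `H (a, b) = (a, F (a, b))` is `C¹`, so it has a strict derivative at `(a0, b0)`
(`ContDiffAt.hasStrictFDerivAt`), which is `(δ, ε) ↦ (δ, F₁ δ + F' ε)` where `F₁ = D F(a0,b0)(·,0)`
(the derivative of `F` at `(a0,b0)` restricted to `{0} × B` is `F'` by the chain rule and uniqueness);
it is surjective as `F'` is. By `HasStrictFDerivAt.map_nhds_eq_of_surj` the image of every
neighbourhood of `(a0,b0)` under `H` is a neighbourhood of `(a0, F (a0,b0))`; the map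
`a ↦ (a, F (a0,b0))` is continuous, so for `a` near `a0` the point `(a, F (a0,b0))` is some
`H (a', b)`; then `a' = a`.
-/

namespace Pool.Agent.H78.WL

open Filter Topology

theorem ift_core {A B E : Type*} [NormedAddCommGroup A] [NormedSpace ℝ A] [CompleteSpace A]
    [NormedAddCommGroup B] [NormedSpace ℝ B] [CompleteSpace B]
    [NormedAddCommGroup E] [NormedSpace ℝ E] [CompleteSpace E]
    (F : A × B → E) (hF : ContDiff ℝ 1 F) (a0 : A) (b0 : B) (F' : B →L[ℝ] E)
    (hF' : HasFDerivAt (fun b => F (a0, b)) F' b0) (hsurj : Function.Surjective F') :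
    ∀ᶠ a in 𝓝 a0, ∃ b, F (a, b) = F (a0, b0) := by
  have hstrict : HasStrictFDerivAt F (fderiv ℝ F (a0, b0)) (a0, b0) :=
    hF.contDiffAt.hasStrictFDerivAt one_ne_zero
  set F1 := fderiv ℝ F (a0, b0) with hF1
  have hH : HasStrictFDerivAt (fun p : A × B => (p.1, F p))
      ((ContinuousLinearMap.fst ℝ A B).prod F1) (a0, b0) :=
    hasStrictFDerivAt_fst.prodMk hstrict
  have hcomp : HasFDerivAt (fun b => F (a0, b)) (F1.comp (ContinuousLinearMap.inr ℝ A B)) b0 :=
    hstrict.hasFDerivAt.comp b0 (hasFDerivAt_prodMk_right a0 b0)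
  have heq : F' = F1.comp (ContinuousLinearMap.inr ℝ A B) := hF'.unique hcomp
  have hs : LinearMap.range
      (((ContinuousLinearMap.fst ℝ A B).prod F1 : A × B →L[ℝ] A × E) : A × B →ₗ[ℝ] A × E) = ⊤ := by
    rw [LinearMap.range_eq_top]
    rintro ⟨x, y⟩
    obtain ⟨z, hz⟩ := hsurj (y - F1 (x, 0))
    refine ⟨(x, z), ?_⟩
    have h1 : F1 (0, z) = y - F1 (x, 0) := by
      rw [← hz, heq]
      simp
    have h2 : F1 (x, z) = F1 (x, 0) + F1 (0, z) := by
      rw [← map_add]
      simp
    simp [h2, h1]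
  have hmap := hH.map_nhds_eq_of_surj hs
  have hcont : Tendsto (fun a : A => (a, F (a0, b0))) (𝓝 a0) (𝓝 (a0, F (a0, b0))) :=
    Tendsto.prodMk_nhds tendsto_id tendsto_const_nhds
  have hmem : Set.range (fun p : A × B => (p.1, F p)) ∈ 𝓝 (a0, F (a0, b0)) := by
    have : Set.range (fun p : A × B => (p.1, F p)) ∈
        Filter.map (fun p : A × B => (p.1, F p)) (𝓝 (a0, b0)) := by
      rw [Filter.mem_map]
      filter_upwards with p
      exact ⟨p, rfl⟩
    rw [hmap] at this
    exact this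
  filter_upwards [hcont hmem] with a ha
  obtain ⟨⟨a', b⟩, hp⟩ := ha
  simp only [Prod.mk.injEq] at hp
  refine ⟨b, ?_⟩
  rw [← hp.1]
  exact hp.2

end Pool.Agent.H78.WL
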